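import Pool.Agent.Helper94.AM.Defs

open Set Finset

set_option linter.unusedSectionVars false

namespace Pool.AF

/-! ## AM-9 SECTOR: an open convex cone without lines in the plane

Let `C₀` be the image of the cone in the two-dimensional `B / A`: open, convex, invariant under
positive scalars, no line. Choose a linear functional `ξ` positive on `C₀` with bounded slices
(`exists_coercive` in AF/Sharp.lean, with `V = ⊥`), `v₀ ∈ C₀`, `w ≠ 0` in `ker ξ`;
`{t | v₀ + t w ∈ C₀}` is an open bounded interval `(t₁, t₂)`; with `a = v₀ + t₁ w`,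
`b = v₀ + t₂ w` (a basis) `C₀ = {s a + t b | s, t > 0}`. An element `g` and its inverse preserve
`C₀`, so their matrices in the basis `a, b` are nonnegative, hence `g` preserves the two lines or
exchanges them; the elements preserving them form a subgroup of index at most two. `L` is the
preimage of the line of `a`. -/

section SectorAux

variable {E : Type*} [NormedAddCommGroup E] [NormedSpace ℝ E]

private theorem sec_line {C U : Set E} {B : Submodule ℝ E} (hU : IsOpen U)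
    (hCU : C = U ∩ (B : Set E)) {x y : E} (hx : x ∈ C) (hy : y ∈ B) :
    ∃ ε : ℝ, 0 < ε ∧ ∀ r : ℝ, |r| < ε → x + r • y ∈ C := by
  have hxU : x ∈ U ∩ (B : Set E) := hCU ▸ hx
  have hcont : Continuous fun r : ℝ => x + r • y := by fun_prop
  have hopen : IsOpen ((fun r : ℝ => x + r • y) ⁻¹' U) := hU.preimage hcont
  have h0 : (0 : ℝ) ∈ (fun r : ℝ => x + r • y) ⁻¹' U := by
    simp only [Set.mem_preimage, zero_smul, add_zero]
    exact hxU.1
  obtain ⟨ε, hε, hball⟩ := Metric.isOpen_iff.1 hopen 0 h0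
  refine ⟨ε, hε, fun r hr => ?_⟩
  rw [hCU]
  refine ⟨?_, B.add_mem hxU.2 (B.smul_mem r hy)⟩
  apply hball
  rw [Metric.mem_ball, Real.dist_eq, sub_zero]
  exact hr

private theorem sec_add {C : Set E} (hconv : Convex ℝ C)
    (hscale : ∀ x ∈ C, ∀ t : ℝ, 0 < t → t • x ∈ C) {x y : E} (hx : x ∈ C) (hy : y ∈ C) :
    x + y ∈ C := by
  have h1 := hconv hx hy (a := 1 / 2) (b := 1 / 2) (by norm_num) (by norm_num) (by norm_num)
  have h2 := hscale _ h1 2 (by norm_num)
  have h3 : (2 : ℝ) • ((1 / 2 : ℝ) • x + (1 / 2 : ℝ) • y) = x + y := by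
    rw [smul_add, smul_smul, smul_smul]
    norm_num
  rwa [h3] at h2

/-- The slice in a direction. -/
private theorem sec_slice {C U : Set E} {A B : Submodule ℝ E} (hU : IsOpen U)
    (hCU : C = U ∩ (B : Set E)) (hconv : Convex ℝ C)
    (hscale : ∀ x ∈ C, ∀ t : ℝ, 0 < t → t • x ∈ C)
    (hlin : ∀ v ∈ B, v ∈ A ↔ ∀ x ∈ C, ∀ t : ℝ, x + t • v ∈ C)
    {v₀ : E} (hv₀ : v₀ ∈ C) (hv₀A : v₀ ∉ A) {w : E} (hw : w ∈ B) :
    ∃ σ : ℝ, ∀ s : ℝ, s • v₀ + w ∈ C ↔ σ < s := by
  have hv₀B : v₀ ∈ B := by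
    have h : v₀ ∈ U ∩ (B : Set E) := hCU ▸ hv₀
    exact h.2
  have hup : ∀ s r : ℝ, s • v₀ + w ∈ C → s ≤ r → r • v₀ + w ∈ C := by
    intro s r hs hsr
    rcases hsr.eq_or_lt with h | h
    · rw [← h]
      exact hs
    · have h1 := sec_add hconv hscale hs (hscale v₀ hv₀ (r - s) (by linarith))
      have h2 : s • v₀ + w + (r - s) • v₀ = r • v₀ + w := by
        rw [sub_smul]
        abel
      rwa [h2] at h1
  have hne : ∃ s : ℝ, s • v₀ + w ∈ C := by
    obtain ⟨ε, hε, h⟩ := sec_line hU hCU hv₀ hw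
    have h1 := h (ε / 2) (by rw [abs_of_pos (by linarith)]; linarith)
    have h2 := hscale _ h1 (ε / 2)⁻¹ (by positivity)
    refine ⟨(ε / 2)⁻¹, ?_⟩
    have h3 : (ε / 2)⁻¹ • (v₀ + (ε / 2) • w) = (ε / 2)⁻¹ • v₀ + w := by
      rw [smul_add, smul_smul, inv_mul_cancel₀ (by positivity), one_smul]
    rwa [h3] at h2
  have hbd : ∃ m : ℝ, ∀ s : ℝ, s • v₀ + w ∈ C → m ≤ s := by
    by_contra hcon
    push Not at hcon
    apply hv₀A
    rw [hlin v₀ hv₀B]
    intro x hx t
    obtain ⟨ε, hε, h⟩ := sec_line hU hCU hx hw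
    have h1 := h (-(ε / 2)) (by rw [abs_neg, abs_of_pos (by linarith)]; linarith)
    obtain ⟨s, hs1, hs2⟩ := hcon (t / (ε / 2))
    have h2 := hup s _ hs1 hs2.le
    have h3 := sec_add hconv hscale h1 (hscale _ h2 (ε / 2) (by linarith))
    have h4 : x + (-(ε / 2)) • w + (ε / 2) • ((t / (ε / 2)) • v₀ + w) = x + t • v₀ := by
      rw [smul_add, smul_smul, mul_div_cancel₀ t (by positivity : (ε / 2) ≠ 0), neg_smul]
      abel
    rwa [h4] at h3
  obtain ⟨s₀, hs₀⟩ := hne
  obtain ⟨m, hm⟩ := hbd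
  have hbb : BddBelow {s : ℝ | s • v₀ + w ∈ C} := ⟨m, fun s hs => hm s hs⟩
  refine ⟨sInf {s : ℝ | s • v₀ + w ∈ C}, fun s => ⟨fun hs => ?_, fun hs => ?_⟩⟩
  · obtain ⟨ε, hε, h⟩ := sec_line hU hCU hs hv₀B
    have h1 := h (-(ε / 2)) (by rw [abs_neg, abs_of_pos (by linarith)]; linarith)
    have h2 : s • v₀ + w + (-(ε / 2)) • v₀ = (s - ε / 2) • v₀ + w := by
      rw [sub_smul, neg_smul]
      abel
    rw [h2] at h1
    have h3 : sInf {s : ℝ | s • v₀ + w ∈ C} ≤ s - ε / 2 := csInf_le hbb h1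
    linarith
  · obtain ⟨s', hs', hlt⟩ := exists_lt_of_csInf_lt ⟨s₀, hs₀⟩ hs
    exact hup s' s hs' hlt.le

/-- The cone is a sector. -/
private theorem sec_main [FiniteDimensional ℝ E] {C U : Set E} {A B : Submodule ℝ E}
    (hAB : A ≤ B) (hdim : Module.finrank ℝ B = Module.finrank ℝ A + 2) (hU : IsOpen U)
    (hCU : C = U ∩ (B : Set E)) (hne : C.Nonempty) (hconv : Convex ℝ C)
    (hscale : ∀ x ∈ C, ∀ t : ℝ, 0 < t → t • x ∈ C)
    (hlin : ∀ v ∈ B, v ∈ A ↔ ∀ x ∈ C, ∀ t : ℝ, x + t • v ∈ C) :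
    ∃ (F₁ F₂ : E →ₗ[ℝ] ℝ) (u₁ u₂ : E), u₁ ∈ B ∧ u₂ ∈ B ∧ F₁ u₁ = 1 ∧ F₂ u₁ = 0 ∧ F₁ u₂ = 0 ∧
      F₂ u₂ = 1 ∧ (∀ x ∈ B, x ∈ C ↔ 0 < F₁ x ∧ 0 < F₂ x) ∧
      ∀ x ∈ B, x ∈ A ↔ F₁ x = 0 ∧ F₂ x = 0 := by
  obtain ⟨v₀, hv₀⟩ := hne
  have hCB : ∀ x ∈ C, x ∈ B := by
    intro x hx
    have h : x ∈ U ∩ (B : Set E) := hCU ▸ hx
    exact h.2
  have hv₀B := hCB v₀ hv₀
  have h0C : (0 : E) ∉ C := by
    intro h0
    have hall : ∀ y ∈ B, y ∈ C := by
      intro y hy
      obtain ⟨ε, hε, h⟩ := sec_line hU hCU h0 hy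
      have h1 := h (ε / 2) (by rw [abs_of_pos (by linarith)]; linarith)
      have h2 := hscale _ h1 (ε / 2)⁻¹ (by positivity)
      rw [zero_add, smul_smul, inv_mul_cancel₀ (by positivity), one_smul] at h2
      exact h2
    have hBA : B ≤ A := by
      intro v hv
      rw [hlin v hv]
      intro x hx t
      exact hall _ (B.add_mem (hCB x hx) (B.smul_mem t hv))
    have h3 := Submodule.finrank_mono hBA
    omega
  have hv₀A : v₀ ∉ A := by
    intro h
    have h1 := (hlin v₀ hv₀B).1 h v₀ hv₀ (-1)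
    apply h0C
    have h2 : v₀ + (-1 : ℝ) • v₀ = 0 := by
      rw [neg_smul, one_smul]
      abel
    rwa [h2] at h1
  -- the second vector
  set A₁ : Submodule ℝ E := A ⊔ Submodule.span ℝ {v₀} with hA₁
  have hA₁B : A₁ ≤ B := by
    rw [hA₁, sup_le_iff]
    refine ⟨hAB, ?_⟩
    rw [Submodule.span_singleton_le_iff_mem]
    exact hv₀B
  have hfA₁ : Module.finrank ℝ A₁ ≤ Module.finrank ℝ A + 1 := by
    have h1 := Submodule.finrank_add_le_finrank_add_finrank A (Submodule.span ℝ {v₀})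
    have h2 := finrank_span_singleton (K := ℝ) (v := v₀) (by
      rintro rfl
      exact h0C hv₀)
    rw [h2] at h1
    exact h1
  have hw : ∃ w ∈ B, w ∉ A₁ := by
    by_contra hcon
    push Not at hcon
    have h1 : B ≤ A₁ := hcon
    have h2 := Submodule.finrank_mono h1
    omega
  obtain ⟨w, hwB, hwA₁⟩ := hw
  have hmemA₁ : ∀ α ∈ A, ∀ c : ℝ, α + c • v₀ ∈ A₁ := by
    intro α hα c
    exact A₁.add_mem (Submodule.mem_sup_left hα)
      (A₁.smul_mem c (Submodule.mem_sup_right (Submodule.mem_span_singleton_self v₀)))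
  have hspan : ∀ x ∈ B, ∃ α ∈ A, ∃ s t : ℝ, x = α + (s • v₀ + t • w) := by
    have hlt1 : Module.finrank ℝ A < Module.finrank ℝ A₁ := by
      refine Submodule.finrank_lt_finrank_of_lt ?_
      refine lt_of_le_of_ne le_sup_left ?_
      intro h
      apply hv₀A
      rw [h]
      exact Submodule.mem_sup_right (Submodule.mem_span_singleton_self v₀)
    set A₂ : Submodule ℝ E := A₁ ⊔ Submodule.span ℝ {w} with hA₂
    have hlt2 : Module.finrank ℝ A₁ < Module.finrank ℝ A₂ := by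
      refine Submodule.finrank_lt_finrank_of_lt ?_
      refine lt_of_le_of_ne le_sup_left ?_
      intro h
      apply hwA₁
      rw [h]
      exact Submodule.mem_sup_right (Submodule.mem_span_singleton_self w)
    have hA₂B : A₂ ≤ B := by
      rw [hA₂, sup_le_iff]
      refine ⟨hA₁B, ?_⟩
      rw [Submodule.span_singleton_le_iff_mem]
      exact hwB
    have heq : A₂ = B := by
      refine Submodule.eq_of_le_of_finrank_le hA₂B ?_
      omega
    intro x hx
    rw [← heq, hA₂, Submodule.mem_sup] at hx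
    obtain ⟨y, hy, z, hz, rfl⟩ := hx
    rw [hA₁, Submodule.mem_sup] at hy
    obtain ⟨α, hα, z', hz', rfl⟩ := hy
    rw [Submodule.mem_span_singleton] at hz hz'
    obtain ⟨t, rfl⟩ := hz
    obtain ⟨s, rfl⟩ := hz'
    exact ⟨α, hα, s, t, by abel⟩
  -- the coordinates
  obtain ⟨T₀, hT₀, hT₀'⟩ := Submodule.exists_dual_map_eq_bot_of_notMem hwA₁ inferInstance
  have hT₀A : ∀ x ∈ A₁, T₀ x = 0 := by
    intro x hx
    have h : T₀ x ∈ A₁.map T₀ := Submodule.mem_map_of_mem hx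
    rw [hT₀'] at h
    exact (Submodule.mem_bot ℝ).1 h
  have hv₀A' : v₀ ∉ A ⊔ Submodule.span ℝ {w} := by
    intro h
    rw [Submodule.mem_sup] at h
    obtain ⟨α, hα, z, hz, hsum⟩ := h
    rw [Submodule.mem_span_singleton] at hz
    obtain ⟨t, rfl⟩ := hz
    by_cases ht : t = 0
    · rw [ht, zero_smul, add_zero] at hsum
      exact hv₀A (hsum ▸ hα)
    · apply hwA₁
      have h1 : w = (-(t⁻¹)) • α + t⁻¹ • v₀ := by
        rw [← hsum, smul_add, smul_smul, inv_mul_cancel₀ ht, one_smul, neg_smul]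
        abel
      rw [h1]
      exact hmemA₁ _ (A.smul_mem _ hα) _
  obtain ⟨S₀, hS₀, hS₀'⟩ := Submodule.exists_dual_map_eq_bot_of_notMem hv₀A' inferInstance
  have hS₀A : ∀ x ∈ A ⊔ Submodule.span ℝ {w}, S₀ x = 0 := by
    intro x hx
    have h : S₀ x ∈ (A ⊔ Submodule.span ℝ {w}).map S₀ := Submodule.mem_map_of_mem hx
    rw [hS₀'] at h
    exact (Submodule.mem_bot ℝ).1 h
  obtain ⟨S, hSA, hSv, hSw⟩ : ∃ S : E →ₗ[ℝ] ℝ, (∀ x ∈ A, S x = 0) ∧ S v₀ = 1 ∧ S w = 0 := by
    refine ⟨(S₀ v₀)⁻¹ • S₀, fun x hx => ?_, ?_, ?_⟩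
    · rw [LinearMap.smul_apply, hS₀A x (Submodule.mem_sup_left hx), smul_zero]
    · rw [LinearMap.smul_apply, smul_eq_mul, inv_mul_cancel₀ hS₀]
    · rw [LinearMap.smul_apply, hS₀A w (Submodule.mem_sup_right
        (Submodule.mem_span_singleton_self w)), smul_zero]
  obtain ⟨T, hTA, hTv, hTw⟩ : ∃ T : E →ₗ[ℝ] ℝ, (∀ x ∈ A, T x = 0) ∧ T v₀ = 0 ∧ T w = 1 := by
    refine ⟨(T₀ w)⁻¹ • T₀, fun x hx => ?_, ?_, ?_⟩
    · rw [LinearMap.smul_apply, hT₀A x (Submodule.mem_sup_left hx), smul_zero]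
    · rw [LinearMap.smul_apply, hT₀A v₀ (Submodule.mem_sup_right
        (Submodule.mem_span_singleton_self v₀)), smul_zero]
    · rw [LinearMap.smul_apply, smul_eq_mul, inv_mul_cancel₀ hT₀]
  have hrep : ∀ x ∈ B, ∃ α ∈ A, x = α + (S x • v₀ + T x • w) := by
    intro x hx
    obtain ⟨α, hα, s, t, rfl⟩ := hspan x hx
    refine ⟨α, hα, ?_⟩
    have h1 : S (α + (s • v₀ + t • w)) = s := by
      rw [map_add, map_add, map_smul, map_smul, hSA α hα, hSv, hSw]
      simp
    have h2 : T (α + (s • v₀ + t • w)) = t := by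
      rw [map_add, map_add, map_smul, map_smul, hTA α hα, hTv, hTw]
      simp
    rw [h1, h2]
  have hCA : ∀ x ∈ C, ∀ α ∈ A, α + x ∈ C := by
    intro x hx α hα
    have h1 := (hlin α (hAB hα)).1 hα x hx 1
    rw [one_smul, add_comm] at h1
    exact h1
  have hCA' : ∀ x, ∀ α ∈ A, α + x ∈ C ↔ x ∈ C := by
    intro x α hα
    constructor
    · intro h
      have h1 := hCA _ h (-α) (A.neg_mem hα)
      rwa [neg_add_cancel_left] at h1
    · intro h
      exact hCA x h α hα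
  obtain ⟨σ₁, hσ₁⟩ := sec_slice hU hCU hconv hscale hlin hv₀ hv₀A hwB
  obtain ⟨σ₂, hσ₂⟩ := sec_slice hU hCU hconv hscale hlin hv₀ hv₀A (B.neg_mem hwB)
  have hzero : ∀ s : ℝ, s • v₀ ∈ C ↔ 0 < s := by
    intro s
    constructor
    · intro h
      by_contra hcon
      push Not at hcon
      rcases hcon.eq_or_lt with h1 | h1
      · rw [h1, zero_smul] at h
        exact h0C h
      · have h2 := sec_add hconv hscale h (hscale v₀ hv₀ (-s) (by linarith))
        rw [← add_smul, add_neg_cancel, zero_smul] at h2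
        exact h0C h2
    · intro h
      exact hscale v₀ hv₀ s h
  have hpos : ∀ s t : ℝ, 0 < t → (s • v₀ + t • w ∈ C ↔ 0 < s - σ₁ * t) := by
    intro s t ht
    have h1 : s • v₀ + t • w ∈ C ↔ (s / t) • v₀ + w ∈ C := by
      constructor
      · intro h
        have h2 := hscale _ h t⁻¹ (by positivity)
        rw [smul_add, smul_smul, smul_smul, inv_mul_cancel₀ ht.ne', one_smul] at h2
        rwa [div_eq_inv_mul]
      · intro h
        have h2 := hscale _ h t ht
        rw [smul_add, smul_smul, mul_div_cancel₀ s ht.ne'] at h2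
        exact h2
    rw [h1, hσ₁, lt_div_iff₀ ht]
    constructor <;> intro h <;> linarith
  have hneg : ∀ s t : ℝ, t < 0 → (s • v₀ + t • w ∈ C ↔ 0 < s + σ₂ * t) := by
    intro s t ht
    have ht' : 0 < -t := by linarith
    have h1 : s • v₀ + t • w ∈ C ↔ (s / (-t)) • v₀ + -w ∈ C := by
      constructor
      · intro h
        have h2 := hscale _ h (-t)⁻¹ (by positivity)
        rw [smul_add, smul_smul, smul_smul] at h2
        have h3 : (-t)⁻¹ * t = -1 := by
          rw [inv_neg, neg_mul, inv_mul_cancel₀ ht.ne]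
        rw [h3, neg_smul, one_smul] at h2
        rwa [div_eq_inv_mul]
      · intro h
        have h2 := hscale _ h (-t) ht'
        rw [smul_add, smul_smul, mul_div_cancel₀ s ht'.ne', smul_neg, neg_smul, neg_neg] at h2
        exact h2
    rw [h1, hσ₂, lt_div_iff₀ ht']
    constructor <;> intro h <;> linarith
  have hsum0 : 0 ≤ σ₁ + σ₂ := by
    by_contra hcon
    push Not at hcon
    have h1 := (hσ₁ (σ₁ - (σ₁ + σ₂) / 2)).2 (by linarith)
    have h2 := (hσ₂ (σ₂ - (σ₁ + σ₂) / 2)).2 (by linarith)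
    have h3 := sec_add hconv hscale h1 h2
    have h4 : (σ₁ - (σ₁ + σ₂) / 2) • v₀ + w + ((σ₂ - (σ₁ + σ₂) / 2) • v₀ + -w) = (0 : ℝ) • v₀ := by
      have : (0 : ℝ) = (σ₁ - (σ₁ + σ₂) / 2) + (σ₂ - (σ₁ + σ₂) / 2) := by ring
      rw [this, add_smul]
      abel
    rw [h4, zero_smul] at h3
    exact h0C h3
  have hall : ∀ s t : ℝ, s • v₀ + t • w ∈ C ↔ 0 < s - σ₁ * t ∧ 0 < s + σ₂ * t := by
    intro s t
    rcases lt_trichotomy t 0 with ht | ht | ht
    · rw [hneg s t ht]
      constructor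
      · intro h
        refine ⟨?_, h⟩
        nlinarith [mul_nonneg hsum0 (neg_nonneg.2 ht.le)]
      · intro h
        exact h.2
    · rw [ht, zero_smul, add_zero, hzero]
      simp
    · rw [hpos s t ht]
      constructor
      · intro h
        refine ⟨h, ?_⟩
        nlinarith [mul_nonneg hsum0 ht.le]
      · intro h
        exact h.1
  have hsum : 0 < σ₁ + σ₂ := by
    rcases hsum0.eq_or_lt with h | h
    · exfalso
      have hσ : σ₂ = -σ₁ := by linarith
      have h1 : σ₁ • v₀ + w ∈ A := by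
        rw [hlin _ (B.add_mem (B.smul_mem _ hv₀B) hwB)]
        intro x hx t
        obtain ⟨α, hα, hx'⟩ := hrep x (hCB x hx)
        have h2 : S x • v₀ + T x • w ∈ C := by
          rw [← hCA' _ α hα, ← hx']
          exact hx
        rw [hall] at h2
        have h3 : x + t • (σ₁ • v₀ + w) =
            α + ((S x + t * σ₁) • v₀ + (T x + t) • w) := by
          conv_lhs => rw [hx']
          rw [smul_add, smul_smul, add_smul, add_smul]
          abel
        rw [h3, hCA' _ α hα, hall, hσ]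
        rw [hσ] at h2
        constructor <;> nlinarith [h2.1]
      apply hwA₁
      have h2 : w = (σ₁ • v₀ + w) + (-σ₁) • v₀ := by
        rw [neg_smul]
        abel
      rw [h2]
      exact hmemA₁ _ h1 _
    · exact h
  refine ⟨S - σ₁ • T, S + σ₂ • T, (σ₂ / (σ₁ + σ₂)) • v₀ + (-(1 / (σ₁ + σ₂))) • w,
    (σ₁ / (σ₁ + σ₂)) • v₀ + (1 / (σ₁ + σ₂)) • w, ?_, ?_, ?_, ?_, ?_, ?_, ?_, ?_⟩
  · exact B.add_mem (B.smul_mem _ hv₀B) (B.smul_mem _ hwB)
  · exact B.add_mem (B.smul_mem _ hv₀B) (B.smul_mem _ hwB)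
  · simp only [LinearMap.sub_apply, LinearMap.smul_apply, map_add, map_smul, hSv, hSw, hTv, hTw,
      smul_eq_mul]
    field_simp
    ring
  · simp only [LinearMap.add_apply, LinearMap.smul_apply, map_add, map_smul, hSv, hSw, hTv, hTw,
      smul_eq_mul]
    field_simp
    ring
  · simp only [LinearMap.sub_apply, LinearMap.smul_apply, map_add, map_smul, hSv, hSw, hTv, hTw,
      smul_eq_mul]
    field_simp
    ring
  · simp only [LinearMap.add_apply, LinearMap.smul_apply, map_add, map_smul, hSv, hSw, hTv, hTw,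
      smul_eq_mul]
    field_simp
    ring
  · intro x hx
    obtain ⟨α, hα, hx'⟩ := hrep x hx
    have h2 : x ∈ C ↔ S x • v₀ + T x • w ∈ C := by
      conv_lhs => rw [hx']
      exact hCA' _ α hα
    rw [h2, hall]
    simp only [LinearMap.sub_apply, LinearMap.add_apply, LinearMap.smul_apply, smul_eq_mul]
  · intro x hx
    simp only [LinearMap.sub_apply, LinearMap.add_apply, LinearMap.smul_apply, smul_eq_mul]
    constructor
    · intro h
      rw [hSA x h, hTA x h]
      simp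
    · rintro ⟨h1, h2⟩
      obtain ⟨α, hα, hx'⟩ := hrep x hx
      have h3 : (σ₁ + σ₂) * T x = 0 := by linarith
      have h4 : T x = 0 := by
        rcases mul_eq_zero.1 h3 with h | h
        · linarith
        · exact h
      have h5 : S x = 0 := by
        rw [h4] at h1
        linarith
      rw [h4, h5, zero_smul, zero_smul, add_zero, add_zero] at hx'
      rw [hx']
      exact hα

end SectorAux

theorem sector {E : Type*} [NormedAddCommGroup E] [NormedSpace ℝ E] [FiniteDimensional ℝ E]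
    (Γ : Subgroup (E ≃ᵃ[ℝ] E)) (A B : Submodule ℝ E) (hAB : A ≤ B)
    (hdim : Module.finrank ℝ B = Module.finrank ℝ A + 2)
    (hA : ∀ g ∈ Γ, ∀ v ∈ A, g.linear v ∈ A) (hB : ∀ g ∈ Γ, ∀ v ∈ B, g.linear v ∈ B)
    (hC : ConeType Γ A B) :
    ∃ H : Subgroup (E ≃ᵃ[ℝ] E), H ≤ Γ ∧ H.relIndex Γ ≠ 0 ∧
      ∃ L : Submodule ℝ E, A < L ∧ L < B ∧ ∀ g ∈ H, ∀ v ∈ L, g.linear v ∈ L := by
  obtain ⟨C, U, hU, hCU, hne, hconv, hscale, hlin, hinv⟩ := hC
  obtain ⟨F₁, F₂, u₁, u₂, hu₁, hu₂, h11, h21, h12, h22, hmem, hker⟩ :=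
    sec_main hAB hdim hU hCU hne hconv hscale hlin
  -- nonnegative entries
  have key : ∀ g ∈ Γ, ∀ x ∈ B, 0 ≤ F₁ x → 0 ≤ F₂ x → 0 ≤ F₁ (g.linear x) ∧ 0 ≤ F₂ (g.linear x) := by
    intro g hg x hx hx1 hx2
    have hpos : ∀ ε : ℝ, 0 < ε → 0 < F₁ (g.linear x) + ε * F₁ (g.linear (u₁ + u₂)) ∧
        0 < F₂ (g.linear x) + ε * F₂ (g.linear (u₁ + u₂)) := by
      intro ε hε
      have hxB : x + ε • (u₁ + u₂) ∈ B := B.add_mem hx (B.smul_mem _ (B.add_mem hu₁ hu₂))
      have h1 : x + ε • (u₁ + u₂) ∈ C := by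
        rw [hmem _ hxB]
        simp only [map_add, map_smul, h11, h12, h21, h22, smul_eq_mul]
        constructor <;> linarith
      have h2 := hinv g hg _ h1
      rw [hmem _ (hB g hg _ hxB)] at h2
      simp only [map_add, map_smul, smul_eq_mul] at h2
      simp only [map_add]
      exact h2
    constructor
    · by_contra hcon
      push Not at hcon
      have hc : 0 < |F₁ (g.linear (u₁ + u₂))| + 1 := by positivity
      have h3 := (hpos (-(F₁ (g.linear x)) / (|F₁ (g.linear (u₁ + u₂))| + 1))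
        (div_pos (by linarith) hc)).1
      have h4 : -(F₁ (g.linear x)) / (|F₁ (g.linear (u₁ + u₂))| + 1) *
          F₁ (g.linear (u₁ + u₂)) ≤ -(F₁ (g.linear x)) := by
        rw [div_mul_eq_mul_div, div_le_iff₀ hc]
        have h5 := le_abs_self (F₁ (g.linear (u₁ + u₂)))
        nlinarith
      linarith
    · by_contra hcon
      push Not at hcon
      have hc : 0 < |F₂ (g.linear (u₁ + u₂))| + 1 := by positivity
      have h3 := (hpos (-(F₂ (g.linear x)) / (|F₂ (g.linear (u₁ + u₂))| + 1))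
        (div_pos (by linarith) hc)).2
      have h4 : -(F₂ (g.linear x)) / (|F₂ (g.linear (u₁ + u₂))| + 1) *
          F₂ (g.linear (u₁ + u₂)) ≤ -(F₂ (g.linear x)) := by
        rw [div_mul_eq_mul_div, div_le_iff₀ hc]
        have h5 := le_abs_self (F₂ (g.linear (u₁ + u₂)))
        nlinarith
      linarith
  -- representation of vectors
  have hrep : ∀ x ∈ B, ∃ α ∈ A, x = α + (F₁ x • u₁ + F₂ x • u₂) := by
    intro x hx
    refine ⟨x - (F₁ x • u₁ + F₂ x • u₂), ?_, by abel⟩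
    rw [hker _ (B.sub_mem hx (B.add_mem (B.smul_mem _ hu₁) (B.smul_mem _ hu₂)))]
    simp only [map_sub, map_add, map_smul, h11, h12, h21, h22, smul_eq_mul]
    constructor <;> ring
  have hFA₁ : ∀ α ∈ A, F₁ α = 0 := fun α hα => ((hker α (hAB hα)).1 hα).1
  have hFA₂ : ∀ α ∈ A, F₂ α = 0 := fun α hα => ((hker α (hAB hα)).1 hα).2
  have hcomp₁ : ∀ g ∈ Γ, ∀ x ∈ B, F₁ (g.linear x) =
      F₁ x * F₁ (g.linear u₁) + F₂ x * F₁ (g.linear u₂) := by
    intro g hg x hx
    obtain ⟨α, hα, hx'⟩ := hrep x hx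
    conv_lhs => rw [hx']
    simp only [map_add, map_smul, smul_eq_mul, hFA₁ _ (hA g hg α hα), zero_add]
  have hcomp₂ : ∀ g ∈ Γ, ∀ x ∈ B, F₂ (g.linear x) =
      F₁ x * F₂ (g.linear u₁) + F₂ x * F₂ (g.linear u₂) := by
    intro g hg x hx
    obtain ⟨α, hα, hx'⟩ := hrep x hx
    conv_lhs => rw [hx']
    simp only [map_add, map_smul, smul_eq_mul, hFA₂ _ (hA g hg α hα), zero_add]
  have hlm : ∀ g h : E ≃ᵃ[ℝ] E, ∀ x, (g * h).linear x = g.linear (h.linear x) := fun g h x => rfl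
  have hinvl : ∀ g : E ≃ᵃ[ℝ] E, ∀ x, g.linear ((g⁻¹).linear x) = x := by
    intro g x
    rw [← hlm, mul_inv_cancel]
    rfl
  -- each element preserves the two lines or exchanges them
  have hdich : ∀ g ∈ Γ, (F₁ (g.linear u₂) = 0 ∧ F₂ (g.linear u₁) = 0 ∧
      F₁ ((g⁻¹).linear u₂) = 0) ∨
      (F₁ (g.linear u₁) = 0 ∧ F₂ (g.linear u₂) = 0 ∧ F₁ (g.linear u₂) ≠ 0) := by
    intro g hg
    have hg' : g⁻¹ ∈ Γ := Γ.inv_mem hg
    obtain ⟨m11, m21⟩ := key g hg u₁ hu₁ (by rw [h11]; norm_num) (by rw [h21])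
    obtain ⟨m12, m22⟩ := key g hg u₂ hu₂ (by rw [h12]) (by rw [h22]; norm_num)
    obtain ⟨n11, n21⟩ := key g⁻¹ hg' u₁ hu₁ (by rw [h11]; norm_num) (by rw [h21])
    obtain ⟨n12, n22⟩ := key g⁻¹ hg' u₂ hu₂ (by rw [h12]) (by rw [h22]; norm_num)
    have e11 := hcomp₁ g hg _ (hB g⁻¹ hg' u₁ hu₁)
    have e12 := hcomp₁ g hg _ (hB g⁻¹ hg' u₂ hu₂)
    have e21 := hcomp₂ g hg _ (hB g⁻¹ hg' u₁ hu₁)
    have e22 := hcomp₂ g hg _ (hB g⁻¹ hg' u₂ hu₂)
    rw [hinvl] at e11 e12 e21 e22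
    rw [h11] at e11
    rw [h12] at e12
    rw [h21] at e21
    rw [h22] at e22
    set a := F₁ (g.linear u₁)
    set b := F₁ (g.linear u₂)
    set c := F₂ (g.linear u₁)
    set d := F₂ (g.linear u₂)
    set a' := F₁ ((g⁻¹).linear u₁)
    set b' := F₁ ((g⁻¹).linear u₂)
    set c' := F₂ ((g⁻¹).linear u₁)
    set d' := F₂ ((g⁻¹).linear u₂)
    have p1 : b' * a = 0 := by nlinarith [mul_nonneg n12 m11, mul_nonneg n22 m12]
    have p2 : d' * b = 0 := by nlinarith [mul_nonneg n12 m11, mul_nonneg n22 m12]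
    have p3 : a' * c = 0 := by nlinarith [mul_nonneg n11 m21, mul_nonneg n21 m22]
    have p4 : c' * d = 0 := by nlinarith [mul_nonneg n11 m21, mul_nonneg n21 m22]
    by_cases ha : a = 0
    · right
      have q1 : c' * b = 1 := by rw [ha] at e11; linarith
      have q2 : c' ≠ 0 := by
        intro h
        rw [h] at q1
        norm_num at q1
      have q3 : b ≠ 0 := by
        intro h
        rw [h] at q1
        norm_num at q1
      refine ⟨ha, ?_, q3⟩
      rcases mul_eq_zero.1 p4 with h | h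
      · exact absurd h q2
      · exact h
    · left
      have q1 : b' = 0 := by
        rcases mul_eq_zero.1 p1 with h | h
        · exact h
        · exact absurd h ha
      have q2 : d' * d = 1 := by rw [q1] at e22; linarith
      have q3 : d' ≠ 0 := by
        intro h
        rw [h] at q2
        norm_num at q2
      have q4 : d ≠ 0 := by
        intro h
        rw [h] at q2
        norm_num at q2
      have q5 : b = 0 := by
        rcases mul_eq_zero.1 p2 with h | h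
        · exact absurd h q3
        · exact h
      have q6 : c' = 0 := by
        rcases mul_eq_zero.1 p4 with h | h
        · exact h
        · exact absurd h q4
      have q7 : a' * a = 1 := by rw [q6] at e11; linarith
      have q8 : a' ≠ 0 := by
        intro h
        rw [h] at q7
        norm_num at q7
      refine ⟨q5, ?_, q1⟩
      rcases mul_eq_zero.1 p3 with h | h
      · exact absurd h q8
      · exact h
  let H : Subgroup (E ≃ᵃ[ℝ] E) :=
    { carrier := {g | g ∈ Γ ∧ F₁ (g.linear u₂) = 0}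
      one_mem' := ⟨Γ.one_mem, h12⟩
      mul_mem' := by
        rintro g h ⟨hg, hg'⟩ ⟨hh, hh'⟩
        refine ⟨Γ.mul_mem hg hh, ?_⟩
        change F₁ (g.linear (h.linear u₂)) = 0
        rw [hcomp₁ g hg _ (hB h hh u₂ hu₂), hh', hg', zero_mul, mul_zero, add_zero]
      inv_mem' := by
        rintro g ⟨hg, hg'⟩
        refine ⟨Γ.inv_mem hg, ?_⟩
        rcases hdich g hg with h | h
        · exact h.2.2
        · exact absurd hg' h.2.2 }
  have hHmem : ∀ g, g ∈ H ↔ g ∈ Γ ∧ F₁ (g.linear u₂) = 0 := fun g => Iff.rfl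
  have hHΓ : H ≤ Γ := fun g hg => ((hHmem g).1 hg).1
  refine ⟨H, hHΓ, ?_, B ⊓ LinearMap.ker F₁, ?_, ?_, ?_⟩
  · by_cases hcase : Γ ≤ H
    · have h1 : H = Γ := le_antisymm hHΓ hcase
      rw [h1, Subgroup.relIndex_self]
      norm_num
    · have h1 : ∃ a ∈ Γ, a ∉ H := by
        by_contra hcon
        push Not at hcon
        exact hcase hcon
      obtain ⟨a, ha, haH⟩ := h1
      have hsw : ∀ g ∈ Γ, g ∉ H → F₁ (g.linear u₁) = 0 ∧ F₂ (g.linear u₂) = 0 ∧
          F₁ (g.linear u₂) ≠ 0 := by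
        intro g hg hgH
        rcases hdich g hg with h | h
        · exact absurd ((hHmem g).2 ⟨hg, h.1⟩) hgH
        · exact h
      have h2 : H.relIndex Γ = 2 := by
        rw [Subgroup.relIndex_eq_two_iff]
        refine ⟨a, ha, fun b hb => ?_⟩
        by_cases hbH : b ∈ H
        · right
          refine ⟨hbH, fun hba => haH ?_⟩
          have h3 := H.mul_mem (H.inv_mem hbH) hba
          rwa [inv_mul_cancel_left] at h3
        · left
          refine ⟨?_, hbH⟩
          rw [hHmem]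
          refine ⟨Γ.mul_mem hb ha, ?_⟩
          change F₁ (b.linear (a.linear u₂)) = 0
          rw [hcomp₁ b hb _ (hB a ha u₂ hu₂), (hsw b hb hbH).1, (hsw a ha haH).2.1, mul_zero,
            zero_mul, add_zero]
      rw [h2]
      norm_num
  · refine lt_of_le_of_ne ?_ ?_
    · intro α hα
      exact ⟨hAB hα, hFA₁ α hα⟩
    · intro h
      have h1 : u₂ ∈ A := by
        rw [h]
        exact ⟨hu₂, h12⟩
      have h2 := hFA₂ u₂ h1
      rw [h22] at h2
      norm_num at h2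
  · refine lt_of_le_of_ne inf_le_left ?_
    intro h
    have h1 : u₁ ∈ B ⊓ LinearMap.ker F₁ := by
      rw [h]
      exact hu₁
    have h2 : F₁ u₁ = 0 := h1.2
    rw [h11] at h2
    norm_num at h2
  · rintro g hg v ⟨hvB, hv⟩
    obtain ⟨hgΓ, hg'⟩ := (hHmem g).1 hg
    have hv' : F₁ v = 0 := hv
    refine ⟨hB g hgΓ v hvB, ?_⟩
    change F₁ (g.linear v) = 0
    rw [hcomp₁ g hgΓ v hvB, hv', hg', zero_mul, mul_zero, add_zero]

end Pool.AF
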