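import Pool.Agent.Helper94.AM.RecNe
import Pool.Agent.Helper94.AM.Sector

open Set Finset

set_option linter.unusedSectionVars false

namespace Pool.AF

open Pool.SV

/-! ## AM-10 PLANEL: an invariant line if `dim X / V = 2`

If the span of `Rec X` is not `E` take `L = span (Rec X)` (it contains `V`, and is larger by
`rec_ne`), `H = Γ`. Otherwise `RecInt X` (see `recInt_props` in AF/RecI.lean) is an open convex
cone with lineality space `V` (`RecInt X + V ⊆ RecInt X`; if `x + t v ∈ RecInt X ⊆ Rec X` for all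
`t` then `v` and `-v` are in `Rec X`, closed cone, so `v ∈ V`), which gives `ConeType Γ V ⊤`:
apply `sector`. -/

namespace PlaneLAux

theorem rec_of_line {E : Type*} [NormedAddCommGroup E] [NormedSpace ℝ E] [FiniteDimensional ℝ E]
    (D : Geo E) {u v : E}
    (h : ∀ s : ℝ, 0 < s → u + s • v ∈ Rec D.X) : v ∈ Rec D.X := by
  refine RecIAux.rec_of_closure D.isOpen D.convex fun x hx t ht => ?_
  have hinv : Filter.Tendsto (fun n : ℕ => ((n : ℝ) + 1)⁻¹) Filter.atTop (nhds 0) := by
    have := tendsto_one_div_add_atTop_nhds_zero_nat (𝕜 := ℝ)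
    simpa [one_div] using this
  have hlim : Filter.Tendsto (fun n : ℕ => x + t • v + (t * ((n : ℝ) + 1)⁻¹) • u) Filter.atTop
      (nhds (x + t • v + (t * 0) • u)) :=
    tendsto_const_nhds.add ((hinv.const_mul t).smul_const u)
  rw [mul_zero, zero_smul, add_zero] at hlim
  refine mem_closure_of_tendsto hlim (Filter.Eventually.of_forall fun n => ?_)
  have hn : (0 : ℝ) < (n : ℝ) + 1 := by positivity
  have h1 := h _ hn x hx (t * ((n : ℝ) + 1)⁻¹) (by positivity)
  have h2 : x + t • v + (t * ((n : ℝ) + 1)⁻¹) • u =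
      x + (t * ((n : ℝ) + 1)⁻¹) • (u + ((n : ℝ) + 1) • v) := by
    rw [smul_add, smul_smul, mul_assoc, inv_mul_cancel₀ hn.ne', mul_one]
    abel
  show x + t • v + (t * ((n : ℝ) + 1)⁻¹) • u ∈ D.X
  rw [h2]
  exact h1

theorem lin_of_rec {E : Type*} [NormedAddCommGroup E] [NormedSpace ℝ E] (D : Geo E) {v : E}
    (h : v ∈ Rec D.X) (h' : -v ∈ Rec D.X) : v ∈ linSub D := by
  intro x hx t
  rcases le_total 0 t with ht | ht
  · exact h x hx t ht
  · have h1 := h' x hx (-t) (neg_nonneg.2 ht)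
    rwa [smul_neg, neg_smul, neg_neg] at h1

theorem coneType {E : Type*} [NormedAddCommGroup E] [NormedSpace ℝ E] [FiniteDimensional ℝ E]
    (D : Geo E) (hs : Submodule.span ℝ (Rec D.X) = ⊤) : ConeType D.Γ (linSub D) ⊤ := by
  obtain ⟨hconv, hne, hinv, hsub, hlin⟩ := recInt_props D
  refine ⟨RecInt D.X, RecInt D.X, ?_, by simp, hne, hconv, ?_, ?_, fun g hg x hx =>
    hinv ⟨g, hg⟩ x hx⟩
  · rw [Metric.isOpen_iff]
    rintro u ⟨δ, hδ, hu⟩
    refine ⟨δ / 2, by positivity, fun y hy => ⟨δ / 2, by positivity, fun w _ hw => ?_⟩⟩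
    rw [Metric.mem_ball, dist_eq_norm] at hy
    have h1 : y + w = u + ((y - u) + w) := by abel
    rw [h1]
    refine hu _ (by rw [hs]; trivial) ((norm_add_le _ _).trans ?_)
    linarith
  · rintro u ⟨δ, hδ, hu⟩ t ht
    refine ⟨t * δ, by positivity, fun w _ hw => ?_⟩
    have h1 : t • u + w = t • (u + t⁻¹ • w) := by
      rw [smul_add, smul_smul, mul_inv_cancel₀ ht.ne', one_smul]
    rw [h1]
    refine RecIAux.rec_smul (hu _ (by rw [hs]; trivial) ?_) ht.le
    rw [norm_smul, norm_inv, Real.norm_eq_abs, abs_of_pos ht, inv_mul_le_iff₀ ht]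
    exact hw
  · intro v _
    constructor
    · rintro hv u ⟨δ, hδ, hu⟩ t
      refine ⟨δ, hδ, fun w hw hwn => ?_⟩
      have h1 : u + t • v + w = (u + w) + t • v := by abel
      rw [h1]
      exact RecIAux.rec_add (hu w hw hwn) (hlin ((linSub D).smul_mem t hv))
    · intro h
      obtain ⟨u, hu⟩ := hne
      refine lin_of_rec D (rec_of_line D (u := u) fun s _ => hsub (h u hu s))
        (rec_of_line D (u := u) fun s _ => ?_)
      have h1 := hsub (h u hu (-s))
      rwa [neg_smul, ← smul_neg] at h1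

end PlaneLAux

theorem plane_line {E : Type*} [NormedAddCommGroup E] [NormedSpace ℝ E] [FiniteDimensional ℝ E]
    (D : Geo E)
    (hcc : ∃ K ⊆ D.X, IsCompact K ∧ ∀ x ∈ D.X, ∃ g ∈ D.Γ, g x ∈ K) (hX : D.X ≠ Set.univ)
    (hdim : Module.finrank ℝ E = Module.finrank ℝ (linSub D) + 2) :
    ∃ H : Subgroup D.Γ, H.FiniteIndex ∧ ∃ L : Submodule ℝ E, linSub D < L ∧ L < ⊤ ∧
      ∀ g ∈ H, ∀ v ∈ L, g.1.linear v ∈ L := by
  by_cases hs : Submodule.span ℝ (Rec D.X) = ⊤
  · obtain ⟨H, -, hind, L, hAL, hLB, hinv⟩ := sector D.Γ (linSub D) ⊤ le_top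
      (by rw [finrank_top]; exact hdim) (fun g hg v hv => lin_inv D g hg v hv)
      (fun _ _ _ _ => trivial) (PlaneLAux.coneType D hs)
    exact ⟨H.subgroupOf D.Γ, ⟨hind⟩, L, hAL, hLB, fun g hg v hv => hinv g.1 hg v hv⟩
  · have hle : linSub D ≤ Submodule.span ℝ (Rec D.X) := fun v hv =>
      Submodule.subset_span (fun x hx t _ => hv x hx t)
    refine ⟨⊤, inferInstance, Submodule.span ℝ (Rec D.X), lt_of_le_of_ne hle ?_,
      lt_top_iff_ne_top.2 hs, ?_⟩
    · intro heq
      refine rec_ne D hcc hX (Set.Subset.antisymm (fun v hv x hx t _ => hv x hx t) ?_)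
      rw [heq]
      exact Submodule.subset_span
    · intro g _ v hv
      have h1 : Submodule.span ℝ (Rec D.X) ≤
          (Submodule.span ℝ (Rec D.X)).comap (g.1.linear : E →ₗ[ℝ] E) := by
        rw [Submodule.span_le]
        intro r hr
        exact Submodule.subset_span (RecIAux.rec_inv D g.2 hr)
      exact h1 hv

end Pool.AF
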