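import Pool.Agent.Helper94.AM.Defs

open Set Finset

set_option linter.unusedSectionVars false

namespace Pool.AF

open Pool.SV

/-! ## AM-11 PLANES: the second derived group acts trivially on `X / V` if `dim X / V = 2` and
there is an invariant line

The commutator subgroup `Γ'` acts trivially on `E / L` and on `L / V` (one-dimensional), so
`g - 1` maps `E` to `L` and `L` to `V` for `g ∈ Γ'`, the linear parts of two elements of `Γ'`
commute modulo `V`, and `Γ''` acts trivially on `E / V` (linear part). So `δ x - x` is constant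
modulo `V` for `δ ∈ Γ''`, equal to `τ`; `x + n τ ∈ X` for all `x ∈ X` and integers `n`, so by
convexity `x + t τ ∈ X` for all real `t`, and `τ ∈ V`. -/

/-- Two maps preserving two subspaces of relative dimension one commute on the quotient. -/
theorem plane_comm {E : Type*} [AddCommGroup E] [Module ℝ E] [FiniteDimensional ℝ E]
    (U W : Submodule ℝ E) (hUW : U < W) (hd : Module.finrank ℝ W = Module.finrank ℝ U + 1)
    (A B : E →ₗ[ℝ] E) (hA : ∀ v ∈ U, A v ∈ U) (hB : ∀ v ∈ U, B v ∈ U)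
    (hA' : ∀ v ∈ W, A v ∈ W) (hB' : ∀ v ∈ W, B v ∈ W) (v : E) (hv : v ∈ W) :
    A (B v) - B (A v) ∈ U := by
  obtain ⟨w, hw, hwU⟩ := SetLike.exists_of_lt hUW
  have hle : U ⊔ Submodule.span ℝ {w} ≤ W := by
    rw [sup_le_iff]
    exact ⟨hUW.le, by rwa [Submodule.span_singleton_le_iff_mem]⟩
  have hlt : U < U ⊔ Submodule.span ℝ {w} := by
    refine lt_of_le_of_ne le_sup_left fun h => hwU ?_
    rw [h]
    exact Submodule.mem_sup_right (Submodule.mem_span_singleton_self w)
  have h1 := Submodule.finrank_lt_finrank_of_lt hlt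
  have heq : U ⊔ Submodule.span ℝ {w} = W :=
    Submodule.eq_of_le_of_finrank_le hle (by omega)
  have hdec : ∀ y ∈ W, ∃ c : ℝ, y - c • w ∈ U := by
    intro y hy
    rw [← heq] at hy
    obtain ⟨u, hu, z, hz, rfl⟩ := Submodule.mem_sup.1 hy
    obtain ⟨c, rfl⟩ := Submodule.mem_span_singleton.1 hz
    exact ⟨c, by simpa using hu⟩
  obtain ⟨a, ha⟩ := hdec _ (hA' w hw)
  obtain ⟨b, hb⟩ := hdec _ (hB' w hw)
  obtain ⟨c, hc⟩ := hdec v hv
  have e1 : A (B v) - B (A v) = A (B (v - c • w)) - B (A (v - c • w))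
      + c • (A (B w - b • w) - B (A w - a • w) + b • (A w - a • w) - a • (B w - b • w)) := by
    simp only [map_sub, map_smul, smul_sub, smul_add, smul_smul]
    rw [mul_comm b a]
    module
  rw [e1]
  refine U.add_mem (U.sub_mem (hA _ (hB _ hc)) (hB _ (hA _ hc))) (U.smul_mem _ ?_)
  exact U.sub_mem (U.add_mem (U.sub_mem (hA _ hb) (hB _ ha)) (U.smul_mem _ ha)) (U.smul_mem _ hb)

/-- The elements whose linear part acts trivially on `W / U`. -/
def trivSub {E : Type*} [NormedAddCommGroup E] [NormedSpace ℝ E] (D : Geo E)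
    (U W : Submodule ℝ E) (hW : ∀ g ∈ D.Γ, ∀ v ∈ W, g.linear v ∈ W) : Subgroup D.Γ where
  carrier := {g | ∀ v ∈ W, g.1.linear v - v ∈ U}
  one_mem' := by
    intro v _
    change v - v ∈ U
    rw [sub_self]
    exact U.zero_mem
  mul_mem' := by
    intro a b ha hb v hv
    have h1 := U.add_mem (ha _ (hW b.1 b.2 v hv)) (hb v hv)
    rw [sub_add_sub_cancel] at h1
    exact h1
  inv_mem' := by
    intro a ha v hv
    have h1 := ha ((a⁻¹).1.linear v) (hW (a⁻¹).1 (a⁻¹).2 v hv)
    have h2 : a.1.linear ((a⁻¹).1.linear v) = v := a.1.linear.apply_symm_apply v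
    rw [h2] at h1
    rw [← neg_sub]
    exact U.neg_mem h1

theorem plane_solv {E : Type*} [NormedAddCommGroup E] [NormedSpace ℝ E] [FiniteDimensional ℝ E]
    (D : Geo E) (L : Submodule ℝ E) (hL1 : linSub D < L) (hL2 : L < ⊤)
    (hdim : Module.finrank ℝ E = Module.finrank ℝ (linSub D) + 2)
    (hinv : ∀ g ∈ D.Γ, ∀ v ∈ L, g.linear v ∈ L) :
    derivedSeries D.Γ 2 ≤ modSub D (linSub D) := by
  have hV : ∀ g ∈ D.Γ, ∀ v ∈ linSub D, g.linear v ∈ linSub D := fun g hg v hv => lin_inv D g hg v hv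
  have hT : ∀ g ∈ D.Γ, ∀ v ∈ (⊤ : Submodule ℝ E), g.linear v ∈ (⊤ : Submodule ℝ E) :=
    fun _ _ _ _ => Submodule.mem_top
  have d1 := Submodule.finrank_lt_finrank_of_lt hL1
  have d2 := Submodule.finrank_lt_finrank_of_lt hL2
  rw [finrank_top] at d2
  have e1 : Module.finrank ℝ L = Module.finrank ℝ (linSub D) + 1 := by omega
  have e2 : Module.finrank ℝ (⊤ : Submodule ℝ E) = Module.finrank ℝ L + 1 := by
    rw [finrank_top]
    omega
  -- the linear part of a commutator
  have hlin : ∀ (g h : D.Γ) (v : E), (g * h * g⁻¹ * h⁻¹).1.linear v - v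
      = g.1.linear (h.1.linear ((g⁻¹).1.linear ((h⁻¹).1.linear v)))
        - h.1.linear (g.1.linear ((g⁻¹).1.linear ((h⁻¹).1.linear v))) := by
    intro g h v
    have h1 : g.1.linear ((g⁻¹).1.linear ((h⁻¹).1.linear v)) = (h⁻¹).1.linear v :=
      g.1.linear.apply_symm_apply _
    have h2 : h.1.linear ((h⁻¹).1.linear v) = v := h.1.linear.apply_symm_apply _
    rw [h1, h2]
    rfl
  have s1 : derivedSeries D.Γ 1 ≤ trivSub D L ⊤ hT ⊓ trivSub D (linSub D) L hinv := by
    rw [derivedSeries_succ, Subgroup.commutator_le]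
    intro g _ h _
    rw [commutatorElement_def]
    refine ⟨fun v hv => ?_, fun v hv => ?_⟩
    · rw [hlin]
      exact plane_comm L ⊤ hL2 e2 (g.1.linear : E →ₗ[ℝ] E) (h.1.linear : E →ₗ[ℝ] E)
        (fun v hv => hinv _ g.2 v hv) (fun v hv => hinv _ h.2 v hv)
        (fun v hv => Submodule.mem_top) (fun v hv => Submodule.mem_top) _ Submodule.mem_top
    · rw [hlin]
      exact plane_comm (linSub D) L hL1 e1 (g.1.linear : E →ₗ[ℝ] E) (h.1.linear : E →ₗ[ℝ] E)
        (fun v hv => hV _ g.2 v hv) (fun v hv => hV _ h.2 v hv)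
        (fun v hv => hinv _ g.2 v hv) (fun v hv => hinv _ h.2 v hv) _
        (hinv _ (g⁻¹).2 _ (hinv _ (h⁻¹).2 _ hv))
  have s2 : derivedSeries D.Γ 2 ≤ trivSub D (linSub D) ⊤ hT := by
    rw [derivedSeries_succ, Subgroup.commutator_le]
    intro g hg h hh v hv
    rw [commutatorElement_def]
    obtain ⟨g1, g2⟩ := s1 hg
    obtain ⟨h1, h2⟩ := s1 hh
    rw [hlin]
    set w := (g⁻¹).1.linear ((h⁻¹).1.linear v)
    have a1 := g2 _ (h1 w Submodule.mem_top)
    have a2 := h2 _ (g1 w Submodule.mem_top)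
    have a3 := (linSub D).sub_mem a1 a2
    convert a3 using 1
    simp only [map_sub]
    abel
  intro δ hδ
  have hδ2 := s2 hδ
  obtain ⟨x₀, hx₀⟩ := D.nonempty
  have hdiff : ∀ x y : E, (δ.1 x - x) - (δ.1 y - y) ∈ linSub D := by
    intro x y
    have := hδ2 (x - y) Submodule.mem_top
    convert this using 1
    rw [aff_eq' δ.1 x, aff_eq' δ.1 y, map_sub]
    abel
  set τ := δ.1 x₀ - x₀ with hτ
  have hadd : ∀ v ∈ linSub D, ∀ x ∈ D.X, x + v ∈ D.X := by
    intro v hv x hx
    have := hv x hx 1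
    rwa [one_smul] at this
  have hp : ∀ x ∈ D.X, x + τ ∈ D.X := by
    intro x hx
    have h1 := hadd _ (hdiff x₀ x) _ (D.inv δ.1 δ.2 x hx)
    have h2 : δ.1 x + (δ.1 x₀ - x₀ - (δ.1 x - x)) = x + τ := by
      rw [hτ]
      abel
    rwa [h2] at h1
  have hm : ∀ x ∈ D.X, x - τ ∈ D.X := by
    intro x hx
    have h0 := D.inv (δ⁻¹).1 (δ⁻¹).2 x hx
    have h1 := hadd _ (hdiff ((δ⁻¹).1 x) x₀) _ h0
    have h3 : δ.1 ((δ⁻¹).1 x) = x := δ.1.apply_symm_apply x
    rw [h3] at h1
    have h2 : (δ⁻¹).1 x + (x - (δ⁻¹).1 x - (δ.1 x₀ - x₀)) = x - τ := by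
      rw [hτ]
      abel
    rwa [h2] at h1
  have hpn : ∀ n : ℕ, ∀ x ∈ D.X, x + (n : ℝ) • τ ∈ D.X := by
    intro n
    induction n with
    | zero =>
      intro x hx
      simpa using hx
    | succ n ih =>
      intro x hx
      have := hp _ (ih x hx)
      rw [Nat.cast_succ, add_smul, one_smul, ← add_assoc]
      exact this
  have hmn : ∀ n : ℕ, ∀ x ∈ D.X, x - (n : ℝ) • τ ∈ D.X := by
    intro n
    induction n with
    | zero =>
      intro x hx
      simpa using hx
    | succ n ih =>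
      intro x hx
      have := hm _ (ih x hx)
      rw [Nat.cast_succ, add_smul, one_smul, ← sub_sub]
      exact this
  have hτV : τ ∈ linSub D := by
    intro x hx t
    obtain ⟨n, hn⟩ := exists_nat_gt |t|
    have hn0 : (0 : ℝ) < n := (abs_nonneg t).trans_lt hn
    have ht := abs_lt.1 hn
    have h1 := hpn n x hx
    have h2 := hmn n x hx
    have h3 := D.convex h1 h2 (a := (n + t) / (2 * n)) (b := (n - t) / (2 * n))
      (div_nonneg (by linarith [ht.1]) (by positivity))
      (div_nonneg (by linarith [ht.2]) (by positivity))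
      (by field_simp; ring)
    convert h3 using 1
    have h4 : (n + t) / (2 * n) + (n - t) / (2 * n) = (1 : ℝ) := by field_simp; ring
    have h5 : (n + t) / (2 * n) * (n : ℝ) - (n - t) / (2 * n) * (n : ℝ) = t := by field_simp; ring
    clear_value τ
    calc x + t • τ = (((n + t) / (2 * n) + (n - t) / (2 * n) : ℝ)) • x
          + ((n + t) / (2 * n) * (n : ℝ) - (n - t) / (2 * n) * (n : ℝ)) • τ := by
            rw [h4, h5, one_smul]
      _ = _ := by module
  intro x hx
  have h1 := (linSub D).add_mem (hdiff x x₀) hτV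
  rwa [sub_add_cancel] at h1

end Pool.AF
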