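import Pool.Agent.Helper94.AM.Four
import Pool.Agent.Helper94.AM.PlaneL
import Pool.Agent.Helper94.AM.PlaneS

open Set Finset

set_option linter.unusedSectionVars false

namespace Pool.AF

open Pool.SV
open scoped commutatorElement

section

variable {E : Type*} [NormedAddCommGroup E] [NormedSpace ℝ E] [FiniteDimensional ℝ E]

theorem nontriv (D : Geo E) (hpos : 0 < Module.finrank ℝ E)
    (hcc : ∃ K ⊆ D.X, IsCompact K ∧ ∀ x ∈ D.X, ∃ g ∈ D.Γ, g x ∈ K) :
    (⊤ : Subgroup D.Γ) ≠ ⊥ := by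
  obtain ⟨g, hg⟩ := exists_ne_one D hpos hcc
  intro h
  apply hg
  have : g ∈ (⊤ : Subgroup D.Γ) := Subgroup.mem_top _
  rwa [h, Subgroup.mem_bot] at this

/-- A solvable group. -/
theorem vanish_of_isSolvable (D : Geo E) (hpos : 0 < Module.finrank ℝ E)
    (hcc : ∃ K ⊆ D.X, IsCompact K ∧ ∀ x ∈ D.X, ∃ g ∈ D.Γ, g x ∈ K) (n : ℕ)
    (h : derivedSeries D.Γ n = ⊥) : Vanish D := by
  have h1 : Group.IsSolvable D.Γ := ⟨⟨n, h⟩⟩
  have h2 : Group.IsSolvable (⊤ : Subgroup D.Γ) := inferInstance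
  exact vanish_of_solvable D hpos ⊤ (nontriv D hpos hcc) hcc

theorem vanish_codim_one (D : Geo E) (hpos : 0 < Module.finrank ℝ E)
    (hcc : ∃ K ⊆ D.X, IsCompact K ∧ ∀ x ∈ D.X, ∃ g ∈ D.Γ, g x ∈ K) (hX : D.X ≠ Set.univ)
    (h4 : Module.finrank ℝ (linSub D) ≤ 4)
    (hdim : Module.finrank ℝ E = Module.finrank ℝ (linSub D) + 1) : Vanish D := by
  by_cases hne : modSub D (linSub D) = ⊥
  · refine vanish_of_isSolvable D hpos hcc 1 ?_
    rw [derivedSeries_one, eq_bot_iff, ← hne]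
    intro δ hδ x hx
    exact comm_mod D hX hdim δ hδ x hx
  · exact vanish_le_four D hpos hcc hX h4 hne

theorem vanish_codim_two (D : Geo E) (hpos : 0 < Module.finrank ℝ E)
    (hcc : ∃ K ⊆ D.X, IsCompact K ∧ ∀ x ∈ D.X, ∃ g ∈ D.Γ, g x ∈ K) (hX : D.X ≠ Set.univ)
    (h4 : Module.finrank ℝ (linSub D) ≤ 4)
    (hdim : Module.finrank ℝ E = Module.finrank ℝ (linSub D) + 2) : Vanish D := by
  by_cases hne : modSub D (linSub D) = ⊥
  · obtain ⟨H, hH, L, hL1, hL2, hL⟩ := plane_line D hcc hX hdim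
    have hcc' := cocompact_geoSub D H hcc
    have hs := plane_solv (geoSub D H) L hL1 hL2 hdim (by
      rintro _ ⟨g, hg, rfl⟩ v hv
      exact hL g hg v hv)
    have hbot : modSub (geoSub D H) (linSub (geoSub D H)) = ⊥ := by
      rw [eq_bot_iff]
      intro δ hδ
      rw [Subgroup.mem_bot]
      obtain ⟨g, hg, hgδ⟩ := δ.2
      have h1 : g ∈ modSub D (linSub D) := by
        intro x hx
        have h2 := hδ x hx
        rw [← hgδ] at h2
        exact h2
      rw [hne, Subgroup.mem_bot] at h1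
      apply Subtype.ext
      rw [← hgδ, h1]
      rfl
    have hV : Vanish (geoSub D H) := by
      refine vanish_of_isSolvable _ hpos hcc' 2 ?_
      rw [eq_bot_iff, ← hbot]
      exact hs
    refine vanish_transfer D (geoSub D H) (Subgroup.map_subtype_le _) ?_ subset_rfl hV
    rw [relIndex_geoSub]
    exact hH.index_ne_zero
  · exact vanish_le_four D hpos hcc hX h4 hne

/-- The low-dimensional theorem. -/
theorem vanish_low5 (D : Geo E) (hpos : 0 < Module.finrank ℝ E)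
    (hcc : ∃ K ⊆ D.X, IsCompact K ∧ ∀ x ∈ D.X, ∃ g ∈ D.Γ, g x ∈ K) (hX : D.X ≠ Set.univ)
    (h : Module.finrank ℝ (linSub D) ≤ 2 ∨
      (Module.finrank ℝ (linSub D) ≤ 4 ∧ modSub D (linSub D) ≠ ⊥) ∨
      (Module.finrank ℝ (linSub D) ≤ 4 ∧
        Module.finrank ℝ E ≤ Module.finrank ℝ (linSub D) + 2) ∨ Module.finrank ℝ E ≤ 5) :
    Vanish D := by
  have hlt := finrank_linSub_lt D hX
  by_cases h2 : Module.finrank ℝ (linSub D) ≤ 2
  · exact vanish_two D hpos hcc hX h2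
  by_cases h3 : Module.finrank ℝ (linSub D) ≤ 4 ∧ modSub D (linSub D) ≠ ⊥
  · exact vanish_le_four D hpos hcc hX h3.1 h3.2
  have h5 : Module.finrank ℝ (linSub D) ≤ 4 ∧
      Module.finrank ℝ E ≤ Module.finrank ℝ (linSub D) + 2 := by
    rcases h with h | h | h | h
    · exact absurd h h2
    · exact absurd h h3
    · exact h
    · omega
  have h6 : Module.finrank ℝ E = Module.finrank ℝ (linSub D) + 1 ∨
      Module.finrank ℝ E = Module.finrank ℝ (linSub D) + 2 := by omega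
  rcases h6 with h6 | h6
  · exact vanish_codim_one D hpos hcc hX h5.1 h6
  · exact vanish_codim_two D hpos hcc hX h5.1 h6

end

end Pool.AF
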