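import Pool.Agent.Helper94.AM.Defs

open Set Finset

set_option linter.unusedSectionVars false

namespace Pool.AF

/-! ## AM-1 STAR1: Clifford: the restriction of an irreducible representation to a normal subgroup
is semisimple

A minimal nonzero `Δ`-invariant subspace `S`; its translates `ρ g S` are again minimal
`Δ`-invariant, they span an invariant subspace, so `V` is their sum. Given a `Δ`-invariant `U`,
a `Δ`-invariant `U'` with `U ⊓ U' = ⊥` of maximal dimension satisfies `U ⊔ U' = ⊤`: otherwise some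
`ρ g S` is not contained in `U ⊔ U'`, so meets it in `⊥`, and `U' ⊔ ρ g S` is larger. -/

namespace Star1

variable {G V : Type*} [Group G] [AddCommGroup V] [Module ℝ V] (ρ : G →* (V →ₗ[ℝ] V))
  (Δ : Subgroup G)

/-- invariance under the subgroup -/
private def Inv (W : Submodule ℝ V) : Prop := ∀ δ ∈ Δ, ∀ u ∈ W, ρ δ u ∈ W

private theorem mul_apply' (g h : G) (v : V) : ρ (g * h) v = ρ g (ρ h v) := by
  rw [map_mul]
  rfl

private theorem inv_apply' (g : G) (v : V) : ρ g⁻¹ (ρ g v) = v := by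
  rw [← mul_apply', inv_mul_cancel, map_one]
  rfl

private theorem inv_apply'' (g : G) (v : V) : ρ g (ρ g⁻¹ v) = v := by
  rw [← mul_apply', mul_inv_cancel, map_one]
  rfl

variable {ρ Δ}

private theorem Inv.translate [Δ.Normal] {W : Submodule ℝ V} (h : Inv ρ Δ W) (g : G) :
    Inv ρ Δ (W.map (ρ g)) := by
  rintro δ hδ _ ⟨u, hu, rfl⟩
  have h1 : g⁻¹ * δ * g ∈ Δ := by
    have := Subgroup.Normal.conj_mem (inferInstance : Δ.Normal) δ hδ g⁻¹
    rwa [inv_inv] at this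
  refine ⟨ρ (g⁻¹ * δ * g) u, h _ h1 u hu, ?_⟩
  rw [← mul_apply', ← mul_apply']
  congr 2
  group

private theorem Inv.inf {W W' : Submodule ℝ V} (h : Inv ρ Δ W) (h' : Inv ρ Δ W') :
    Inv ρ Δ (W ⊓ W') := fun δ hδ u hu => ⟨h δ hδ u hu.1, h' δ hδ u hu.2⟩

private theorem Inv.sup {W W' : Submodule ℝ V} (h : Inv ρ Δ W) (h' : Inv ρ Δ W') :
    Inv ρ Δ (W ⊔ W') := by
  intro δ hδ u hu
  obtain ⟨a, ha, b, hb, rfl⟩ := Submodule.mem_sup.1 hu
  rw [map_add]
  exact Submodule.add_mem_sup (h δ hδ a ha) (h' δ hδ b hb)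

end Star1

open Star1 in
theorem star_ss {G V : Type*} [Group G] [AddCommGroup V] [Module ℝ V] [FiniteDimensional ℝ V]
    (ρ : G →* (V →ₗ[ℝ] V))
    (hirr : ∀ U : Submodule ℝ V, (∀ g, ∀ u ∈ U, ρ g u ∈ U) → U = ⊥ ∨ U = ⊤)
    (Δ : Subgroup G) [Δ.Normal] (U : Submodule ℝ V) (hU : ∀ δ ∈ Δ, ∀ u ∈ U, ρ δ u ∈ U) :
    ∃ U' : Submodule ℝ V, (∀ δ ∈ Δ, ∀ u ∈ U', ρ δ u ∈ U') ∧ IsCompl U U' := by
  -- a maximal invariant complement
  obtain ⟨U', ⟨hU'1, hU'2⟩, hmax⟩ := (wellFounded_gt : WellFounded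
    ((· > ·) : Submodule ℝ V → Submodule ℝ V → Prop)).has_min
    {W : Submodule ℝ V | Inv ρ Δ W ∧ Disjoint U W}
    ⟨⊥, fun δ _ u hu => by
      rw [Submodule.mem_bot] at hu ⊢
      rw [hu, map_zero], disjoint_bot_right⟩
  refine ⟨U', hU'1, hU'2, ?_⟩
  rw [codisjoint_iff]
  by_contra hne
  have hW : Inv ρ Δ (U ⊔ U') := Inv.sup hU hU'1
  have htop : (⊤ : Submodule ℝ V) ≠ ⊥ := by
    intro h
    apply hne
    have h1 : U ⊔ U' ≤ ⊥ := by
      rw [← h]
      exact le_top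
    rw [le_bot_iff.1 h1, h]
  -- a minimal nonzero invariant subspace
  obtain ⟨S, ⟨hS1, hS2⟩, hmin⟩ := (wellFounded_lt : WellFounded
    ((· < ·) : Submodule ℝ V → Submodule ℝ V → Prop)).has_min
    {W : Submodule ℝ V | Inv ρ Δ W ∧ W ≠ ⊥} ⟨⊤, fun _ _ _ _ => Submodule.mem_top, htop⟩
  -- some translate is not contained in `U ⊔ U'`
  have hex : ∃ g : G, ¬ S.map (ρ g) ≤ U ⊔ U' := by
    by_contra hcon
    push Not at hcon
    have h1 : (⨆ g : G, S.map (ρ g)) = ⊥ ∨ (⨆ g : G, S.map (ρ g)) = ⊤ := by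
      refine hirr _ fun g u hu => ?_
      have h2 : (⨆ k : G, S.map (ρ k)) ≤ (⨆ k : G, S.map (ρ k)).comap (ρ g) := by
        refine iSup_le fun k => ?_
        rintro _ ⟨v, hv, rfl⟩
        rw [Submodule.mem_comap, ← mul_apply']
        exact (le_iSup (fun k : G => S.map (ρ k)) (g * k)) ⟨v, hv, rfl⟩
      exact h2 hu
    rcases h1 with h1 | h1
    · have h2 : S.map (ρ 1) ≤ ⊥ := by
        rw [← h1]
        exact le_iSup (fun k : G => S.map (ρ k)) 1
      apply hS2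
      rw [eq_bot_iff]
      intro v hv
      have h3 : ρ 1 v ∈ (⊥ : Submodule ℝ V) := h2 ⟨v, hv, rfl⟩
      rw [map_one] at h3
      exact h3
    · apply hne
      rw [eq_top_iff, ← h1]
      exact iSup_le hcon
  obtain ⟨g, hg⟩ := hex
  have hgS : Inv ρ Δ (S.map (ρ g)) := Inv.translate hS1 g
  -- the translate meets `U ⊔ U'` in zero
  have hdis : (U ⊔ U') ⊓ S.map (ρ g) = ⊥ := by
    by_contra hne2
    have h1 : Inv ρ Δ (((U ⊔ U') ⊓ S.map (ρ g)).map (ρ g⁻¹)) := Inv.translate (hW.inf hgS) g⁻¹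
    have h2 : ((U ⊔ U') ⊓ S.map (ρ g)).map (ρ g⁻¹) ≤ S := by
      rintro _ ⟨v, hv, rfl⟩
      obtain ⟨w, hw, rfl⟩ := hv.2
      rw [inv_apply']
      exact hw
    have h3 : ((U ⊔ U') ⊓ S.map (ρ g)).map (ρ g⁻¹) ≠ ⊥ := by
      intro h
      apply hne2
      rw [eq_bot_iff]
      intro v hv
      have h4 : ρ g⁻¹ v ∈ (⊥ : Submodule ℝ V) := by
        rw [← h]
        exact ⟨v, hv, rfl⟩
      rw [Submodule.mem_bot] at h4
      rw [Submodule.mem_bot, ← inv_apply'' ρ g v, h4, map_zero]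
    have h4 : ((U ⊔ U') ⊓ S.map (ρ g)).map (ρ g⁻¹) = S := by
      by_contra h5
      exact hmin _ ⟨h1, h3⟩ (lt_of_le_of_ne h2 h5)
    apply hg
    rintro _ ⟨v, hv, rfl⟩
    have h5 : v ∈ ((U ⊔ U') ⊓ S.map (ρ g)).map (ρ g⁻¹) := by
      rw [h4]
      exact hv
    obtain ⟨w, hw, rfl⟩ := h5
    rw [inv_apply'']
    exact hw.1
  have hdis' : Disjoint U (U' ⊔ S.map (ρ g)) :=
    Disjoint.disjoint_sup_right_of_disjoint_sup_left hU'2 (disjoint_iff.2 hdis)
  refine hmax _ ⟨hU'1.sup hgS, hdis'⟩ ?_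
  refine lt_of_le_of_ne le_sup_left fun h => hg ?_
  have h1 : S.map (ρ g) ≤ U' := by
    rw [h]
    exact le_sup_right
  exact h1.trans le_sup_right

end Pool.AF
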