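import Pool.Agent.Helper94.AM.Defs

open Set Finset

set_option linter.unusedSectionVars false

namespace Pool.AF

open Pool.SV
open scoped commutatorElement

/-! ## AM-7 COMM2 (cf. AL/Comm.lean) -/

section

variable {E : Type*} [NormedAddCommGroup E] [NormedSpace ℝ E] [FiniteDimensional ℝ E]

/-- An element acting trivially on `X / U` has a nonzero fixed vector in `U` (cf. `exists_fixed`:
otherwise it has a fixed point in `x + U`). -/
theorem fixed_sub (D : Geo E) (U : Submodule ℝ E) (hU : U ≤ linSub D) (hU0 : U ≠ ⊥) (δ : D.Γ)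
    (hinv : ∀ u ∈ U, δ.1.linear u ∈ U) (h : δ ∈ modSub D U) :
    ∃ u ∈ U, u ≠ 0 ∧ δ.1.linear u = u := by
  by_contra hcon
  push Not at hcon
  let R : U →ₗ[ℝ] U := (δ.1.linear : E →ₗ[ℝ] E).restrict (fun v hv => hinv v hv)
  have hR : ∀ u : U, ((R u : U) : E) = δ.1.linear (u : E) := fun u => rfl
  have hinj : Function.Injective (LinearMap.id - R : U →ₗ[ℝ] U) := by
    rw [← LinearMap.ker_eq_bot, LinearMap.ker_eq_bot']
    intro v hv
    by_contra hv0
    refine hcon v v.2 ?_ ?_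
    · intro h0
      exact hv0 (Subtype.ext h0)
    · rw [LinearMap.sub_apply, LinearMap.id_apply, sub_eq_zero] at hv
      rw [← hR v, ← hv]
  have hsurj := LinearMap.surjective_of_injective hinj
  obtain ⟨x, hx⟩ := D.nonempty
  obtain ⟨v, hv⟩ := hsurj ⟨δ.1 x - x, h x hx⟩
  have h1 : (v : E) - δ.1.linear (v : E) = δ.1 x - x := by
    have := congrArg (fun w : U => (w : E)) hv
    simpa [hR] using this
  have h2 : δ.1 (x + v) = x + v := by
    have e1 : δ.1 (x + v) = δ.1 x + δ.1.linear (v : E) := by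
      rw [aff_eq' δ.1 (x + v), aff_eq' δ.1 x, map_add]
      abel
    rw [e1]
    have : δ.1 x = v - δ.1.linear (v : E) + x := by rw [h1]; abel
    rw [this]
    abel
  have h3 : x + (v : E) ∈ D.X := by
    have := hU v.2 x hx 1
    rwa [one_smul] at this
  have h4 : δ.1 = 1 := D.free δ.1 δ.2 _ h3 h2
  obtain ⟨w, hw⟩ := Submodule.exists_mem_ne_zero_of_ne_bot hU0
  refine hcon w hw.1 hw.2 ?_
  rw [h4]
  rfl

/-- cf. `comm_of_trivial`. -/
theorem comm_fix (D : Geo E) (a b : D.Γ) (ha : ∀ x ∈ D.X, a.1.linear (b.1 x - x) = b.1 x - x)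
    (hb : ∀ x ∈ D.X, b.1.linear (a.1 x - x) = a.1 x - x) : a * b = b * a := by
  have key : ∀ a b : D.Γ, (∀ x ∈ D.X, a.1.linear (b.1 x - x) = b.1 x - x) → ∀ x ∈ D.X,
      (a * b).1 x = a.1 x + b.1 x - x := by
    intro a b ha x hx
    have h1 : (a * b).1 x = a.1 (b.1 x) := rfl
    have h2 := ha x hx
    rw [h1, aff_eq' a.1 (b.1 x), aff_eq' a.1 x]
    rw [map_sub] at h2
    have h3 : a.1.linear (b.1 x) = b.1 x - x + a.1.linear x := by rw [← h2]; abel
    rw [h3]
    abel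
  obtain ⟨x, hx⟩ := D.nonempty
  have h1 := key a b ha x hx
  have h2 := key b a hb x hx
  have h3 : (a * b).1 x = (b * a).1 x := by
    rw [h1, h2]
    abel
  have h4 : ((b * a)⁻¹ * (a * b)).1 x = x := by
    have e1 : ((b * a)⁻¹ * (a * b)).1 x = (b * a).1.symm ((a * b).1 x) := rfl
    rw [e1, h3]
    exact (b * a).1.symm_apply_apply x
  have h5 := D.free _ ((b * a)⁻¹ * (a * b)).2 x hx h4
  have h6 : (b * a)⁻¹ * (a * b) = 1 := Subtype.ext h5
  exact (inv_mul_eq_one.1 h6).symm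

/-- If `N` acts trivially on `X / V` and on `V / U` then its commutators act trivially on `X / U`:
`δ ε x - ε δ x ∈ U` for all `x ∈ X`. -/
theorem comm_sub (D : Geo E) (U : Submodule ℝ E) (N : Subgroup D.Γ)
    (hN : N ≤ modSub D (linSub D)) (hNU : ∀ δ ∈ N, ∀ v ∈ linSub D, δ.1.linear v - v ∈ U) :
    ⁅N, N⁆ ≤ modSub D U := by
  have key : ∀ a b : D.Γ, ∀ x : E, (a * b).1 x = a.1 x + a.1.linear (b.1 x - x) := by
    intro a b x
    have h1 : (a * b).1 x = a.1 (b.1 x) := rfl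
    rw [h1, aff_eq' a.1 (b.1 x), aff_eq' a.1 x, map_sub]
    abel
  rw [Subgroup.commutator_le]
  intro a ha b hb x hx
  set y : E := (a⁻¹ * b⁻¹).1 x with hy
  have hyX : y ∈ D.X := D.inv _ (a⁻¹ * b⁻¹).2 x hx
  have e1 : (⁅a, b⁆ : D.Γ).1 x = (a * b).1 y := by
    rw [hy, commutatorElement_def, mul_assoc (a * b)]
    rfl
  have e2 : x = (b * a).1 y := by
    rw [hy]
    have h1 : (b * a) * (a⁻¹ * b⁻¹) = 1 := by group
    have h2 : (b * a).1 ((a⁻¹ * b⁻¹).1 x) = ((b * a) * (a⁻¹ * b⁻¹)).1 x := rfl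
    rw [h2, h1]
    rfl
  have h1 := hNU a ha _ (hN hb y hyX)
  have h2 := hNU b hb _ (hN ha y hyX)
  have h3 : (⁅a, b⁆ : D.Γ).1 x - x = (a.1.linear (b.1 y - y) - (b.1 y - y)) -
      (b.1.linear (a.1 y - y) - (a.1 y - y)) := by
    rw [e1]
    conv_lhs => rw [e2]
    rw [key a b y, key b a y]
    abel
  rw [h3]
  exact U.sub_mem h1 h2

/-- A subgroup of finite index contains nontrivial elements of `modSub D V` (the group is torsion
free: `eq_one_of_pow`). -/
theorem modSub_geoSub (D : Geo E) (H : Subgroup D.Γ) (hH : H.FiniteIndex)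
    (hne : modSub D (linSub D) ≠ ⊥) : modSub (geoSub D H) (linSub (geoSub D H)) ≠ ⊥ := by
  obtain ⟨g, hg⟩ := Subgroup.ne_bot_iff_exists_ne_one.1 hne
  obtain ⟨n, hn, -, hgn⟩ := Subgroup.exists_pow_mem_of_index_ne_zero hH.index_ne_zero g.1
  have hmem : (g.1 ^ n).1 ∈ (geoSub D H).Γ := ⟨g.1 ^ n, hgn, rfl⟩
  intro hbot
  have h1 : (⟨(g.1 ^ n).1, hmem⟩ : (geoSub D H).Γ) ∈
      modSub (geoSub D H) (linSub (geoSub D H)) := by
    intro x hx
    exact (modSub D (linSub D)).pow_mem g.2 n x hx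
  rw [hbot, Subgroup.mem_bot] at h1
  have h2 : (g.1 ^ n).1 = 1 := congrArg Subtype.val h1
  have h3 : g.1.1 = 1 := eq_one_of_pow D g.1.1 g.1.2 n hn (by
    rw [← h2]
    rfl)
  exact hg (Subtype.ext (Subtype.ext h3))

end

end Pool.AF
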