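import Pool.Agent.Helper94.AL.Defs

/-!
# Project AM: convex affine manifolds of dimension at most five

Definitions common to the modules.
-/

open Set Finset

namespace Pool.AF

open Pool.SV

section Rep

variable {G V : Type*} [Group G] [AddCommGroup V] [Module ℝ V]

/-- The representation on an invariant subspace. -/
def subRep (ρ : G →* (V →ₗ[ℝ] V)) (U : Submodule ℝ V) (hU : ∀ g, ∀ u ∈ U, ρ g u ∈ U) :
    G →* (U →ₗ[ℝ] U) where
  toFun g := (ρ g).restrict (fun u hu => hU g u hu)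
  map_one' := by
    ext u
    simp
  map_mul' g h := by
    ext u
    simp

theorem subRep_apply (ρ : G →* (V →ₗ[ℝ] V)) (U : Submodule ℝ V) (hU : ∀ g, ∀ u ∈ U, ρ g u ∈ U)
    (g : G) (u : U) : ((subRep ρ U hU g u : U) : V) = ρ g (u : V) := rfl

/-- The representation on the quotient by an invariant subspace. -/
def quoRep (ρ : G →* (V →ₗ[ℝ] V)) (U : Submodule ℝ V) (hU : ∀ g, ∀ u ∈ U, ρ g u ∈ U) :
    G →* ((V ⧸ U) →ₗ[ℝ] (V ⧸ U)) where
  toFun g := U.mapQ U (ρ g) (fun u hu => hU g u hu)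
  map_one' := by
    apply Submodule.linearMap_qext
    ext v
    simp
  map_mul' g h := by
    apply Submodule.linearMap_qext
    ext v
    simp

theorem quoRep_mk (ρ : G →* (V →ₗ[ℝ] V)) (U : Submodule ℝ V) (hU : ∀ g, ∀ u ∈ U, ρ g u ∈ U)
    (g : G) (v : V) : quoRep ρ U hU g (U.mkQ v) = U.mkQ (ρ g v) := rfl

end Rep

/-- The vectors with bounded forward orbit. -/
def bddOrb {V : Type*} [AddCommGroup V] [Module ℝ V] (T : V →ₗ[ℝ] V) : Submodule ℝ V where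
  carrier := {w | ∀ φ : V →ₗ[ℝ] ℝ, ∃ C : ℝ, ∀ n : ℕ, |φ ((T ^ n) w)| ≤ C}
  add_mem' := by
    intro a b ha hb φ
    obtain ⟨C, hC⟩ := ha φ
    obtain ⟨C', hC'⟩ := hb φ
    refine ⟨C + C', fun n => ?_⟩
    rw [map_add, map_add]
    exact (abs_add_le _ _).trans (add_le_add (hC n) (hC' n))
  zero_mem' := by
    intro φ
    exact ⟨0, fun n => by simp⟩
  smul_mem' := by
    intro c a ha φ
    obtain ⟨C, hC⟩ := ha φ
    refine ⟨|c| * C, fun n => ?_⟩
    rw [map_smul, map_smul, smul_eq_mul, abs_mul]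
    exact mul_le_mul_of_nonneg_left (hC n) (abs_nonneg c)

theorem mem_bddOrb {V : Type*} [AddCommGroup V] [Module ℝ V] (T : V →ₗ[ℝ] V) (w : V) :
    w ∈ bddOrb T ↔ ∀ φ : V →ₗ[ℝ] ℝ, ∃ C : ℝ, ∀ n : ℕ, |φ ((T ^ n) w)| ≤ C := Iff.rfl

section Geo

variable {E : Type*} [NormedAddCommGroup E] [NormedSpace ℝ E]

/-- The elements acting trivially on `X / U`, for a subspace `U`. -/
def modSub (D : Geo E) (U : Submodule ℝ E) : Subgroup D.Γ where
  carrier := {g | ∀ x ∈ D.X, g.1 x - x ∈ U}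
  one_mem' := by
    intro x _
    change x - x ∈ U
    rw [sub_self]
    exact U.zero_mem
  mul_mem' := by
    intro a b ha hb x hx
    have h1 := U.add_mem (ha (b.1 x) (D.inv b.1 b.2 x hx)) (hb x hx)
    rw [sub_add_sub_cancel] at h1
    exact h1
  inv_mem' := by
    intro a ha x hx
    have h1 := ha ((a⁻¹).1 x) (D.inv _ (a⁻¹).2 x hx)
    have h2 : a.1 ((a⁻¹).1 x) = x := a.1.apply_symm_apply x
    rw [h2] at h1
    rw [← neg_sub]
    exact U.neg_mem h1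

theorem mem_modSub (D : Geo E) (U : Submodule ℝ E) (g : D.Γ) :
    g ∈ modSub D U ↔ ∀ x ∈ D.X, g.1 x - x ∈ U := Iff.rfl

/-- The subgroup is normal if `U` is invariant. -/
theorem modSub_normal (D : Geo E) (U : Submodule ℝ E) (hU : ∀ g ∈ D.Γ, ∀ v ∈ U, g.linear v ∈ U) :
    (modSub D U).Normal := by
  refine ⟨fun n hn g x hx => ?_⟩
  have hy := D.inv (g⁻¹).1 (g⁻¹).2 x hx
  have h1 := hU g.1 g.2 _ (hn _ hy)
  have h2 : g.1 ((g⁻¹).1 x) = x := g.1.apply_symm_apply x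
  have h3 : (g * n * g⁻¹).1 x = g.1 (n.1 ((g⁻¹).1 x)) := rfl
  rw [h3]
  have h4 : g.1.linear (n.1 ((g⁻¹).1 x) - (g⁻¹).1 x) = g.1 (n.1 ((g⁻¹).1 x)) - x := by
    rw [map_sub, aff_eq' g.1 (n.1 ((g⁻¹).1 x))]
    rw [aff_eq' g.1 ((g⁻¹).1 x)] at h2
    have h5 : g.1.linear ((g⁻¹).1 x) = x - g.1 0 := eq_sub_of_add_eq h2
    rw [h5]
    abel
  rw [← h4]
  exact h1

end Geo

end Pool.AF
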