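import Pool.Agent.Helper94.AM.Tools

open Set Finset

set_option linter.unusedSectionVars false

namespace Pool.AF

open Pool.SV
open scoped commutatorElement

section

variable {E : Type*} [NormedAddCommGroup E] [NormedSpace ℝ E] [FiniteDimensional ℝ E]

theorem vanish_of_abelian (D : Geo E) (hpos : 0 < Module.finrank ℝ E)
    (hcc : ∃ K ⊆ D.X, IsCompact K ∧ ∀ x ∈ D.X, ∃ g ∈ D.Γ, g x ∈ K) (N : Subgroup D.Γ)
    (hN : N.Normal) (hne : N ≠ ⊥) (hab : ∀ a ∈ N, ∀ b ∈ N, a * b = b * a) : Vanish D :=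
  vanish_of_hasAbNormal D hpos ⟨N, hN, hne, hab⟩ hcc

theorem abelian_of_comm {G : Type*} [Group G] (N : Subgroup G) (h : ⁅N, N⁆ = ⊥) :
    ∀ a ∈ N, ∀ b ∈ N, a * b = b * a := by
  intro a ha b hb
  have h1 : ⁅a, b⁆ ∈ ⁅N, N⁆ := Subgroup.commutator_mem_commutator ha hb
  rw [h, Subgroup.mem_bot] at h1
  exact commutatorElement_eq_one_iff_mul_comm.mp h1

theorem vanish_of_comm_abelian (D : Geo E) (hpos : 0 < Module.finrank ℝ E)
    (hcc : ∃ K ⊆ D.X, IsCompact K ∧ ∀ x ∈ D.X, ∃ g ∈ D.Γ, g x ∈ K) (N : Subgroup D.Γ)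
    (hN : N.Normal) (hne : N ≠ ⊥) (hab : ∀ a ∈ ⁅N, N⁆, ∀ b ∈ ⁅N, N⁆, a * b = b * a) :
    Vanish D := by
  by_cases h : ⁅N, N⁆ = ⊥
  · exact vanish_of_abelian D hpos hcc N hN hne (abelian_of_comm N h)
  · exact vanish_of_abelian D hpos hcc ⁅N, N⁆ inferInstance h hab

theorem linSub_inv (D : Geo E) : ∀ g ∈ D.Γ, ∀ v ∈ linSub D, g.linear v ∈ linSub D :=
  fun g hg v hv => lin_inv D g hg v hv

/-- The commutator subgroup of the group of the elements acting trivially on `X / V`. -/
def nn (D : Geo E) : Subgroup D.Γ := ⁅modSub D (linSub D), modSub D (linSub D)⁆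

theorem nn_normal (D : Geo E) : (nn D).Normal := by
  have h1 := modSub_normal D (linSub D) (linSub_inv D)
  exact Subgroup.commutator_normal _ _

theorem nn_le (D : Geo E) : nn D ≤ modSub D (linSub D) := by
  have h1 := modSub_normal D (linSub D) (linSub_inv D)
  exact Subgroup.commutator_le_right _ _

theorem nn_le_comm (D : Geo E) : nn D ≤ commutator D.Γ :=
  Subgroup.commutator_mono le_top le_top

/-- Elements acting trivially on `X / U` and on `U` commute. -/
theorem comm_of_modSub (D : Geo E) (U : Submodule ℝ E) (a b : D.Γ) (ha : a ∈ modSub D U)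
    (hb : b ∈ modSub D U) (ha' : ∀ u ∈ U, a.1.linear u = u) (hb' : ∀ u ∈ U, b.1.linear u = u) :
    a * b = b * a :=
  comm_fix D a b (fun x hx => ha' _ (hb x hx)) (fun x hx => hb' _ (ha x hx))

theorem lin_of_linRep (D : Geo E) (a : D.Γ) (h : linRep D a = 1) :
    ∀ u ∈ linSub D, a.1.linear u = u := by
  intro u hu
  have h1 := linRep_apply D a ⟨u, hu⟩
  rw [h] at h1
  exact h1.symm

theorem vanish_three (D : Geo E) (hpos : 0 < Module.finrank ℝ E)
    (hcc : ∃ K ⊆ D.X, IsCompact K ∧ ∀ x ∈ D.X, ∃ g ∈ D.Γ, g x ∈ K) (hX : D.X ≠ Set.univ)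
    (h3 : Module.finrank ℝ (linSub D) = 3) (hne : modSub D (linSub D) ≠ ⊥) : Vanish D := by
  classical
  have hM := modSub_normal D (linSub D) (linSub_inv D)
  have hV : linSub D ≠ ⊥ := by
    intro h
    rw [h, finrank_bot] at h3
    omega
  by_cases hirr : ∀ H : Subgroup D.Γ, H.FiniteIndex → ∀ U : Submodule ℝ (linSub D),
      (∀ h ∈ H, ∀ u ∈ U, linRep D h u ∈ U) → U = ⊥ ∨ U = ⊤
  swap
  · push Not at hirr
    obtain ⟨H, hH, U, hU, hU0, hU1⟩ := hirr
    have h1 : 0 < Module.finrank ℝ U := by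
      rw [Nat.pos_iff_ne_zero]
      intro h
      exact hU0 (Submodule.finrank_eq_zero.mp h)
    have h2 := Submodule.finrank_lt hU1
    exact vanish_flag2 D hpos hcc hX H hH U hU0 hU1 hU (by omega) (by omega)
  by_cases hN : nn D = ⊥
  · exact vanish_of_abelian D hpos hcc _ hM hne (abelian_of_comm _ hN)
  have hNn := nn_normal D
  have hdet : ∀ δ ∈ nn D, LinearMap.det (linRep D δ) = 1 :=
    fun δ hδ => det_commutator (linRep D) δ (nn_le_comm D hδ)
  rcases trivial_or_irr h3 (linRep D) hirr (nn D) hdet with htriv | hirrN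
  · exact vanish_of_abelian D hpos hcc (nn D) hNn hN (fun a ha b hb =>
      comm_of_modSub D (linSub D) a b (nn_le D ha) (nn_le D hb)
        (lin_of_linRep D a (htriv a ha)) (lin_of_linRep D b (htriv b hb)))
  · obtain ⟨B, hB1, hB2, hB3⟩ := form_of_fix h3 (linRep D) (nn D) hirrN hdet
      (fun δ hδ => exists_fixed D hV δ (fun x hx => nn_le D hδ x hx))
    obtain ⟨Γ₁, hle, hfin, hT⟩ := type_of_form D.Γ (linSub D) h3 (linSub_inv D) B hB1 hB2 (by
      intro g hg
      obtain ⟨c, hc, hc2⟩ := hB3 ⟨g, hg⟩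
      refine ⟨c, hc, fun x y x' y' hx hy => ?_⟩
      have e1 : x' = linRep D ⟨g, hg⟩ x := Subtype.ext hx
      have e2 : y' = linRep D ⟨g, hg⟩ y := Subtype.ext hy
      rw [e1, e2, hc2])
    exact vanish_of_virtual_coneFlag D hpos hcc Γ₁ hle hfin
      (coneFlag_one D Γ₁ hle hX hV hT)

/-- An invariant line in a four-dimensional lineality space. -/
theorem vanish_inv1 (D : Geo E) (hpos : 0 < Module.finrank ℝ E)
    (hcc : ∃ K ⊆ D.X, IsCompact K ∧ ∀ x ∈ D.X, ∃ g ∈ D.Γ, g x ∈ K) (hX : D.X ≠ Set.univ)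
    (h4 : Module.finrank ℝ (linSub D) = 4) (hne : modSub D (linSub D) ≠ ⊥)
    (U : Submodule ℝ (linSub D)) (hU : ∀ g, ∀ u ∈ U, linRep D g u ∈ U)
    (h1 : Module.finrank ℝ U = 1) : Vanish D := by
  classical
  have hM := modSub_normal D (linSub D) (linSub_inv D)
  have hU0 : U ≠ ⊥ := by
    intro h
    rw [h, finrank_bot] at h1
    omega
  have hU1 : U ≠ ⊤ := by
    intro h
    rw [h, finrank_top] at h1
    omega
  have hW : Module.finrank ℝ (linSub D ⧸ U) = 3 := by
    have := U.finrank_quotient_add_finrank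
    omega
  by_cases hirr : ∀ H : Subgroup D.Γ, H.FiniteIndex → ∀ B : Submodule ℝ (linSub D ⧸ U),
      (∀ h ∈ H, ∀ u ∈ B, quoRep (linRep D) U hU h u ∈ B) → B = ⊥ ∨ B = ⊤
  swap
  · push Not at hirr
    obtain ⟨H, hH, B, hB, hB0, hB1⟩ := hirr
    have hinv : ∀ h ∈ H, ∀ u ∈ B.comap U.mkQ, linRep D h u ∈ B.comap U.mkQ := by
      intro h hh u hu
      exact hB h hh _ hu
    have hle : U ≤ B.comap U.mkQ := by
      intro u hu
      have h5 : U.mkQ u = 0 := (Submodule.Quotient.mk_eq_zero U).mpr hu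
      change U.mkQ u ∈ B
      rw [h5]
      exact B.zero_mem
    have hmap : (B.comap U.mkQ).map U.mkQ = B :=
      Submodule.map_comap_eq_of_surjective U.mkQ_surjective B
    have hne1 : B.comap U.mkQ ≠ U := by
      intro h
      apply hB0
      rw [← hmap, h, Submodule.mkQ_map_self]
    have hne2 : B.comap U.mkQ ≠ ⊤ := by
      intro h
      apply hB1
      rw [← hmap, h, Submodule.map_top, Submodule.range_mkQ]
    have hlt : U < B.comap U.mkQ := lt_of_le_of_ne hle (Ne.symm hne1)
    have h5 := Submodule.finrank_lt_finrank_of_lt hlt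
    have h6 := Submodule.finrank_lt hne2
    by_cases h7 : Module.finrank ℝ (B.comap U.mkQ) = 2
    · refine vanish_flag2 D hpos hcc hX H hH _ ?_ hne2 hinv (by omega) (by omega)
      intro h
      rw [h, finrank_bot] at h7
      omega
    · exact vanish_flag3 D hpos hcc hX H hH U _ hU0 hlt hne2 (fun h _ u hu => hU h u hu) hinv
        (by omega) (by omega) (by omega)
  by_cases hN : nn D = ⊥
  · exact vanish_of_abelian D hpos hcc _ hM hne (abelian_of_comm _ hN)
  have hNn := nn_normal D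
  have hdet : ∀ δ ∈ nn D, LinearMap.det (quoRep (linRep D) U hU δ) = 1 :=
    fun δ hδ => det_commutator (quoRep (linRep D) U hU) δ (nn_le_comm D hδ)
  have hfixU : ∀ δ ∈ nn D, ∀ u ∈ U, linRep D δ u = u := by
    intro δ hδ u hu
    have h5 := one_dim h1 (subRep (linRep D) U hU) δ (nn_le_comm D hδ)
    have h6 := subRep_apply (linRep D) U hU δ ⟨u, hu⟩
    rw [h5] at h6
    exact h6.symm
  have hfixU' : ∀ δ ∈ nn D, ∀ u ∈ U.map (linSub D).subtype, δ.1.linear u = u := by
    rintro δ hδ _ ⟨u, hu, rfl⟩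
    exact congrArg Subtype.val (hfixU δ hδ u hu)
  rcases trivial_or_irr hW (quoRep (linRep D) U hU) hirr (nn D) hdet with htriv | hirrN
  · refine vanish_of_comm_abelian D hpos hcc (nn D) hNn hN (fun a ha b hb => ?_)
    have hle := comm_sub D (U.map (linSub D).subtype) (nn D) (nn_le D) (by
      intro δ hδ v hv
      have h5 := htriv δ hδ
      have h6 : quoRep (linRep D) U hU δ (U.mkQ ⟨v, hv⟩) = U.mkQ ⟨v, hv⟩ := by rw [h5]; rfl
      rw [quoRep_mk, ← sub_eq_zero, ← map_sub] at h6
      have h7 := (Submodule.Quotient.mk_eq_zero U).mp h6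
      exact ⟨_, h7, rfl⟩)
    have hle2 : ⁅nn D, nn D⁆ ≤ nn D := Subgroup.commutator_le_right _ _
    exact comm_of_modSub D (U.map (linSub D).subtype) a b (hle ha) (hle hb)
      (hfixU' a (hle2 ha)) (hfixU' b (hle2 hb))
  · obtain ⟨B, hB1, hB2, hB3⟩ := form_of_fix hW (quoRep (linRep D) U hU) (nn D) hirrN hdet
      (fix_of_irr D U hU (nn D) (nn_le D) hfixU hW hdet hirrN)
    have hinvE : ∀ g ∈ D.Γ, ∀ v ∈ U.map (linSub D).subtype,
        g.linear v ∈ U.map (linSub D).subtype := by
      rintro g hg _ ⟨u, hu, rfl⟩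
      exact ⟨linRep D ⟨g, hg⟩ u, hU ⟨g, hg⟩ u hu, rfl⟩
    obtain ⟨Γ₁, hle, hfin, hT⟩ := type_of_form_quot D.Γ (U.map (linSub D).subtype) (linSub D)
      (Submodule.map_subtype_le _ _) (by rw [finrank_map]; omega) hinvE (linSub_inv D)
      (B.compl₁₂ U.mkQ U.mkQ) (fun x y => hB1 _ _) (by
        intro x
        constructor
        · intro h
          have h5 : U.mkQ x = 0 := by
            by_contra h6
            obtain ⟨y, hy⟩ := hB2 _ h6
            obtain ⟨y', rfl⟩ := U.mkQ_surjective y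
            exact hy (h y')
          exact ⟨x, (Submodule.Quotient.mk_eq_zero U).mp h5, rfl⟩
        · rintro ⟨u, hu, hux⟩ y
          have h6 : u = x := Subtype.ext hux
          rw [LinearMap.compl₁₂_apply, ← h6]
          have h7 : U.mkQ u = 0 := (Submodule.Quotient.mk_eq_zero U).mpr hu
          rw [h7, map_zero, LinearMap.zero_apply]) (by
        intro g hg
        obtain ⟨c, hc, hc2⟩ := hB3 ⟨g, hg⟩
        refine ⟨c, hc, fun x y x' y' hx hy => ?_⟩
        have e1 : x' = linRep D ⟨g, hg⟩ x := Subtype.ext hx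
        have e2 : y' = linRep D ⟨g, hg⟩ y := Subtype.ext hy
        rw [LinearMap.compl₁₂_apply, LinearMap.compl₁₂_apply, e1, e2,
          ← quoRep_mk (linRep D) U hU, ← quoRep_mk (linRep D) U hU, hc2])
    have hinv₁ : ∀ g ∈ Γ₁, ∀ v ∈ U.map (linSub D).subtype,
        g.linear v ∈ U.map (linSub D).subtype := fun g hg => hinvE g (hle hg)
    refine vanish_of_virtual_coneFlag D hpos hcc Γ₁ hle hfin
      (coneFlag_two' D Γ₁ hle hX _ (bot_lt_map D hU0) (map_lt D hU1) hinv₁ (Or.inl ?_) hT)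
    refine quadType_small _ _ _ bot_le (inv_bot _) hinv₁ ?_
    rw [finrank_bot, finrank_map]
    omega

/-- An invariant hyperplane in a four-dimensional lineality space. -/
theorem vanish_inv3 (D : Geo E) (hpos : 0 < Module.finrank ℝ E)
    (hcc : ∃ K ⊆ D.X, IsCompact K ∧ ∀ x ∈ D.X, ∃ g ∈ D.Γ, g x ∈ K) (hX : D.X ≠ Set.univ)
    (h4 : Module.finrank ℝ (linSub D) = 4) (hne : modSub D (linSub D) ≠ ⊥)
    (U : Submodule ℝ (linSub D)) (hU : ∀ g, ∀ u ∈ U, linRep D g u ∈ U)
    (h3 : Module.finrank ℝ U = 3) : Vanish D := by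
  classical
  have hM := modSub_normal D (linSub D) (linSub_inv D)
  have hU0 : U ≠ ⊥ := by
    intro h
    rw [h, finrank_bot] at h3
    omega
  have hU1 : U ≠ ⊤ := by
    intro h
    rw [h, finrank_top] at h3
    omega
  have hW : Module.finrank ℝ (linSub D ⧸ U) = 1 := by
    have := U.finrank_quotient_add_finrank
    omega
  by_cases hirr : ∀ H : Subgroup D.Γ, H.FiniteIndex → ∀ B : Submodule ℝ U,
      (∀ h ∈ H, ∀ u ∈ B, subRep (linRep D) U hU h u ∈ B) → B = ⊥ ∨ B = ⊤
  swap
  · push Not at hirr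
    obtain ⟨H, hH, B, hB, hB0, hB1⟩ := hirr
    have hinv : ∀ h ∈ H, ∀ u ∈ B.map U.subtype, linRep D h u ∈ B.map U.subtype := by
      rintro h hh _ ⟨u, hu, rfl⟩
      exact ⟨subRep (linRep D) U hU h u, hB h hh u hu, rfl⟩
    have hfr : Module.finrank ℝ (B.map U.subtype) = Module.finrank ℝ B :=
      (LinearEquiv.finrank_eq (Submodule.equivMapOfInjective _ U.injective_subtype B)).symm
    have hlt : B.map U.subtype < U := by
      refine lt_of_le_of_ne (Submodule.map_subtype_le _ _) ?_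
      intro h
      apply hB1
      apply Submodule.map_injective_of_injective U.injective_subtype
      rw [h, Submodule.map_subtype_top]
    have h5 : 0 < Module.finrank ℝ B := by
      rw [Nat.pos_iff_ne_zero]
      intro h
      exact hB0 (Submodule.finrank_eq_zero.mp h)
    have h6 := Submodule.finrank_lt_finrank_of_lt hlt
    have hne1 : B.map U.subtype ≠ ⊥ := by
      intro h
      rw [h, finrank_bot] at hfr
      omega
    have hne2 : B.map U.subtype ≠ ⊤ := fun h => hU1 (top_le_iff.mp (h ▸ hlt.le))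
    by_cases h7 : Module.finrank ℝ (B.map U.subtype) = 2
    · exact vanish_flag2 D hpos hcc hX H hH _ hne1 hne2 hinv (by omega) (by omega)
    · exact vanish_flag3 D hpos hcc hX H hH _ U hne1 hlt hU1 hinv (fun h _ u hu => hU h u hu)
        (by omega) (by omega) (by omega)
  by_cases hN : nn D = ⊥
  · exact vanish_of_abelian D hpos hcc _ hM hne (abelian_of_comm _ hN)
  have hNn := nn_normal D
  by_cases hN2 : ⁅nn D, nn D⁆ = ⊥
  · exact vanish_of_abelian D hpos hcc (nn D) hNn hN (abelian_of_comm _ hN2)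
  have hN2n : (⁅nn D, nn D⁆).Normal := Subgroup.commutator_normal _ _
  have hle2 : ⁅nn D, nn D⁆ ≤ nn D := Subgroup.commutator_le_right _ _
  have hmod := comm_sub D (U.map (linSub D).subtype) (nn D) (nn_le D) (by
    intro δ hδ v hv
    have h5 := one_dim hW (quoRep (linRep D) U hU) δ (nn_le_comm D hδ)
    have h6 : quoRep (linRep D) U hU δ (U.mkQ ⟨v, hv⟩) = U.mkQ ⟨v, hv⟩ := by rw [h5]; rfl
    rw [quoRep_mk, ← sub_eq_zero, ← map_sub] at h6
    have h7 := (Submodule.Quotient.mk_eq_zero U).mp h6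
    exact ⟨_, h7, rfl⟩)
  have hdet : ∀ δ ∈ ⁅nn D, nn D⁆, LinearMap.det (subRep (linRep D) U hU δ) = 1 :=
    fun δ hδ => det_commutator (subRep (linRep D) U hU) δ (nn_le_comm D (hle2 hδ))
  rcases trivial_or_irr h3 (subRep (linRep D) U hU) hirr ⁅nn D, nn D⁆ hdet with htriv | hirrN
  · have hfixU' : ∀ δ ∈ ⁅nn D, nn D⁆, ∀ u ∈ U.map (linSub D).subtype, δ.1.linear u = u := by
      rintro δ hδ _ ⟨u, hu, rfl⟩
      have h6 := subRep_apply (linRep D) U hU δ ⟨u, hu⟩
      rw [htriv δ hδ] at h6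
      exact congrArg Subtype.val h6.symm
    exact vanish_of_abelian D hpos hcc ⁅nn D, nn D⁆ hN2n hN2 (fun a ha b hb =>
      comm_of_modSub D (U.map (linSub D).subtype) a b (hmod ha) (hmod hb)
        (hfixU' a ha) (hfixU' b hb))
  · have hinvE : ∀ g ∈ D.Γ, ∀ v ∈ U.map (linSub D).subtype,
        g.linear v ∈ U.map (linSub D).subtype := by
      rintro g hg _ ⟨u, hu, rfl⟩
      exact ⟨linRep D ⟨g, hg⟩ u, hU ⟨g, hg⟩ u hu, rfl⟩
    obtain ⟨B, hB1, hB2, hB3⟩ := form_of_fix h3 (subRep (linRep D) U hU) ⁅nn D, nn D⁆ hirrN hdet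
      (by
        intro δ hδ
        obtain ⟨u, hu, hu0, hfix⟩ := fixed_sub D (U.map (linSub D).subtype)
          (Submodule.map_subtype_le _ _) (bot_lt_map D hU0).ne' δ
          (fun u hu => hinvE δ.1 δ.2 u hu) (hmod hδ)
        obtain ⟨w, hw, hwu⟩ := hu
        refine ⟨⟨w, hw⟩, ?_, ?_⟩
        · intro h
          apply hu0
          rw [← hwu]
          have h5 : w = 0 := congrArg Subtype.val h
          rw [h5]
          rfl
        · apply Subtype.ext
          apply Subtype.ext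
          rw [← hwu] at hfix
          exact hfix)
    let e : U ≃ₗ[ℝ] U.map (linSub D).subtype :=
      Submodule.equivMapOfInjective _ (linSub D).injective_subtype U
    have he : ∀ u : U, ((e u : U.map (linSub D).subtype) : E) = ((u : linSub D) : E) :=
      fun u => rfl
    obtain ⟨Γ₁, hle, hfin, hT⟩ := type_of_form_quot D.Γ ⊥ (U.map (linSub D).subtype)
      bot_le (by rw [finrank_map, finrank_bot]; omega) (inv_bot _) hinvE
      (B.compl₁₂ e.symm.toLinearMap e.symm.toLinearMap) (fun x y => hB1 _ _) (by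
        intro x
        rw [Submodule.mem_bot]
        constructor
        · intro h
          by_contra h6
          have h7 : e.symm x ≠ 0 := by
            intro h8
            apply h6
            have h9 : x = 0 := by simpa using h8
            rw [h9]
            rfl
          obtain ⟨y, hy⟩ := hB2 _ h7
          apply hy
          have h10 := h (e y)
          rw [LinearMap.compl₁₂_apply] at h10
          simpa using h10
        · intro h y
          have h6 : x = 0 := Subtype.ext h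
          rw [h6, map_zero, LinearMap.zero_apply]) (by
        intro g hg
        obtain ⟨c, hc, hc2⟩ := hB3 ⟨g, hg⟩
        refine ⟨c, hc, fun x y x' y' hx hy => ?_⟩
        have key : ∀ z z' : U.map (linSub D).subtype, (z' : E) = g.linear (z : E) →
            e.symm z' = subRep (linRep D) U hU ⟨g, hg⟩ (e.symm z) := by
          intro z z' hz
          rw [LinearEquiv.symm_apply_eq]
          apply Subtype.ext
          rw [he, hz]
          have h6 : (z : E) = ((e.symm z : U) : linSub D) := by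
            rw [← he, LinearEquiv.apply_symm_apply]
          rw [h6]
          rfl
        rw [LinearMap.compl₁₂_apply, LinearMap.compl₁₂_apply]
        have e1 := key x x' hx
        have e2 := key y y' hy
        simp only [LinearEquiv.coe_coe]
        rw [e1, e2, hc2])
    have hinv₁ : ∀ g ∈ Γ₁, ∀ v ∈ U.map (linSub D).subtype,
        g.linear v ∈ U.map (linSub D).subtype := fun g hg => hinvE g (hle hg)
    refine vanish_of_virtual_coneFlag D hpos hcc Γ₁ hle hfin
      (coneFlag_two' D Γ₁ hle hX _ (bot_lt_map D hU0) (map_lt D hU1) hinv₁ hT (Or.inl ?_))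
    refine quadType_small _ _ _ (map_lt D hU1).le hinv₁ (inv_lin D _ hle) ?_
    rw [finrank_map]
    omega

theorem vanish_four (D : Geo E) (hpos : 0 < Module.finrank ℝ E)
    (hcc : ∃ K ⊆ D.X, IsCompact K ∧ ∀ x ∈ D.X, ∃ g ∈ D.Γ, g x ∈ K) (hX : D.X ≠ Set.univ)
    (h4 : Module.finrank ℝ (linSub D) = 4) (hne : modSub D (linSub D) ≠ ⊥) : Vanish D := by
  classical
  have hM := modSub_normal D (linSub D) (linSub_inv D)
  have hV : linSub D ≠ ⊥ := by
    intro h
    rw [h, finrank_bot] at h4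
    omega
  by_cases hirr : ∀ U : Submodule ℝ (linSub D), (∀ g, ∀ u ∈ U, linRep D g u ∈ U) →
      U = ⊥ ∨ U = ⊤
  · by_cases hN : nn D = ⊥
    · exact vanish_of_abelian D hpos hcc _ hM hne (abelian_of_comm _ hN)
    have hNn := nn_normal D
    have htriv := star h4 (linRep D) hirr (nn D)
      (fun δ hδ => det_commutator (linRep D) δ (nn_le_comm D hδ))
      (fun δ hδ => exists_fixed D hV δ (fun x hx => nn_le D hδ x hx))
    exact vanish_of_abelian D hpos hcc (nn D) hNn hN (fun a ha b hb =>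
      comm_of_modSub D (linSub D) a b (nn_le D ha) (nn_le D hb)
        (lin_of_linRep D a (htriv a ha)) (lin_of_linRep D b (htriv b hb)))
  · push Not at hirr
    obtain ⟨U, hU, hU0, hU1⟩ := hirr
    have h1 : 0 < Module.finrank ℝ U := by
      rw [Nat.pos_iff_ne_zero]
      intro h
      exact hU0 (Submodule.finrank_eq_zero.mp h)
    have h2 := Submodule.finrank_lt hU1
    have h5 : Module.finrank ℝ U = 1 ∨ Module.finrank ℝ U = 2 ∨ Module.finrank ℝ U = 3 := by
      omega
    rcases h5 with h5 | h5 | h5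
    · exact vanish_inv1 D hpos hcc hX h4 hne U hU h5
    · exact vanish_flag2 D hpos hcc hX ⊤ inferInstance U hU0 hU1 (fun g _ u hu => hU g u hu)
        (by omega) (by omega)
    · exact vanish_inv3 D hpos hcc hX h4 hne U hU h5

/-- The lineality space has dimension at most two. -/
theorem vanish_two (D : Geo E) (hpos : 0 < Module.finrank ℝ E)
    (hcc : ∃ K ⊆ D.X, IsCompact K ∧ ∀ x ∈ D.X, ∃ g ∈ D.Γ, g x ∈ K) (hX : D.X ≠ Set.univ)
    (h2 : Module.finrank ℝ (linSub D) ≤ 2) : Vanish D := by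
  by_cases hV : linSub D = ⊥
  · refine vanish_of_coneFlag D hpos hcc ⟨0, fun _ => ⊥, rfl, fun v => ?_, fun i hi => ?_,
      fun h => absurd h hX⟩
    · rw [← hV]
      exact mem_linSub D v
    · exact absurd hi (Nat.not_lt_zero _)
  · refine vanish_of_coneFlag D hpos hcc (coneFlag_one D D.Γ le_rfl hX hV (Or.inl ?_))
    refine quadType_small D.Γ ⊥ (linSub D) bot_le (inv_bot _) (linSub_inv D) ?_
    rw [finrank_bot]
    omega

/-- The lineality space has dimension at most four and some nontrivial element acts trivially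
modulo it. -/
theorem vanish_le_four (D : Geo E) (hpos : 0 < Module.finrank ℝ E)
    (hcc : ∃ K ⊆ D.X, IsCompact K ∧ ∀ x ∈ D.X, ∃ g ∈ D.Γ, g x ∈ K) (hX : D.X ≠ Set.univ)
    (h4 : Module.finrank ℝ (linSub D) ≤ 4) (hne : modSub D (linSub D) ≠ ⊥) : Vanish D := by
  have h5 : Module.finrank ℝ (linSub D) ≤ 2 ∨ Module.finrank ℝ (linSub D) = 3 ∨
      Module.finrank ℝ (linSub D) = 4 := by omega
  rcases h5 with h5 | h5 | h5
  · exact vanish_two D hpos hcc hX h5
  · exact vanish_three D hpos hcc hX h5 hne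
  · exact vanish_four D hpos hcc hX h5 hne

end

end Pool.AF
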