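import Pool.Agent.Helper94.AM.Defs

open Set Finset

set_option linter.unusedSectionVars false

namespace Pool.AF

/-! ## AM-4 HYP: three-dimensional maps of determinant one without eigenvalue one

Choose a real eigenvalue `ν` of the dual map (odd degree), `φ ∘ T = ν φ`, `P = ker φ` an invariant
plane, `det (T|P) = ν⁻¹`. `ν ≠ 1`. If `|ν| > 1`: if `T|P` has no real eigenvector then
`q w = det (w, T w)` is a definite quadratic form on `P` with `q (T w) = ν⁻¹ q w`, so the orbits in
`P` are bounded and `bddOrb T = P`; if `T|P` has real eigenvalues `a, b` (`a b = ν⁻¹`, none is `1`)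
then either both have modulus `≤ 1` and at most one of them has modulus one, it is `-1` and the
other one is different: again the orbits in `P` are bounded; or one has modulus `> 1` and the other
one has modulus `< 1`, and then `S` has a two-dimensional space of vectors with bounded orbit. The
case `|ν| < 1` is the same with `T` and `S` exchanged. If `ν = -1` then `det (T|P) = -1`, `T|P` has
real eigenvalues `a, b` with `a b = -1`, `|a| ≠ 1`, and `T` is diagonalisable with eigenvalues
`-1, a, b`. -/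

open Polynomial in
private theorem hyp_root (p : ℝ[X]) (hm : p.Monic) (hd : p.natDegree = 3) :
    ∃ x, p.eval x = 0 := by
  have hp0 : 0 < p.degree := by
    rw [Polynomial.degree_eq_natDegree hm.ne_zero, hd]
    norm_num
  have h1 : Filter.Tendsto (fun x => p.eval x) Filter.atTop Filter.atTop :=
    p.tendsto_atTop_of_leadingCoeff_nonneg hp0 (by rw [hm.leadingCoeff]; norm_num)
  have hqd : (p.comp (-X)).natDegree = 3 := by
    rw [Polynomial.natDegree_comp, hd, Polynomial.natDegree_neg, Polynomial.natDegree_X]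
  have hql : (p.comp (-X)).leadingCoeff = -1 := by
    rw [Polynomial.leadingCoeff_comp (by rw [natDegree_neg, natDegree_X]; norm_num),
      hm.leadingCoeff, leadingCoeff_neg, leadingCoeff_X, hd]
    norm_num
  have hq0 : 0 < (p.comp (-X)).degree := by
    rw [Polynomial.degree_eq_natDegree
      (by intro h; rw [h, leadingCoeff_zero] at hql; norm_num at hql), hqd]
    norm_num
  have h2 : Filter.Tendsto (fun x => (p.comp (-X)).eval x) Filter.atTop Filter.atBot :=
    (p.comp (-X)).tendsto_atBot_of_leadingCoeff_nonpos hq0 (by rw [hql]; norm_num)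
  obtain ⟨x, hx⟩ := (h1.eventually (Filter.eventually_ge_atTop (0 : ℝ))).exists
  obtain ⟨y, hy⟩ := (h2.eventually (Filter.eventually_le_atBot (0 : ℝ))).exists
  have hy' : p.eval (-y) ≤ 0 := by
    rw [eval_comp, eval_neg, eval_X] at hy
    exact hy
  have hc : Continuous (fun x => p.eval x) := p.continuous
  obtain ⟨z, hz⟩ := mem_range_of_exists_le_of_exists_ge hc ⟨-y, hy'⟩ ⟨x, hx⟩
  exact ⟨z, hz⟩

private theorem hyp_bdd1 (p q : ℝ) (hpq : p ^ 2 < 4 * q) (hq : q ≤ 1) (s : ℕ → ℝ)
    (hs : ∀ n, s (n + 2) = - p * s (n + 1) - q * s n) : ∃ C, ∀ n, |s n| ≤ C := by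
  have hq0 : 0 < q := by nlinarith [sq_nonneg p]
  have hrec : ∀ n, s (n + 1) ^ 2 + p * s n * s (n + 1) + q * s n ^ 2 =
      q ^ n * (s 1 ^ 2 + p * s 0 * s 1 + q * s 0 ^ 2) := by
    intro n
    induction n with
    | zero => simp
    | succ n ih =>
      have e : q ^ (n + 1) * (s 1 ^ 2 + p * s 0 * s 1 + q * s 0 ^ 2) =
          q * (q ^ n * (s 1 ^ 2 + p * s 0 * s 1 + q * s 0 ^ 2)) := by ring
      rw [e, ← ih, hs n]
      ring
  have hpos : 0 ≤ s 1 ^ 2 + p * s 0 * s 1 + q * s 0 ^ 2 := by
    nlinarith [sq_nonneg (s 1 + p / 2 * s 0), mul_nonneg (sub_nonneg.2 hpq.le) (sq_nonneg (s 0))]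
  have hle : ∀ n, (q - p ^ 2 / 4) * s n ^ 2 ≤ s 1 ^ 2 + p * s 0 * s 1 + q * s 0 ^ 2 := by
    intro n
    have h1 : q ^ n * (s 1 ^ 2 + p * s 0 * s 1 + q * s 0 ^ 2) ≤
        1 * (s 1 ^ 2 + p * s 0 * s 1 + q * s 0 ^ 2) :=
      mul_le_mul_of_nonneg_right (pow_le_one₀ hq0.le hq) hpos
    rw [← hrec n, one_mul] at h1
    nlinarith [sq_nonneg (s (n + 1) + p / 2 * s n)]
  have hd : 0 < q - p ^ 2 / 4 := by linarith
  refine ⟨1 + (s 1 ^ 2 + p * s 0 * s 1 + q * s 0 ^ 2) / (q - p ^ 2 / 4), fun n => ?_⟩
  have h1 : s n ^ 2 ≤ (s 1 ^ 2 + p * s 0 * s 1 + q * s 0 ^ 2) / (q - p ^ 2 / 4) := by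
    rw [le_div_iff₀ hd, mul_comm]
    exact hle n
  have h2 : |s n| ≤ 1 + s n ^ 2 := by
    rw [← sq_abs]
    nlinarith [sq_nonneg (|s n| - 1), abs_nonneg (s n)]
  linarith

private theorem hyp_bdd2 (a b : ℝ) (ha : |a| ≤ 1) (hb : |b| < 1) (s : ℕ → ℝ)
    (hs : ∀ n, s (n + 2) = (a + b) * s (n + 1) - a * b * s n) : ∃ C, ∀ n, |s n| ≤ C := by
  have hd : ∀ n, |s (n + 1) - b * s n| ≤ |s 1 - b * s 0| := by
    intro n
    induction n with
    | zero => exact le_refl _
    | succ n ih =>
      have h1 : s (n + 1 + 1) - b * s (n + 1) = a * (s (n + 1) - b * s n) := by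
        rw [hs n]
        ring
      rw [h1, abs_mul]
      exact (mul_le_of_le_one_left (abs_nonneg _) ha).trans ih
  have hb' : 0 < 1 - |b| := by linarith
  have hD : 0 ≤ |s 1 - b * s 0| / (1 - |b|) := div_nonneg (abs_nonneg _) hb'.le
  refine ⟨|s 0| + |s 1 - b * s 0| / (1 - |b|), fun n => ?_⟩
  induction n with
  | zero => linarith
  | succ n ih =>
    have h1 : |s (n + 1)| ≤ |b| * |s n| + |s 1 - b * s 0| := by
      have h2 : s (n + 1) = b * s n + (s (n + 1) - b * s n) := by ring
      rw [h2]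
      exact (abs_add_le _ _).trans (add_le_add (abs_mul _ _).le (hd n))
    have h3 : |b| * |s n| ≤ |b| * (|s 0| + |s 1 - b * s 0| / (1 - |b|)) :=
      mul_le_mul_of_nonneg_left ih (abs_nonneg _)
    have h4 : |s 1 - b * s 0| = (1 - |b|) * (|s 1 - b * s 0| / (1 - |b|)) := by
      field_simp
    have h5 : |b| * |s 0| ≤ |s 0| := mul_le_of_le_one_left (abs_nonneg _) hb.le
    nlinarith

private theorem hyp_key {W : Type*} [AddCommGroup W] [Module ℝ W] [FiniteDimensional ℝ W]
    (hW : Module.finrank ℝ W = 3) (T : W →ₗ[ℝ] W) (c p q : ℝ) (hc : 1 < |c|)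
    (hg : ∀ w, T (T (T w - c • w)) + p • T (T w - c • w) + q • (T w - c • w) = 0)
    (hker : Module.finrank ℝ (LinearMap.ker (T - c • (LinearMap.id : W →ₗ[ℝ] W))) = 1)
    (hb : ∀ s : ℕ → ℝ, (∀ n, s (n + 2) = - p * s (n + 1) - q * s n) → ∃ C, ∀ n, |s n| ≤ C) :
    Module.finrank ℝ (bddOrb T) = 2 := by
  have h1 := LinearMap.finrank_range_add_finrank_ker (T - c • (LinearMap.id : W →ₗ[ℝ] W))
  rw [hker, hW] at h1
  have h2 : LinearMap.range (T - c • (LinearMap.id : W →ₗ[ℝ] W)) ≤ bddOrb T := by
    rintro w ⟨u, rfl⟩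
    rw [mem_bddOrb]
    intro φ
    apply hb
    intro n
    have h3 := hg u
    simp only [LinearMap.sub_apply, LinearMap.smul_apply, LinearMap.id_apply]
    set w := T u - c • u with hw
    have h4 : T (T w) = - p • T w - q • w := by
      have h5 : T (T w) = (T (T w) + p • T w + q • w) - p • T w - q • w := by abel
      rw [h5, h3, zero_sub, neg_smul]
    have h6 : (T ^ (n + 2)) w = (T ^ n) (T (T w)) := by
      rw [pow_add, Module.End.mul_apply, pow_two, Module.End.mul_apply]
    have h7 : (T ^ (n + 1)) w = (T ^ n) (T w) := by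
      rw [pow_succ, Module.End.mul_apply]
    rw [h6, h7, h4, map_sub, map_smul, map_smul, map_sub, map_smul, map_smul, smul_eq_mul,
      smul_eq_mul]
  have h3 := Submodule.finrank_mono h2
  have h4 : bddOrb T ≠ ⊤ := by
    intro htop
    have h5 : LinearMap.ker (T - c • (LinearMap.id : W →ₗ[ℝ] W)) ≠ ⊥ := by
      intro h
      rw [h, finrank_bot] at hker
      exact zero_ne_one hker
    obtain ⟨e, he, he0⟩ := (Submodule.ne_bot_iff _).1 h5
    have he1 : T e = c • e := by
      have h6 : (T - c • (LinearMap.id : W →ₗ[ℝ] W)) e = 0 := he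
      simp only [LinearMap.sub_apply, LinearMap.smul_apply, LinearMap.id_apply] at h6
      exact sub_eq_zero.1 h6
    have he2 : ∀ n : ℕ, (T ^ n) e = c ^ n • e := by
      intro n
      induction n with
      | zero => simp
      | succ n ih =>
        rw [pow_succ, Module.End.mul_apply, he1, map_smul, ih, smul_smul, pow_succ, mul_comm]
    have hφ : ∃ φ : W →ₗ[ℝ] ℝ, φ e ≠ 0 := by
      by_contra hcon
      push Not at hcon
      exact he0 ((Module.forall_dual_apply_eq_zero_iff ℝ e).1 hcon)
    obtain ⟨φ, hφ⟩ := hφ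
    have h7 : e ∈ bddOrb T := by
      rw [htop]
      exact Submodule.mem_top
    obtain ⟨C, hC⟩ := (mem_bddOrb T e).1 h7 φ
    have h8 : Filter.Tendsto (fun n : ℕ => |c| ^ n * |φ e|) Filter.atTop Filter.atTop :=
      (tendsto_pow_atTop_atTop_of_one_lt hc).atTop_mul_const (abs_pos.2 hφ)
    obtain ⟨n, hn⟩ := (h8.eventually (Filter.eventually_gt_atTop C)).exists
    have h9 := hC n
    rw [he2, map_smul, smul_eq_mul, abs_mul, abs_pow] at h9
    linarith
  have h5 := Submodule.finrank_lt h4
  rw [hW] at h5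
  omega

private theorem hyp_swap {W : Type*} [AddCommGroup W] [Module ℝ W] [FiniteDimensional ℝ W]
    (hW : Module.finrank ℝ W = 3) (T S : W →ₗ[ℝ] W) (hTS : T * S = 1) (hST : S * T = 1)
    (c p q : ℝ) (hc : |c| < 1) (hc0 : c ≠ 0) (hq : q ≠ 0)
    (hg : ∀ w, T (T (T w - c • w)) + p • T (T w - c • w) + q • (T w - c • w) = 0)
    (hker : Module.finrank ℝ (LinearMap.ker (T - c • (LinearMap.id : W →ₗ[ℝ] W))) = 1)
    (hb : ∀ s : ℕ → ℝ, (∀ n, s (n + 2) = - (p / q) * s (n + 1) - q⁻¹ * s n) →
      ∃ C, ∀ n, |s n| ≤ C) :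
    Module.finrank ℝ (bddOrb S) = 2 := by
  have hTS' : ∀ w, T (S w) = w := fun w => by
    rw [← Module.End.mul_apply, hTS, Module.End.one_apply]
  have hST' : ∀ w, S (T w) = w := fun w => by
    rw [← Module.End.mul_apply, hST, Module.End.one_apply]
  refine hyp_key hW S c⁻¹ (p / q) q⁻¹ ?_ ?_ ?_ hb
  · rw [abs_inv]
    exact (one_lt_inv₀ (abs_pos.2 hc0)).2 hc
  · intro w
    obtain ⟨u, rfl⟩ : ∃ u, w = T (T (T u)) := ⟨S (S (S w)), by rw [hTS', hTS', hTS']⟩
    have h1 : S (T (T (T u))) - c⁻¹ • T (T (T u)) = - c⁻¹ • T (T (T u - c • u)) := by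
      rw [hST', map_sub, map_smul, map_sub, map_smul, smul_sub, smul_smul, neg_mul,
        inv_mul_cancel₀ hc0]
      simp only [neg_smul, one_smul]
      abel
    have h2 := hg u
    rw [h1, map_smul, map_smul, hST', hST']
    set v := T u - c • u with hv
    have h3 : - c⁻¹ • v + (p / q) • (- c⁻¹ • T v) + q⁻¹ • (- c⁻¹ • T (T v)) =
        (- c⁻¹ * q⁻¹) • (T (T v) + p • T v + q • v) := by
      simp only [smul_add, smul_smul]
      have e1 : - c⁻¹ * q⁻¹ * q = - c⁻¹ := by field_simp
      have e2 : p / q * - c⁻¹ = - c⁻¹ * q⁻¹ * p := by field_simp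
      have e3 : q⁻¹ * - c⁻¹ = - c⁻¹ * q⁻¹ := by ring
      rw [e1, e2, e3]
      abel
    rw [h3, h2, smul_zero]
  · have h1 : LinearMap.ker (S - c⁻¹ • (LinearMap.id : W →ₗ[ℝ] W)) =
        LinearMap.ker (T - c • (LinearMap.id : W →ₗ[ℝ] W)) := by
      ext w
      simp only [LinearMap.mem_ker, LinearMap.sub_apply, LinearMap.smul_apply,
        LinearMap.id_apply, sub_eq_zero]
      constructor
      · intro h
        have h2 := congrArg (fun x => c • T x) h
        simp only [hTS', map_smul, smul_smul, mul_inv_cancel₀ hc0, one_smul] at h2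
        exact h2.symm
      · intro h
        have h2 := congrArg (fun x => c⁻¹ • S x) h
        simp only [hST', map_smul, smul_smul, inv_mul_cancel₀ hc0, one_smul] at h2
        exact h2.symm
    rw [h1]
    exact hker

open Polynomial in
private theorem hyp_fact {W : Type*} [AddCommGroup W] [Module ℝ W] [FiniteDimensional ℝ W]
    (hW : Module.finrank ℝ W = 3) (T : W →ₗ[ℝ] W) (hdet : LinearMap.det T = 1) :
    ∃ c p q : ℝ, T.charpoly = (X - C c) * (X ^ 2 + C p * X + C q) ∧ c * q = 1 := by
  have hm := T.charpoly_monic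
  have hd : T.charpoly.natDegree = 3 := by rw [LinearMap.charpoly_natDegree, hW]
  obtain ⟨c, hc⟩ := hyp_root _ hm hd
  obtain ⟨g, hg⟩ := Polynomial.dvd_iff_isRoot.2 hc
  have hgm : g.Monic := by
    have h1 := hm
    rw [hg] at h1
    exact (monic_X_sub_C c).of_mul_monic_left h1
  have hgd : g.natDegree = 2 := by
    have h1 := hd
    rw [hg, (monic_X_sub_C c).natDegree_mul hgm, natDegree_X_sub_C] at h1
    omega
  have hg2 : g = X ^ 2 + C (g.coeff 1) * X + C (g.coeff 0) := by
    have h1 : g.coeff 2 = 1 := by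
      rw [← hgd]
      exact hgm.coeff_natDegree
    conv_lhs => rw [g.as_sum_range_C_mul_X_pow, hgd]
    rw [Finset.sum_range_succ, Finset.sum_range_succ, Finset.sum_range_one, h1]
    simp only [map_one, one_mul, pow_one, pow_zero, mul_one]
    ring
  refine ⟨c, g.coeff 1, g.coeff 0, ?_, ?_⟩
  · rw [← hg2]
    exact hg
  · have h1 := LinearMap.det_eq_sign_charpoly_coeff T
    rw [hdet, hW, hg, mul_coeff_zero] at h1
    simp only [coeff_sub, coeff_X_zero, coeff_C_zero] at h1
    linarith

open Polynomial in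
private theorem hyp_of_fact {W : Type*} [AddCommGroup W] [Module ℝ W] [FiniteDimensional ℝ W]
    (T : W →ₗ[ℝ] W) (c p q : ℝ)
    (hch : T.charpoly = (X - C c) * (X ^ 2 + C p * X + C q)) (hgc : c ^ 2 + p * c + q ≠ 0) :
    (∀ w, T (T (T w - c • w)) + p • T (T w - c • w) + q • (T w - c • w) = 0) ∧
      Module.finrank ℝ (LinearMap.ker (T - c • (LinearMap.id : W →ₗ[ℝ] W))) = 1 := by
  constructor
  · intro w
    have h1 := LinearMap.aeval_self_charpoly T
    rw [hch, mul_comm, map_mul] at h1
    have h2 := LinearMap.congr_fun h1 w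
    rw [Module.End.mul_apply] at h2
    simp only [map_add, map_mul, map_sub, aeval_X, aeval_C, LinearMap.add_apply,
      LinearMap.sub_apply, Module.End.mul_apply, Module.algebraMap_end_apply, pow_two,
      LinearMap.zero_apply, map_smul] at h2
    simp only [map_sub, map_smul]
    rw [← h2]
    module
  · have h0 : LinearMap.ker (T - c • (LinearMap.id : W →ₗ[ℝ] W)) =
        Module.End.eigenspace T c := by
      rw [Module.End.eigenspace_def]
      rfl
    have hne : T.charpoly ≠ 0 := T.charpoly_monic.ne_zero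
    have h1 : T.charpoly.rootMultiplicity c = 1 := by
      rw [hch] at hne ⊢
      rw [rootMultiplicity_mul hne, rootMultiplicity_X_sub_C_self,
        rootMultiplicity_eq_zero]
      rw [IsRoot.def]
      simp only [eval_add, eval_mul, eval_pow, eval_X, eval_C]
      exact hgc
    have h2 := LinearMap.finrank_eigenspace_le T c
    rw [h1] at h2
    have h3 : Module.End.eigenspace T c ≠ ⊥ := by
      have h4 : Module.End.HasEigenvalue T c := by
        rw [Module.End.hasEigenvalue_iff_isRoot_charpoly, hch, IsRoot.def]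
        simp
      exact h4
    have h5 : 0 < Module.finrank ℝ (Module.End.eigenspace T c) := by
      rw [Module.finrank_pos_iff]
      exact Submodule.nontrivial_iff_ne_bot.2 h3
    rw [h0]
    omega

open Polynomial in
private theorem hyp_real {W : Type*} [AddCommGroup W] [Module ℝ W] [FiniteDimensional ℝ W]
    (hW : Module.finrank ℝ W = 3) (T S : W →ₗ[ℝ] W) (hTS : T * S = 1) (hST : S * T = 1)
    (a b c : ℝ) (hch : T.charpoly = (X - C c) * ((X - C b) * (X - C a)))
    (hab : |a| ≤ |b|) (hbc : |b| ≤ |c|) (habc : a * b * c = 1)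
    (ha1 : a ≠ 1) (hb1 : b ≠ 1) (hc1 : c ≠ 1) :
    Module.finrank ℝ (bddOrb T) = 2 ∨ Module.finrank ℝ (bddOrb S) = 2 := by
  have habs : |a| * |b| * |c| = 1 := by
    rw [← abs_mul, ← abs_mul, habc, abs_one]
  have hA := abs_nonneg a
  have hB := abs_nonneg b
  have hC := abs_nonneg c
  have hc' : 1 < |c| := by
    by_contra hcon
    push Not at hcon
    have hb2 : |b| ≤ 1 := hbc.trans hcon
    have ha2 : |a| ≤ 1 := hab.trans hb2
    have ha3 : |a| = 1 := by
      apply le_antisymm ha2
      have h1 : |b| * |c| ≤ 1 := by nlinarith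
      nlinarith
    have hb3 : |b| = 1 := le_antisymm hb2 (ha3 ▸ hab)
    have hc3 : |c| = 1 := le_antisymm hcon (hb3 ▸ hbc)
    have ha4 : a = -1 := ((abs_eq zero_le_one).1 ha3).resolve_left ha1
    have hb4 : b = -1 := ((abs_eq zero_le_one).1 hb3).resolve_left hb1
    have hc4 : c = -1 := ((abs_eq zero_le_one).1 hc3).resolve_left hc1
    rw [ha4, hb4, hc4] at habc
    norm_num at habc
  have ha' : |a| < 1 := by
    by_contra hcon
    push Not at hcon
    have hb2 : 1 ≤ |b| := hcon.trans hab
    have h1 : 1 ≤ |a| * |b| := by nlinarith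
    nlinarith
  by_cases hb' : |b| ≤ 1
  · left
    have hch' : T.charpoly = (X - C c) * (X ^ 2 + C (-(a + b)) * X + C (a * b)) := by
      rw [hch]
      simp only [map_neg, map_add, map_mul]
      ring
    have hca : c - a ≠ 0 := by
      intro h
      rw [sub_eq_zero] at h
      rw [h] at hc'
      linarith
    have hcb : c - b ≠ 0 := by
      intro h
      rw [sub_eq_zero] at h
      rw [h] at hc'
      linarith
    obtain ⟨h1, h2⟩ := hyp_of_fact T c (-(a + b)) (a * b) hch' (by
      have h3 : c ^ 2 + -(a + b) * c + a * b = (c - a) * (c - b) := by ring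
      rw [h3]
      exact mul_ne_zero hca hcb)
    refine hyp_key hW T c _ _ hc' h1 h2 (fun s hs => hyp_bdd2 b a hb' ha' s fun n => ?_)
    rw [hs n]
    ring
  · right
    push Not at hb'
    have ha0 : a ≠ 0 := by
      rintro rfl
      rw [zero_mul, zero_mul] at habc
      exact zero_ne_one habc
    have hb0 : b ≠ 0 := by
      rintro rfl
      rw [mul_zero, zero_mul] at habc
      exact zero_ne_one habc
    have hc0 : c ≠ 0 := by
      rintro rfl
      rw [mul_zero] at habc
      exact zero_ne_one habc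
    have hch' : T.charpoly = (X - C a) * (X ^ 2 + C (-(b + c)) * X + C (b * c)) := by
      rw [hch]
      simp only [map_neg, map_add, map_mul]
      ring
    have hab2 : a - b ≠ 0 := by
      intro h
      rw [sub_eq_zero] at h
      rw [h] at ha'
      linarith
    have hac : a - c ≠ 0 := by
      intro h
      rw [sub_eq_zero] at h
      rw [h] at ha'
      linarith
    obtain ⟨h1, h2⟩ := hyp_of_fact T a (-(b + c)) (b * c) hch' (by
      have h3 : a ^ 2 + -(b + c) * a + b * c = (a - b) * (a - c) := by ring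
      rw [h3]
      exact mul_ne_zero hab2 hac)
    refine hyp_swap hW T S hTS hST a _ _ ha' ha0 (mul_ne_zero hb0 hc0) h1 h2
      (fun s hs => hyp_bdd2 b⁻¹ c⁻¹ ?_ ?_ s fun n => ?_)
    · rw [abs_inv]
      exact inv_le_one_of_one_le₀ hb'.le
    · rw [abs_inv]
      exact inv_lt_one_of_one_lt₀ hc'
    · rw [hs n]
      field_simp
      ring

theorem hyp {W : Type*} [AddCommGroup W] [Module ℝ W] [FiniteDimensional ℝ W]
    (hW : Module.finrank ℝ W = 3) (T S : W →ₗ[ℝ] W) (hTS : T * S = 1) (hST : S * T = 1)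
    (hdet : LinearMap.det T = 1) (hfix : ∀ w, T w = w → w = 0) :
    Module.finrank ℝ (bddOrb T) = 2 ∨ Module.finrank ℝ (bddOrb S) = 2 := by
  obtain ⟨c, p, q, hch, hcq⟩ := hyp_fact hW T hdet
  have heig : T.charpoly.eval 1 ≠ 0 := by
    intro h
    have h4 : Module.End.HasEigenvalue T 1 := by
      rw [Module.End.hasEigenvalue_iff_isRoot_charpoly]
      exact h
    obtain ⟨w, hw⟩ := h4.exists_hasEigenvector
    have h5 := hw.apply_eq_smul
    rw [one_smul] at h5
    exact hw.2 (hfix w h5)
  have hq0 : q ≠ 0 := by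
    rintro rfl
    rw [mul_zero] at hcq
    exact zero_ne_one hcq
  have hc0 : c ≠ 0 := by
    rintro rfl
    rw [zero_mul] at hcq
    exact zero_ne_one hcq
  by_cases hdisc : p ^ 2 < 4 * q
  · have hq : 0 < q := by nlinarith [sq_nonneg p]
    have hc : 0 < c := by
      by_contra hcon
      push Not at hcon
      nlinarith
    have hc1 : c ≠ 1 := by
      rintro rfl
      apply heig
      rw [hch]
      simp
    obtain ⟨h1, h2⟩ := hyp_of_fact T c p q hch (by
      nlinarith [sq_nonneg (c + p / 2)])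
    rcases lt_or_gt_of_ne hc1 with h | h
    · right
      have hq1 : 1 ≤ q := by
        by_contra hcon
        push Not at hcon
        nlinarith
      refine hyp_swap hW T S hTS hST c p q (by rwa [abs_of_pos hc]) hc0 hq0 h1 h2
        (fun s hs => hyp_bdd1 (p / q) q⁻¹ ?_ (inv_le_one_of_one_le₀ hq1) s fun n => ?_)
      · rw [div_pow, div_lt_iff₀ (by positivity)]
        have h3 : 4 * q⁻¹ * q ^ 2 = 4 * q := by
          field_simp
        rw [h3]
        exact hdisc
      · rw [hs n]
    · left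
      have hq1 : q ≤ 1 := by
        by_contra hcon
        push Not at hcon
        nlinarith
      exact hyp_key hW T c p q (by rwa [abs_of_pos hc]) h1 h2
        (fun s hs => hyp_bdd1 p q hdisc hq1 s hs)
  · push Not at hdisc
    obtain ⟨r, hr⟩ : ∃ r : ℝ, r ^ 2 = p ^ 2 - 4 * q :=
      ⟨Real.sqrt (p ^ 2 - 4 * q), Real.sq_sqrt (by linarith)⟩
    obtain ⟨a, b, hpab, hqab⟩ : ∃ a b : ℝ, p = -(a + b) ∧ q = a * b :=
      ⟨(-p + r) / 2, (-p - r) / 2, by ring, by linear_combination (1 / 4 : ℝ) * hr⟩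
    have hch0 : T.charpoly = (Polynomial.X - Polynomial.C c) *
        ((Polynomial.X - Polynomial.C b) * (Polynomial.X - Polynomial.C a)) := by
      rw [hch, hpab, hqab]
      simp only [map_neg, map_add, map_mul]
      ring
    have ha1 : a ≠ 1 := by
      rintro rfl
      apply heig
      rw [hch0]
      simp
    have hb1 : b ≠ 1 := by
      rintro rfl
      apply heig
      rw [hch0]
      simp
    have hc1 : c ≠ 1 := by
      rintro rfl
      apply heig
      rw [hch0]
      simp
    have habc : a * b * c = 1 := by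
      rw [← hqab, mul_comm]
      exact hcq
    rcases le_total |a| |b| with hab | hab <;> rcases le_total |b| |c| with hbc | hbc <;>
      rcases le_total |a| |c| with hac | hac
    · exact hyp_real hW T S hTS hST a b c hch0 hab hbc habc ha1 hb1 hc1
    · exact hyp_real hW T S hTS hST a b c hch0 hab hbc habc ha1 hb1 hc1
    · exact hyp_real hW T S hTS hST a c b (by rw [hch0]; ring) hac hbc (by linarith) ha1 hc1 hb1
    · exact hyp_real hW T S hTS hST c a b (by rw [hch0]; ring) hac hab (by linarith) hc1 ha1 hb1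
    · exact hyp_real hW T S hTS hST b a c (by rw [hch0]; ring) hab hac (by linarith) hb1 ha1 hc1
    · exact hyp_real hW T S hTS hST b c a (by rw [hch0]; ring) hbc hac (by linarith) hb1 hc1 ha1
    · exact hyp_real hW T S hTS hST c b a (by rw [hch0]; ring) hbc hab (by linarith) hc1 hb1 ha1
    · exact hyp_real hW T S hTS hST c b a (by rw [hch0]; ring) hbc hab (by linarith) hc1 hb1 ha1

end Pool.AF
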