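import Pool.Agent.Helper94.AM.Defs

open Set Finset

set_option linter.unusedSectionVars false

namespace Pool.AF

open Pool.SV

/-! ## AM-5 MARG: a Margulis type argument

`V = linSub D`. `W = V / U`, `R = (δ - 1) V`; `V = U ⊕ R` (`δ = 1` on `U`, `δ - 1` injective on
`W`), and `V / U ≅ R` is equivariant for `δ`. Let `P ≤ V` be the preimage of `bddOrb (δ on W)`.
(1) for `p ∈ P` the vectors `δ ^ n p` are bounded in `V` (write `p = u + r`).
(2) pick `x₀ ∈ X`, `δ x₀ - x₀ = a + (δ - 1) v₁` with `a ∈ U`, put `z = x₀ - v₁`: `δ z = z + a`.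
(3) `z' = h z`, so `(h δ h⁻¹) z' = z' + a`, and `z' - z ∈ V = P + h P`: `z' - z = p + h q`; put
`y = z + p = z' - h q`. Then `δ ^ n y - n a = z + δ ^ n p` is bounded, and
`(h δ ^ n h⁻¹) y - n a = z' - h δ ^ n q` is bounded.
(4) `y_n = y - n a ∈ X`, `x_n = (h δ ^ n h⁻¹) y_n = z' - h δ ^ n q` and
`(δ ^ n) (h δ ^ (-n) h⁻¹) x_n = δ ^ n y_n = z + δ ^ n p`: both are in a compact subset of
`z + V ⊆ X`. By proper discontinuity the elements `δ ^ n h δ ^ (-n) h⁻¹` take finitely many values,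
so `δ ^ k h = h δ ^ k` for some `k > 0`.
(5) then `h P ≤ P`, so `V = P + h P = P`. -/

section MargAux

variable {V : Type*} [AddCommGroup V] [Module ℝ V] [FiniteDimensional ℝ V]

/-- The splitting `V = U ⊕ (T - 1) V`. -/
private theorem marg_split (U : Submodule ℝ V) (T : V →ₗ[ℝ] V) (hT : ∀ u ∈ U, T u = u)
    (TW : (V ⧸ U) →ₗ[ℝ] (V ⧸ U)) (hTW : ∀ v, TW (U.mkQ v) = U.mkQ (T v))
    (hfix : ∀ w, TW w = w → w = 0) :
    ∃ S : (V ⧸ U) →ₗ[ℝ] V, (∀ v, v - S (U.mkQ v) ∈ U) ∧ (∀ w, T (S w) = S (TW w)) ∧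
      (∀ w, ∃ v, S w = T v - v) := by
  let Tb : (V ⧸ U) →ₗ[ℝ] V := U.liftQ (T - LinearMap.id) (by
    intro u hu
    rw [LinearMap.mem_ker, LinearMap.sub_apply, LinearMap.id_apply, hT u hu, sub_self])
  have hTb : ∀ v, Tb (U.mkQ v) = T v - v := fun v => by
    simp [Tb]
  let A : (V ⧸ U) →ₗ[ℝ] (V ⧸ U) := TW - LinearMap.id
  have hA : ∀ w, A w = TW w - w := fun w => rfl
  have hinj : Function.Injective A := by
    rw [← LinearMap.ker_eq_bot, LinearMap.ker_eq_bot']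
    intro w hw
    refine hfix w ?_
    rw [hA, sub_eq_zero] at hw
    exact hw
  let e : (V ⧸ U) ≃ₗ[ℝ] (V ⧸ U) := LinearEquiv.ofInjectiveEndo A hinj
  have he : ∀ w, e w = TW w - w := fun w => rfl
  have hmk : ∀ w, U.mkQ (Tb w) = e w := by
    intro w
    obtain ⟨v, rfl⟩ := U.mkQ_surjective w
    rw [hTb, map_sub, he, hTW]
  refine ⟨Tb.comp e.symm.toLinearMap, ?_, ?_, ?_⟩
  · intro v
    have h1 : U.mkQ (v - Tb (e.symm (U.mkQ v))) = 0 := by
      rw [map_sub, hmk, e.apply_symm_apply, sub_self]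
    rw [← LinearMap.mem_ker, Submodule.ker_mkQ] at h1
    exact h1
  · intro w
    show T (Tb (e.symm w)) = Tb (e.symm (TW w))
    have h1 : ∀ w', T (Tb w') = Tb (TW w') := by
      intro w'
      obtain ⟨v, rfl⟩ := U.mkQ_surjective w'
      rw [hTb, hTW, hTb, map_sub]
    have h2 : e.symm (TW w) = TW (e.symm w) := by
      apply e.injective
      rw [e.apply_symm_apply, he, ← map_sub, ← he, e.apply_symm_apply]
    rw [h1, h2]
  · intro w
    obtain ⟨v, hv⟩ := U.mkQ_surjective (e.symm w)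
    refine ⟨v, ?_⟩
    show Tb (e.symm w) = _
    rw [← hv, hTb]

private theorem marg_bdd (U : Submodule ℝ V) (T : V →ₗ[ℝ] V) (hT : ∀ u ∈ U, T u = u)
    (TW : (V ⧸ U) →ₗ[ℝ] (V ⧸ U)) (S : (V ⧸ U) →ₗ[ℝ] V)
    (h1 : ∀ v, v - S (U.mkQ v) ∈ U) (h2 : ∀ w, T (S w) = S (TW w)) (p : V)
    (hp : U.mkQ p ∈ bddOrb TW) (φ : V →ₗ[ℝ] ℝ) : ∃ C : ℝ, ∀ n : ℕ, |φ ((T ^ n) p)| ≤ C := by
  have hU : ∀ n : ℕ, ∀ u ∈ U, (T ^ n) u = u := by
    intro n u hu
    induction n with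
    | zero => rfl
    | succ n ih => rw [pow_succ', Module.End.mul_apply, ih, hT u hu]
  have hS : ∀ n : ℕ, ∀ w, (T ^ n) (S w) = S ((TW ^ n) w) := by
    intro n w
    induction n with
    | zero => rfl
    | succ n ih => rw [pow_succ', Module.End.mul_apply, ih, h2, pow_succ', Module.End.mul_apply]
  obtain ⟨C, hC⟩ := hp (φ.comp S)
  refine ⟨|φ (p - S (U.mkQ p))| + C, fun n => ?_⟩
  have h3 : (T ^ n) p = (p - S (U.mkQ p)) + S ((TW ^ n) (U.mkQ p)) := by
    rw [← hS n, ← hU n _ (h1 p), ← map_add, sub_add_cancel]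
  rw [h3, map_add]
  exact (abs_add_le _ _).trans (add_le_add le_rfl (hC n))

end MargAux

private theorem marg_norm {V : Type*} [NormedAddCommGroup V] [NormedSpace ℝ V]
    [FiniteDimensional ℝ V] (f : ℕ → V) (hf : ∀ φ : V →ₗ[ℝ] ℝ, ∃ C : ℝ, ∀ n : ℕ, |φ (f n)| ≤ C) :
    ∃ C : ℝ, ∀ n, ‖f n‖ ≤ C := by
  let b := Module.finBasis ℝ V
  choose C hC using fun i => hf (b.coord i)
  refine ⟨∑ i, C i * ‖b i‖, fun n => ?_⟩
  conv_lhs => rw [← b.sum_repr (f n)]
  refine (norm_sum_le _ _).trans (Finset.sum_le_sum fun i _ => ?_)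
  rw [norm_smul, Real.norm_eq_abs]
  exact mul_le_mul_of_nonneg_right (hC i n) (norm_nonneg _)

theorem marg {E : Type*} [NormedAddCommGroup E] [NormedSpace ℝ E] [FiniteDimensional ℝ E]
    (D : Geo E) (U : Submodule ℝ (linSub D)) (hU : ∀ g, ∀ u ∈ U, linRep D g u ∈ U)
    (δ h : D.Γ) (hδ : δ ∈ modSub D (linSub D)) (hh : h ∈ modSub D (linSub D))
    (hδU : ∀ u ∈ U, linRep D δ u = u) (hhU : ∀ u ∈ U, linRep D h u = u)
    (hfix : ∀ w, quoRep (linRep D) U hU δ w = w → w = 0)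
    (hsum : bddOrb (quoRep (linRep D) U hU δ) ⊔
      (bddOrb (quoRep (linRep D) U hU δ)).map (quoRep (linRep D) U hU h) = ⊤) :
    bddOrb (quoRep (linRep D) U hU δ) = ⊤ := by
  obtain ⟨S, hS1, hS2, hS3⟩ := marg_split U (linRep D δ) hδU (quoRep (linRep D) U hU δ)
    (fun v => rfl) hfix
  have hadd : ∀ (g : D.Γ) (x v : E), g.1 (x + v) = g.1 x + g.1.linear v := by
    intro g x v
    rw [aff_eq' g.1 (x + v), aff_eq' g.1 x, map_add]
    abel
  have hlin : ∀ x ∈ D.X, ∀ v : linSub D, x + (v : E) ∈ D.X := by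
    intro x hx v
    have := v.2 x hx 1
    rwa [one_smul] at this
  -- (2)
  obtain ⟨x₀, hx₀⟩ := D.nonempty
  obtain ⟨v₁, hv₁⟩ := hS3 (U.mkQ ⟨δ.1 x₀ - x₀, hδ x₀ hx₀⟩)
  set d₀ : linSub D := ⟨δ.1 x₀ - x₀, hδ x₀ hx₀⟩ with hd₀
  set a : linSub D := d₀ - S (U.mkQ d₀) with ha
  have haU : a ∈ U := hS1 d₀
  set z : E := x₀ + ((-v₁ : linSub D) : E) with hz
  have hzX : z ∈ D.X := hlin x₀ hx₀ _
  have hδz : δ.1 z = z + (a : E) := by
    have e1 : (a : E) = δ.1 x₀ - x₀ - (δ.1.linear (v₁ : E) - v₁) := by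
      rw [ha, hv₁]
      rfl
    rw [hz, hadd, e1]
    have e2 : δ.1.linear ((-v₁ : linSub D) : E) = -δ.1.linear (v₁ : E) := by
      rw [Submodule.coe_neg, map_neg]
    rw [e2, Submodule.coe_neg]
    abel
  have hδa : δ.1.linear (a : E) = a := by
    have := linRep_apply D δ a
    rw [hδU a haU] at this
    exact this.symm
  have hha : h.1.linear (a : E) = a := by
    have := linRep_apply D h a
    rw [hhU a haU] at this
    exact this.symm
  have hδn : ∀ n : ℕ, (δ ^ n).1 z = z + (n : ℝ) • (a : E) := by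
    intro n
    induction n with
    | zero => simp
    | succ n ih =>
      have e1 : (δ ^ (n + 1)).1 z = δ.1 ((δ ^ n).1 z) := by
        rw [pow_succ']
        rfl
      rw [e1, ih, hadd, hδz, map_smul, hδa]
      push_cast
      module
  have hδnlin : ∀ (n : ℕ) (v : linSub D),
      (δ ^ n).1.linear (v : E) = (((linRep D δ) ^ n) v : linSub D) := by
    intro n v
    rw [← map_pow]
    rfl
  have hδna : ∀ n : ℕ, (δ ^ n).1.linear (a : E) = a := by
    intro n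
    rw [hδnlin]
    congr 1
    induction n with
    | zero => rfl
    | succ n ih => rw [pow_succ', Module.End.mul_apply, ih, hδU a haU]
  -- (3)
  set z' : E := h.1 z with hz'
  have hz'X : z' ∈ D.X := D.inv h.1 h.2 z hzX
  obtain ⟨p, q, hp, hq, hpq⟩ : ∃ p q : linSub D,
      U.mkQ p ∈ bddOrb (quoRep (linRep D) U hU δ) ∧ U.mkQ q ∈ bddOrb (quoRep (linRep D) U hU δ) ∧
      z' - z = (p : E) + h.1.linear (q : E) := by
    have h1 : U.mkQ ⟨h.1 z - z, hh z hzX⟩ ∈ (⊤ : Submodule ℝ (linSub D ⧸ U)) :=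
      Submodule.mem_top
    rw [← hsum] at h1
    obtain ⟨p', hp', r', hr', hpr⟩ := Submodule.mem_sup.1 h1
    obtain ⟨q', hq', rfl⟩ := Submodule.mem_map.1 hr'
    obtain ⟨p₀, rfl⟩ := U.mkQ_surjective p'
    obtain ⟨q₀, rfl⟩ := U.mkQ_surjective q'
    set w₀ : linSub D := ⟨h.1 z - z, hh z hzX⟩ with hw₀
    have h2 : w₀ - (p₀ + linRep D h q₀) ∈ U := by
      rw [← Submodule.ker_mkQ U, LinearMap.mem_ker, map_sub, map_add, sub_eq_zero]
      exact hpr.symm
    refine ⟨p₀ + (w₀ - (p₀ + linRep D h q₀)), q₀, ?_, hq', ?_⟩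
    · have h3 : U.mkQ (w₀ - (p₀ + linRep D h q₀)) = 0 := by
        rw [← LinearMap.mem_ker, Submodule.ker_mkQ]
        exact h2
      rw [map_add, h3, add_zero]
      exact hp'
    · have h3 : z' - z = (w₀ : E) := rfl
      have h4 : ((p₀ + (w₀ - (p₀ + linRep D h q₀)) : linSub D) : E) =
          w₀ - h.1.linear (q₀ : E) := by
        push_cast
        rw [linRep_apply]
        abel
      rw [h3, h4]
      abel
  obtain ⟨C₁, hC₁⟩ := marg_norm (fun n => ((linRep D δ) ^ n) p)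
    (marg_bdd U (linRep D δ) hδU (quoRep (linRep D) U hU δ) S hS1 hS2 p hp)
  obtain ⟨C₂, hC₂⟩ := marg_norm (fun n => -(linRep D h (((linRep D δ) ^ n) q))) (by
    intro φ
    obtain ⟨C, hC⟩ := marg_bdd U (linRep D δ) hδU (quoRep (linRep D) U hU δ) S hS1 hS2 q hq
      (φ.comp (linRep D h))
    refine ⟨C, fun n => ?_⟩
    rw [map_neg, abs_neg]
    exact hC n)
  set C := max C₁ C₂ with hC
  -- (4)
  set K : Set E := (fun v : linSub D => z + (v : E)) '' Metric.closedBall 0 C ∪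
    (fun v : linSub D => z' + (v : E)) '' Metric.closedBall 0 C with hK
  have hKc : IsCompact K := by
    haveI : ProperSpace (linSub D) := FiniteDimensional.proper ℝ _
    refine IsCompact.union ?_ ?_
    · exact (isCompact_closedBall _ _).image (by fun_prop)
    · exact (isCompact_closedBall _ _).image (by fun_prop)
  have hKX : K ⊆ D.X := by
    rintro _ (⟨v, -, rfl⟩ | ⟨v, -, rfl⟩)
    · exact hlin z hzX v
    · exact hlin z' hz'X v
  have hfin := D.pd K hKX hKc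
  have hmem : ∀ n : ℕ, (δ ^ n * h * (δ ^ n)⁻¹ * h⁻¹).1 ∈
      {g : E ≃ᵃ[ℝ] E | g ∈ D.Γ ∧ ∃ x ∈ K, g x ∈ K} := by
    intro n
    refine ⟨(δ ^ n * h * (δ ^ n)⁻¹ * h⁻¹).2, ?_⟩
    -- the point
    set yn : E := z + (p : E) + -((n : ℝ) • (a : E)) with hyn
    have e1 : (δ ^ n).1 yn = z + (((linRep D δ) ^ n) p : linSub D) := by
      rw [hyn, hadd, hadd, hδn, map_neg, map_smul, hδna, hδnlin]
      abel
    have e2 : yn = h.1 (z + -(q : E) + -((n : ℝ) • (a : E))) := by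
      rw [hadd, hadd, map_neg, map_neg, map_smul, hha, hyn]
      have : (p : E) = z' - z - h.1.linear (q : E) := by rw [hpq]; abel
      rw [this]
      abel
    have e3 : (h * δ ^ n * h⁻¹).1 yn = z' + ((-(linRep D h (((linRep D δ) ^ n) q)) : linSub D) : E)
        := by
      have f1 : (h * δ ^ n * h⁻¹).1 yn = h.1 ((δ ^ n).1 ((h⁻¹).1 yn)) := rfl
      have f2 : (h⁻¹).1 yn = z + -(q : E) + -((n : ℝ) • (a : E)) := by
        rw [e2]
        exact h.1.symm_apply_apply _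
      have f3 : (δ ^ n).1 (z + -(q : E) + -((n : ℝ) • (a : E))) =
          z + -((((linRep D δ) ^ n) q : linSub D) : E) := by
        rw [hadd, hadd, hδn, map_neg, map_neg, map_smul, hδna, hδnlin]
        abel
      rw [f1, f2, f3, hadd, map_neg, Submodule.coe_neg, linRep_apply]
    refine ⟨(h * δ ^ n * h⁻¹).1 yn, ?_, ?_⟩
    · right
      refine ⟨-(linRep D h (((linRep D δ) ^ n) q)), ?_, e3.symm⟩
      rw [mem_closedBall_zero_iff]
      exact (hC₂ n).trans (le_max_right _ _)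
    · left
      refine ⟨((linRep D δ) ^ n) p, ?_, ?_⟩
      · rw [mem_closedBall_zero_iff]
        exact (hC₁ n).trans (le_max_left _ _)
      · have f1 : (δ ^ n * h * (δ ^ n)⁻¹ * h⁻¹).1 ((h * δ ^ n * h⁻¹).1 yn) =
            ((δ ^ n * h * (δ ^ n)⁻¹ * h⁻¹) * (h * δ ^ n * h⁻¹)).1 yn := rfl
        have f2 : (δ ^ n * h * (δ ^ n)⁻¹ * h⁻¹) * (h * δ ^ n * h⁻¹) = δ ^ n := by group
        rw [f1, f2, e1]
  obtain ⟨m, n, hmn, hmn'⟩ := Set.Finite.exists_lt_map_eq_of_forall_mem hmem hfin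
  have hcomm : ∃ k : ℕ, 0 < k ∧ h * δ ^ k = δ ^ k * h := by
    refine ⟨n - m, Nat.sub_pos_of_lt hmn, ?_⟩
    have h1 : δ ^ m * h * (δ ^ m)⁻¹ * h⁻¹ = δ ^ n * h * (δ ^ n)⁻¹ * h⁻¹ := Subtype.ext hmn'
    have h2 : δ ^ n = δ ^ m * δ ^ (n - m) := by
      rw [← pow_add]
      congr 1
      omega
    have h3 : δ ^ m * h * (δ ^ m)⁻¹ = δ ^ n * h * (δ ^ n)⁻¹ := mul_right_cancel h1
    have h5 : h = δ ^ (n - m) * h * (δ ^ (n - m))⁻¹ := by
      have h6 : h = (δ ^ m)⁻¹ * (δ ^ m * h * (δ ^ m)⁻¹) * δ ^ m := by group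
      rw [h3, h2] at h6
      refine h6.trans ?_
      generalize δ ^ (n - m) = c
      generalize δ ^ m = d
      group
    have h7 : h * δ ^ (n - m) = δ ^ (n - m) * h * (δ ^ (n - m))⁻¹ * δ ^ (n - m) := by
      rw [← h5]
    rw [h7, inv_mul_cancel_right]
  obtain ⟨k, hk, hcomm⟩ := hcomm
  -- (5)
  have hle : (bddOrb (quoRep (linRep D) U hU δ)).map (quoRep (linRep D) U hU h) ≤
      bddOrb (quoRep (linRep D) U hU δ) := by
    rintro _ ⟨w, hw, rfl⟩ φ
    choose Cw hCw using fun i : ℕ => hw (φ.comp (((quoRep (linRep D) U hU δ) ^ i).comp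
      (quoRep (linRep D) U hU h)))
    refine ⟨∑ i ∈ Finset.range k, Cw i, fun n => ?_⟩
    have hCw0 : ∀ i, 0 ≤ Cw i := fun i => (abs_nonneg _).trans (hCw i 0)
    have h1 : n = n % k + k * (n / k) := (Nat.mod_add_div n k).symm
    have h2 : quoRep (linRep D) U hU h * (quoRep (linRep D) U hU δ) ^ (k * (n / k)) =
        (quoRep (linRep D) U hU δ) ^ (k * (n / k)) * quoRep (linRep D) U hU h := by
      rw [← map_pow, ← map_mul, ← map_mul]
      congr 1
      have h3 : Commute h (δ ^ k) := hcomm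
      rw [pow_mul]
      exact (h3.pow_right (n / k)).eq
    have h4 : ((quoRep (linRep D) U hU δ) ^ n) (quoRep (linRep D) U hU h w) =
        ((quoRep (linRep D) U hU δ) ^ (n % k)) (quoRep (linRep D) U hU h
          (((quoRep (linRep D) U hU δ) ^ (k * (n / k))) w)) := by
      conv_lhs => rw [h1]
      rw [pow_add, Module.End.mul_apply, ← Module.End.mul_apply (quoRep (linRep D) U hU h),
        h2, Module.End.mul_apply]
    rw [h4]
    refine (hCw (n % k) (k * (n / k))).trans ?_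
    exact Finset.single_le_sum (f := Cw) (fun i _ => hCw0 i)
      (Finset.mem_range.2 (Nat.mod_lt n hk))
  rw [← hsum]
  exact (sup_eq_left.2 hle).symm

end Pool.AF
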