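import Pool.Agent.Helper94.AM.Defs
import Pool.Agent.Helper94.AF.RecI
import Pool.Agent.Helper94.AF.FlagTau

open Set Finset

set_option linter.unusedSectionVars false

namespace Pool.AF

open Pool.SV

/-! ## AM-8 RECNE: the recession cone is larger than the lineality space

Suppose `V = Rec X`. `top_bounded` (with `e` from `exists_adapted` for the flag `0 ≤ V`, `r = 1`)
gives `R` with `‖(1 - e) hat(g) (1 - e)‖ ≤ R` for all `g ∈ Γ`. Let `K ⊆ X` be compact with
`Γ K = X` and let the `δ`-neighbourhood of `K` be contained in `X`. If `x ∈ X`, `y ∉ X`, choose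
`g` with `g x ∈ K`. Then `g y + v ∉ X` for all `v ∈ V`, so
`δ ≤ ‖(1 - e) (g.linear (y - x), 0)‖ = ‖(1 - e) hat(g) (1 - e) (y - x, 0)‖ ≤ R ‖y - x‖`. Hence the
distance of the points of `X` to the complement of `X` is bounded below; `X` is closed and open,
so `X = univ`. -/

theorem rec_ne {E : Type*} [NormedAddCommGroup E] [NormedSpace ℝ E] [FiniteDimensional ℝ E]
    (D : Geo E) (hcc : ∃ K ⊆ D.X, IsCompact K ∧ ∀ x ∈ D.X, ∃ g ∈ D.Γ, g x ∈ K)
    (hX : D.X ≠ Set.univ) : ((linSub D : Submodule ℝ E) : Set E) ≠ Rec D.X := by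
  intro hVR
  obtain ⟨e, he⟩ := exists_adapted 0 (fun _ : ℕ => linSub D) (fun i hi => by omega)
  have he0 := he.idem 0 le_rfl
  have her := he.range 0 le_rfl
  obtain ⟨R, hR⟩ := top_bounded D (linSub D) (fun v => Iff.rfl) (e 0) he0 her hVR
  set f : Alg E := e 0 with hf
  have hff : ∀ v, f (f v) = f v := fun v => by
    have := congrArg (fun T : Alg E => T v) he0
    simpa using this
  obtain ⟨K, hKX, hK, hKc⟩ := hcc
  -- the compact set has a neighbourhood in the domain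
  obtain ⟨δ, hδ, hnb⟩ := hK.exists_thickening_subset_open D.isOpen hKX
  have hnb' : ∀ a ∈ K, ∀ b : E, ‖b - a‖ < δ → b ∈ D.X := by
    intro a ha b hb
    apply hnb
    rw [Metric.mem_thickening_iff]
    exact ⟨a, ha, by rwa [dist_eq_norm]⟩
  -- the key estimate
  have key : ∀ x ∈ D.X, ∀ y : E, y ∉ D.X → δ ≤ (|R| * ‖(1 - f : Alg E)‖) * ‖y - x‖ := by
    intro x hx y hy
    obtain ⟨g, hg, hgK⟩ := hKc x hx
    have hgy : g y ∉ D.X := by
      intro h
      have h1 := D.inv g⁻¹ (D.Γ.inv_mem hg) _ h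
      have h2 : g⁻¹ (g y) = y := g.symm_apply_apply y
      rw [h2] at h1
      exact hy h1
    -- the invariant subspace
    have h1 : ∀ v, (1 - f) (hatHom D.Γ ⟨g, hg⟩ (f v)) = 0 := by
      intro v
      obtain ⟨h2, h3⟩ := (her (f v)).1 (hff v)
      have h4 : hatHom D.Γ ⟨g, hg⟩ (f v) = (g.linear (f v).1, 0) := by
        show hat g (f v) = _
        rw [hat_apply, h2, zero_smul, add_zero]
      have h5 : g.linear (f v).1 ∈ linSub D := lin_inv D g hg _ h3
      have h6 := (her (g.linear (f v).1, 0)).2 ⟨rfl, h5⟩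
      have h7 : (1 - f) (g.linear (f v).1, (0 : ℝ)) =
          (g.linear (f v).1, (0 : ℝ)) - f (g.linear (f v).1, (0 : ℝ)) := rfl
      rw [h4, h7, h6, sub_self]
    have h2 : ((1 - f) * hatHom D.Γ ⟨g, hg⟩ * (1 - f)) (y - x, 0) =
        (1 - f) (hatHom D.Γ ⟨g, hg⟩ (y - x, 0)) := by
      have h3 : (1 - f) (y - x, (0 : ℝ)) = (y - x, (0 : ℝ)) - f (y - x, (0 : ℝ)) := rfl
      show (1 - f) (hatHom D.Γ ⟨g, hg⟩ ((1 - f) (y - x, (0 : ℝ)))) = _
      rw [h3, map_sub, map_sub, h1, sub_zero]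
    have h3 : hatHom D.Γ ⟨g, hg⟩ (y - x, 0) = (g y - g x, 0) := by
      show hat g (y - x, 0) = _
      rw [hat_apply, zero_smul, add_zero, map_sub, aff_eq' g y, aff_eq' g x]
      simp
    obtain ⟨h4, h5⟩ := (her (f (g y - g x, 0))).1 (hff _)
    have h6 : (1 - f) (g y - g x, (0 : ℝ)) = (g y - g x - (f (g y - g x, 0)).1, 0) := by
      have h7 : (1 - f) (g y - g x, (0 : ℝ)) = (g y - g x, (0 : ℝ)) - f (g y - g x, (0 : ℝ)) := rfl
      rw [h7]
      ext
      · rfl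
      · show (0 : ℝ) - (f (g y - g x, 0)).2 = 0
        rw [h4, sub_zero]
    have h7 : g y - (f (g y - g x, 0)).1 ∉ D.X := by
      intro h
      apply hgy
      have h8 := h5 _ h 1
      rwa [one_smul, sub_add_cancel] at h8
    have h8 : δ ≤ ‖g y - g x - (f (g y - g x, 0)).1‖ := by
      by_contra hcon
      apply h7
      apply hnb' _ hgK
      rw [sub_right_comm]
      exact not_le.1 hcon
    have h9 : ‖(1 - f) (g y - g x, (0 : ℝ))‖ = ‖g y - g x - (f (g y - g x, 0)).1‖ := by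
      rw [h6, Prod.norm_def]
      simp
    have h10 : (1 - f) (g y - g x, (0 : ℝ)) =
        ((1 - f) * hatHom D.Γ ⟨g, hg⟩ * (1 - f)) ((1 - f) (y - x, (0 : ℝ))) := by
      have h11 : ((1 - f) * hatHom D.Γ ⟨g, hg⟩ * (1 - f)) ((1 - f) (y - x, (0 : ℝ))) =
          ((1 - f) * hatHom D.Γ ⟨g, hg⟩ * (1 - f)) (y - x, (0 : ℝ)) := by
        show (1 - f) (hatHom D.Γ ⟨g, hg⟩ ((1 - f) ((1 - f) (y - x, (0 : ℝ))))) =
          (1 - f) (hatHom D.Γ ⟨g, hg⟩ ((1 - f) (y - x, (0 : ℝ))))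
        have h12 : (1 - f) ((1 - f) (y - x, (0 : ℝ))) = (1 - f) (y - x, (0 : ℝ)) := by
          show (y - x, (0 : ℝ)) - f (y - x, (0 : ℝ)) - f ((y - x, (0 : ℝ)) - f (y - x, (0 : ℝ))) =
            (y - x, (0 : ℝ)) - f (y - x, (0 : ℝ))
          rw [map_sub, hff, sub_self, sub_zero]
        rw [h12]
      rw [h11, h2, h3]
    rw [← h9, h10] at h8
    refine h8.trans ?_
    refine (ContinuousLinearMap.le_opNorm _ _).trans ?_
    have h13 : ‖(1 - f : Alg E) (y - x, (0 : ℝ))‖ ≤ ‖(1 - f : Alg E)‖ * ‖y - x‖ := by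
      refine (ContinuousLinearMap.le_opNorm _ _).trans (le_of_eq ?_)
      rw [Prod.norm_def]
      simp
    rw [mul_assoc |R|]
    exact mul_le_mul ((hR ⟨g, hg⟩).trans (le_abs_self R)) h13 (norm_nonneg _) (abs_nonneg R)
  apply hX
  refine IsClopen.eq_univ ⟨?_, D.isOpen⟩ D.nonempty
  rw [← closure_subset_iff_isClosed]
  intro y hy
  by_contra hyX
  set c : ℝ := |R| * ‖(1 - f : Alg E)‖ with hc
  have hc0 : 0 ≤ c := by positivity
  obtain ⟨x, hx, hxy⟩ := Metric.mem_closure_iff.1 hy (δ / (c + 1)) (by positivity)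
  have h1 := key x hx y hyX
  rw [dist_eq_norm, lt_div_iff₀ (by positivity)] at hxy
  have h2 : c * ‖y - x‖ ≤ ‖y - x‖ * (c + 1) := by
    have := norm_nonneg (y - x)
    nlinarith
  linarith

end Pool.AF
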