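import Pool.Agent.Helper94.AM.Defs

open Set Finset

set_option linter.unusedSectionVars false

namespace Pool.AF

/-! ## AM-2 STAR2: an element of the group algebra of augmentation one that kills a semisimple
representation without fixed vectors

Let `R` be the group algebra, `ε` its augmentation, `I = ker ε`. Consider `V ^ n` (`n = dim V`,
functions `Fin n → V`, or `V →ₗ V` with `R` acting on the left) with the element `b` given by a
basis of `V`. `V ^ n` is semisimple, `I b ≤ R b` are submodules, so `R b = I b ⊕ N` with a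
submodule `N`; `I N ≤ I (R b) ⊓ N = I b ⊓ N = 0`, so `Δ` acts trivially on `N`; the components of
the elements of `N` are fixed vectors, so `N = 0` and `b = i b` for some `i ∈ I`. Then `z = 1 - i`
has augmentation one and kills `b`, so it kills `V`. -/

theorem star_kill {Δ V : Type*} [Group Δ] [AddCommGroup V] [Module ℝ V] [FiniteDimensional ℝ V]
    (ρ : Δ →* (V →ₗ[ℝ] V))
    (hss : ∀ U : Submodule ℝ V, (∀ δ, ∀ u ∈ U, ρ δ u ∈ U) →
      ∃ U' : Submodule ℝ V, (∀ δ, ∀ u ∈ U', ρ δ u ∈ U') ∧ IsCompl U U')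
    (hno : ∀ v : V, (∀ δ, ρ δ v = v) → v = 0) :
    ∃ z : MonoidAlgebra ℝ Δ, MonoidAlgebra.lift ℝ ℝ Δ (1 : Δ →* ℝ) z = 1 ∧
      MonoidAlgebra.lift ℝ (V →ₗ[ℝ] V) Δ ρ z = 0 := by
  classical
  set L := MonoidAlgebra.lift ℝ (V →ₗ[ℝ] V) Δ ρ with hL
  set ε := MonoidAlgebra.lift ℝ ℝ Δ (1 : Δ →* ℝ) with hε
  have hLs : ∀ (δ : Δ) (c : ℝ) (v : V), L (MonoidAlgebra.single δ c) v = c • ρ δ v := by
    intro δ c v
    rw [hL, MonoidAlgebra.lift_single]
    rfl
  have hεs : ∀ (δ : Δ) (c : ℝ), ε (MonoidAlgebra.single δ c) = c := by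
    intro δ c
    rw [hε, MonoidAlgebra.lift_single]
    simp
  let _ : Module (MonoidAlgebra ℝ Δ) V := Module.compHom V L.toRingHom
  have hsm : ∀ (r : MonoidAlgebra ℝ Δ) (v : V), r • v = L r v := fun r v => rfl
  -- semisimplicity
  have hcl : ComplementedLattice (Submodule (MonoidAlgebra ℝ Δ) V) := by
    refine ⟨fun U => ?_⟩
    let UR : Submodule ℝ V :=
      { carrier := U
        add_mem' := fun {a b} ha hb => U.add_mem ha hb
        zero_mem' := U.zero_mem
        smul_mem' := by
          intro c x hx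
          have h := U.smul_mem (MonoidAlgebra.single (1 : Δ) c) hx
          rw [hsm, hLs, map_one] at h
          exact h }
    have hUR : ∀ x, x ∈ UR ↔ x ∈ U := fun x => Iff.rfl
    obtain ⟨W, hW, hc⟩ := hss UR (by
      intro δ u hu
      have h := U.smul_mem (MonoidAlgebra.single δ (1 : ℝ)) hu
      rw [hsm, hLs, one_smul] at h
      exact h)
    have hWL : ∀ (r : MonoidAlgebra ℝ Δ), ∀ x ∈ W, L r x ∈ W := by
      intro r x hx
      induction r using MonoidAlgebra.induction_linear with
      | zero => simp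
      | add f g hf hg =>
        rw [map_add]
        exact W.add_mem hf hg
      | single δ c =>
        rw [hLs]
        exact W.smul_mem _ (hW δ x hx)
    let W' : Submodule (MonoidAlgebra ℝ Δ) V :=
      { carrier := W
        add_mem' := fun {a b} ha hb => W.add_mem ha hb
        zero_mem' := W.zero_mem
        smul_mem' := fun r x hx => hWL r x hx }
    have hW' : ∀ x, x ∈ W' ↔ x ∈ W := fun x => Iff.rfl
    refine ⟨W', ?_⟩
    constructor
    · rw [Submodule.disjoint_def]
      intro x hx hx'
      exact (Submodule.disjoint_def.1 hc.disjoint) x hx hx'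
    · rw [codisjoint_iff, Submodule.eq_top_iff']
      intro x
      have hx : x ∈ UR ⊔ W := by
        rw [codisjoint_iff.1 hc.codisjoint]
        exact Submodule.mem_top
      obtain ⟨u, hu, w, hw, rfl⟩ := Submodule.mem_sup.1 hx
      exact Submodule.mem_sup.2 ⟨u, hu, w, hw, rfl⟩
  have hss2 : IsSemisimpleModule (MonoidAlgebra ℝ Δ) V := { toComplementedLattice := hcl }
  -- the basis vector
  set b := Module.finBasis ℝ V with hb
  let B : Fin (Module.finrank ℝ V) → V := fun k => b k
  let J : Submodule (MonoidAlgebra ℝ Δ) (MonoidAlgebra ℝ Δ) := RingHom.ker ε.toRingHom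
  have hJ : ∀ r, r ∈ J ↔ ε r = 0 := fun r => Iff.rfl
  let P : Submodule (MonoidAlgebra ℝ Δ) (Fin (Module.finrank ℝ V) → V) :=
    J.map (LinearMap.toSpanSingleton (MonoidAlgebra ℝ Δ) (Fin (Module.finrank ℝ V) → V) B)
  obtain ⟨C, hC⟩ := exists_isCompl P
  have hBm : B ∈ P ⊔ C := by
    rw [codisjoint_iff.1 hC.codisjoint]
    exact Submodule.mem_top
  obtain ⟨p, hp, c, hc, hpc⟩ := Submodule.mem_sup.1 hBm
  obtain ⟨i, hi, rfl⟩ := (Submodule.mem_map).1 hp
  rw [LinearMap.toSpanSingleton_apply] at hpc
  have hi0 : ε i = 0 := (hJ i).1 hi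
  -- c is killed by J
  have hcJ : ∀ r, ε r = 0 → r • c = 0 := by
    intro r hr
    have h1 : r • c ∈ C := C.smul_mem r hc
    have h2 : r • c ∈ P := by
      refine (Submodule.mem_map).2 ⟨r - r * i, ?_, ?_⟩
      · rw [hJ, map_sub, map_mul, hr]
        simp
      · rw [LinearMap.toSpanSingleton_apply, sub_smul, mul_smul, ← smul_sub]
        have hcB : B - i • B = c := by
          rw [sub_eq_iff_eq_add, add_comm]
          exact hpc.symm
        rw [hcB]
    exact (Submodule.disjoint_def.1 hC.disjoint) _ h2 h1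
  have hc0 : c = 0 := by
    funext k
    apply hno
    intro δ
    have h := congrFun (hcJ (MonoidAlgebra.single δ 1 - MonoidAlgebra.single 1 1) (by
      rw [map_sub, hεs, hεs, sub_self])) k
    rw [Pi.smul_apply, sub_smul, hsm, hsm, hLs, hLs, one_smul, one_smul, map_one] at h
    exact sub_eq_zero.1 h
  refine ⟨1 - i, ?_, ?_⟩
  · rw [map_sub, map_one, hi0, sub_zero]
  · apply b.ext
    intro k
    have h := congrFun hpc k
    rw [hc0, add_zero, Pi.smul_apply, hsm] at h
    rw [map_sub, map_one, LinearMap.sub_apply, LinearMap.zero_apply]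
    change b k - L i (B k) = 0
    rw [h]
    exact sub_self _

end Pool.AF
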