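import Pool.Agent.Helper94.AM.Defs

open Set Finset

set_option linter.unusedSectionVars false

namespace Pool.AF

/-! ## AM-3 STAR3: the trace argument in dimension four

For `δ` with `det = 1` and eigenvalue `1` in dimension four the characteristic polynomial at `1`
gives `tr δ + tr δ⁻¹ - (tr δ ^ 2 - tr (δ ^ 2)) / 2 = 2`. Let `s` be the antipode (inversion) of the
group algebra. By linearity, for every `z` of the group algebra
`tr_V z + tr_V (s z) - tr_{V ⊗ V} (P (z • ·)) = 2 ε z`, where `P = (1 - swap) / 2` on `V ⊗ V` and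
the group acts diagonally. Let `x` be the given element, `z = x * s x`. Then `z ^ k` and
`s (z ^ k) = z ^ k` act as zero on `V` and `ε (z ^ k) = 1`, so with `Z` the action of `z` on
`V ⊗ V` one gets `tr (P Z ^ k) = -2` for all `k ≥ 1`, i.e. `tr (P p(Z)) = -2 p(1)` for every
polynomial `p` with `p(0) = 0`. Let `M = minpoly Z * X * (X - 1) = (X - 1) ^ c * q` with
`q(1) ≠ 0`, `c ≥ 1`, `X ∣ q`, and `u * (X - 1) ^ c + w * q = 1`; `p = w * q` has `p(0) = 0`,
`p(1) = 1`, `M ∣ p ^ 2 - p`, so `p(Z)` is idempotent; it commutes with the idempotent `P`, so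
`P p(Z)` is idempotent and its trace is a natural number: contradiction with `-2`. -/

private theorem s3_det (M N : Matrix (Fin 4) (Fin 4) ℝ) (hMN : M * N = 1) (hdet : M.det = 1)
    (h : (1 - M).det = 0) : M.trace + N.trace - (M.trace ^ 2 - (M * M).trace) / 2 = 2 := by
  have h1 : M.adjugate = N := by
    calc M.adjugate = M.adjugate * (M * N) := by rw [hMN, mul_one]
      _ = N := by rw [← mul_assoc, Matrix.adjugate_mul, hdet, one_smul, one_mul]
  rw [← h1]
  have h2 : ∀ i, M.adjugate i i = (M.submatrix i.succAbove i.succAbove).det := by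
    intro i
    rw [Matrix.adjugate_fin_succ_eq_det_submatrix]
    rw [← two_mul, pow_mul]
    simp
  rw [Matrix.det_succ_row_zero] at h hdet
  simp only [Matrix.trace, Matrix.diag, h2, Matrix.det_fin_three, Fin.sum_univ_four,
    Matrix.submatrix_apply, Matrix.mul_apply, Matrix.sub_apply, Matrix.one_apply] at h hdet ⊢
  simp [Fin.succAbove] at h hdet ⊢
  linear_combination hdet - h

private abbrev S3I : Type := Fin 4 × Fin 4

/-- The swap. -/
private noncomputable def s3S : Matrix S3I S3I ℝ :=
  Matrix.of fun a b => if a.1 = b.2 ∧ a.2 = b.1 then 1 else 0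

/-- The projection on the antisymmetric tensors. -/
private noncomputable def s3P : Matrix S3I S3I ℝ := (2⁻¹ : ℝ) • (1 - s3S)

private theorem s3S_mul (K : Matrix S3I S3I ℝ) (a b : S3I) : (s3S * K) a b = K (a.2, a.1) b := by
  rw [Matrix.mul_apply, Finset.sum_eq_single ((a.2, a.1) : S3I)]
  · simp [s3S]
  · intro c _ hc
    have : ¬ (a.1 = c.2 ∧ a.2 = c.1) := by
      rintro ⟨h1, h2⟩
      exact hc (Prod.ext h2.symm h1.symm)
    simp [s3S, this]
  · intro h
    exact absurd (Finset.mem_univ _) h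

private theorem s3mul_S (K : Matrix S3I S3I ℝ) (a b : S3I) : (K * s3S) a b = K a (b.2, b.1) := by
  rw [Matrix.mul_apply, Finset.sum_eq_single ((b.2, b.1) : S3I)]
  · simp [s3S]
  · intro c _ hc
    have : ¬ (c.1 = b.2 ∧ c.2 = b.1) := by
      rintro ⟨h1, h2⟩
      exact hc (Prod.ext h1 h2)
    simp [s3S, this]
  · intro h
    exact absurd (Finset.mem_univ _) h

private theorem s3S_sq : s3S * s3S = 1 := by
  ext a b
  rw [s3S_mul]
  simp only [s3S, Matrix.of_apply, Matrix.one_apply]
  by_cases h : a = b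
  · subst h
    simp
  · have : ¬ (a.2 = b.2 ∧ a.1 = b.1) := fun hh => h (Prod.ext hh.2 hh.1)
    simp [h, this]

private theorem s3P_idem : s3P * s3P = s3P := by
  have h : (1 - s3S) * (1 - s3S) = (2 : ℝ) • (1 - s3S) := by
    rw [sub_mul, mul_sub, mul_sub, s3S_sq, one_mul, one_mul, mul_one, two_smul]
    abel
  rw [s3P, smul_mul_smul_comm, h, smul_smul]
  norm_num

/-- The diagonal action. -/
private noncomputable def s3K {Δ : Type*} [Group Δ] (A : Δ →* Matrix (Fin 4) (Fin 4) ℝ) :
    Δ →* Matrix S3I S3I ℝ where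
  toFun g := Matrix.kroneckerMap (fun x y => x * y) (A g) (A g)
  map_one' := by
    rw [map_one]
    exact Matrix.one_kronecker_one
  map_mul' g h := by
    rw [map_mul]
    exact Matrix.mul_kronecker_mul _ _ _ _

private theorem s3K_comm {Δ : Type*} [Group Δ] (A : Δ →* Matrix (Fin 4) (Fin 4) ℝ) (g : Δ) :
    s3P * s3K A g = s3K A g * s3P := by
  have h : s3S * s3K A g = s3K A g * s3S := by
    ext a b
    rw [s3S_mul, s3mul_S]
    simp only [s3K, MonoidHom.coe_mk, OneHom.coe_mk, Matrix.kroneckerMap_apply]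
    ring
  rw [s3P, smul_mul_assoc, mul_smul_comm, sub_mul, mul_sub, h, one_mul, mul_one]

private theorem s3K_trace {Δ : Type*} [Group Δ] (A : Δ →* Matrix (Fin 4) (Fin 4) ℝ) (g : Δ) :
    (s3P * s3K A g).trace = ((A g).trace ^ 2 - (A g * A g).trace) / 2 := by
  have h1 : (s3K A g).trace = (A g).trace ^ 2 := by
    rw [pow_two]
    exact Matrix.trace_kronecker _ _
  have h2 : (s3S * s3K A g).trace = (A g * A g).trace := by
    have h3 : (s3S * s3K A g).trace = ∑ a : S3I, s3K A g (a.2, a.1) a :=
      Finset.sum_congr rfl fun a _ => s3S_mul _ a a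
    rw [h3, Fintype.sum_prod_type]
    simp only [Matrix.trace, Matrix.diag, Matrix.mul_apply]
    refine Finset.sum_congr rfl fun i _ => Finset.sum_congr rfl fun j _ => ?_
    simp only [s3K, MonoidHom.coe_mk, OneHom.coe_mk, Matrix.kroneckerMap_apply]
    ring
  rw [s3P, smul_mul_assoc, Matrix.trace_smul, sub_mul, Matrix.trace_sub, one_mul, h1, h2,
    smul_eq_mul]
  ring

/-- The antipode as an algebra homomorphism to the opposite algebra. -/
private noncomputable def s3op (Δ : Type*) [Group Δ] :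
    MonoidAlgebra ℝ Δ →ₐ[ℝ] (MonoidAlgebra ℝ Δ)ᵐᵒᵖ :=
  MonoidAlgebra.lift ℝ (MonoidAlgebra ℝ Δ)ᵐᵒᵖ Δ
    { toFun := fun g => MulOpposite.op (MonoidAlgebra.of ℝ Δ g⁻¹)
      map_one' := by
        rw [inv_one, map_one]
        rfl
      map_mul' := fun g h => by
        rw [← MulOpposite.op_mul, ← map_mul, mul_inv_rev] }

private noncomputable def s3s {Δ : Type*} [Group Δ] (z : MonoidAlgebra ℝ Δ) :
    MonoidAlgebra ℝ Δ := (s3op Δ z).unop

private theorem s3s_of {Δ : Type*} [Group Δ] (g : Δ) :
    s3s (MonoidAlgebra.of ℝ Δ g) = MonoidAlgebra.of ℝ Δ g⁻¹ := by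
  rw [s3s, s3op, MonoidAlgebra.lift_of]
  rfl

private theorem s3s_mul {Δ : Type*} [Group Δ] (y z : MonoidAlgebra ℝ Δ) :
    s3s (y * z) = s3s z * s3s y := by
  rw [s3s, map_mul, MulOpposite.unop_mul]
  rfl

private theorem s3s_add {Δ : Type*} [Group Δ] (y z : MonoidAlgebra ℝ Δ) :
    s3s (y + z) = s3s y + s3s z := by
  rw [s3s, map_add, MulOpposite.unop_add]
  rfl

private theorem s3s_smul {Δ : Type*} [Group Δ] (r : ℝ) (z : MonoidAlgebra ℝ Δ) :
    s3s (r • z) = r • s3s z := by
  rw [s3s, map_smul, MulOpposite.unop_smul]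
  rfl

private theorem s3s_s3s {Δ : Type*} [Group Δ] (z : MonoidAlgebra ℝ Δ) : s3s (s3s z) = z := by
  induction z using MonoidAlgebra.induction_on with
  | of g => rw [s3s_of, s3s_of, inv_inv]
  | add a b ha hb => rw [s3s_add, s3s_add, ha, hb]
  | smul r a ha => rw [s3s_smul, s3s_smul, ha]

private theorem s3s_eps {Δ : Type*} [Group Δ] (z : MonoidAlgebra ℝ Δ) :
    MonoidAlgebra.lift ℝ ℝ Δ (1 : Δ →* ℝ) (s3s z) = MonoidAlgebra.lift ℝ ℝ Δ (1 : Δ →* ℝ) z := by
  induction z using MonoidAlgebra.induction_on with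
  | of g => rw [s3s_of, MonoidAlgebra.lift_of, MonoidAlgebra.lift_of]; rfl
  | add a b ha hb => rw [s3s_add, map_add, map_add, ha, hb]
  | smul r a ha => rw [s3s_smul, map_smul, map_smul, ha]

private theorem s3_idem_trace {n : Type*} [Fintype n] [DecidableEq n] (E : Matrix n n ℝ)
    (h : E * E = E) : 0 ≤ E.trace := by
  have h1 : IsIdempotentElem (Matrix.toLin' E) := by
    change Matrix.toLin' E ∘ₗ Matrix.toLin' E = Matrix.toLin' E
    rw [← Matrix.toLin'_mul, h]
  rw [← Matrix.trace_toLin'_eq,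
    ((LinearMap.isProj_range_iff_isIdempotentElem _).2 h1).trace]
  positivity

private theorem s3_poly {n : Type*} [Fintype n] [DecidableEq n] (Z P : Matrix n n ℝ)
    (hP : P * P = P) (hPZ : P * Z = Z * P) (h : ∀ k : ℕ, 1 ≤ k → (P * Z ^ k).trace = -2) :
    False := by
  open Polynomial in
  have h1 : ∀ p : ℝ[X], (P * aeval Z (X * p)).trace = -2 * p.eval 1 := by
    intro p
    induction p using Polynomial.induction_on' with
    | add p q hp hq =>
      rw [mul_add, map_add, mul_add, Matrix.trace_add, hp, hq, eval_add]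
      ring
    | monomial k a =>
      rw [map_mul, aeval_X, aeval_monomial, Algebra.algebraMap_eq_smul_one, smul_mul_assoc,
        one_mul, mul_smul_comm, ← pow_succ', mul_smul_comm, Matrix.trace_smul,
        h (k + 1) (Nat.le_add_left 1 k), eval_monomial]
      simp
      ring
  open Polynomial in
  have h0 : ∃ p : ℝ[X], p.eval 0 = 0 ∧ p.eval 1 = 1 ∧
      aeval Z p * aeval Z p = aeval Z p := by
    set f : ℝ[X] := Z.charpoly * X * (X - C 1) with hf
    have hf0 : f ≠ 0 := by
      rw [hf]
      refine mul_ne_zero (mul_ne_zero (Matrix.charpoly_monic Z).ne_zero X_ne_zero) ?_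
      exact (monic_X_sub_C (1 : ℝ)).ne_zero
    have hfZ : aeval Z f = 0 := by
      rw [hf, map_mul, map_mul, Matrix.aeval_self_charpoly, zero_mul, zero_mul]
    obtain ⟨q, hq, hq1⟩ := exists_eq_pow_rootMultiplicity_mul_and_not_dvd f hf0 1
    set c := rootMultiplicity 1 f with hc
    have hcop : IsCoprime ((X - C (1 : ℝ)) ^ c) q := by
      refine IsCoprime.pow_left ?_
      exact (irreducible_X_sub_C (1 : ℝ)).coprime_iff_not_dvd.2 hq1
    obtain ⟨u, w, huw⟩ := hcop
    have hq1' : q.eval 1 ≠ 0 := by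
      intro h'
      exact hq1 (dvd_iff_isRoot.2 h')
    have hc0 : c ≠ 0 := by
      intro h'
      have e1 : f.eval 1 = 0 := by
        rw [hf]
        simp
      rw [hq, h', pow_zero, one_mul] at e1
      exact hq1' e1
    have hq0 : q.eval 0 = 0 := by
      have e1 : f.eval 0 = 0 := by
        rw [hf]
        simp
      rw [hq, eval_mul, eval_pow] at e1
      have e2 : ((X - C (1 : ℝ)).eval 0) ^ c ≠ 0 := by
        apply pow_ne_zero
        simp
      exact (mul_eq_zero.1 e1).resolve_left e2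
    refine ⟨w * q, ?_, ?_, ?_⟩
    · rw [eval_mul, hq0, mul_zero]
    · have e1 := congrArg (eval 1) huw
      rw [eval_add, eval_mul, eval_pow, eval_sub, eval_X, eval_C, sub_self, zero_pow hc0,
        mul_zero, zero_add, eval_one] at e1
      exact e1
    · have e2 : (w * q) * (w * q) - w * q = -(w * u) * f := by
        have e3 : w * q = 1 - u * (X - C 1) ^ c := by
          rw [← huw]
          ring
        calc (w * q) * (w * q) - w * q = (w * q) * (w * q - 1) := by ring
          _ = (w * q) * (-(u * (X - C 1) ^ c)) := by rw [← huw]; ring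
          _ = -(w * u) * ((X - C 1) ^ c * q) := by ring
          _ = -(w * u) * f := by rw [← hq]
      have e4 := congrArg (aeval Z) e2
      rw [map_sub, map_mul, map_mul (aeval Z) (-(w * u)) f, hfZ, mul_zero] at e4
      exact sub_eq_zero.1 e4
  obtain ⟨p, hp0, hp1, hpp⟩ := h0
  open Polynomial in
  have hX : ∃ p' : ℝ[X], p = X * p' := by
    have : X ∣ p := by
      rw [X_dvd_iff, coeff_zero_eq_eval_zero]
      exact hp0
    exact this
  obtain ⟨p', hp'⟩ := hX
  have hcomm : P * Polynomial.aeval Z p = Polynomial.aeval Z p * P := by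
    have h2 : Polynomial.aeval Z p ∈ Subalgebra.centralizer ℝ ({P} : Set (Matrix n n ℝ)) := by
      have h3 : Algebra.adjoin ℝ ({Z} : Set (Matrix n n ℝ)) ≤
          Subalgebra.centralizer ℝ ({P} : Set (Matrix n n ℝ)) := by
        rw [Algebra.adjoin_le_iff]
        rintro y hy
        rw [Set.mem_singleton_iff] at hy
        rw [SetLike.mem_coe, Subalgebra.mem_centralizer_iff]
        intro y' hy'
        rw [Set.mem_singleton_iff] at hy'
        rw [hy, hy']
        exact hPZ
      exact h3 (Polynomial.aeval_mem_adjoin_singleton ℝ Z)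
    rw [Subalgebra.mem_centralizer_iff] at h2
    exact h2 P rfl
  have h5 : (P * Polynomial.aeval Z p) * (P * Polynomial.aeval Z p) =
      P * Polynomial.aeval Z p := by
    calc (P * Polynomial.aeval Z p) * (P * Polynomial.aeval Z p)
        = P * (Polynomial.aeval Z p * P) * Polynomial.aeval Z p := by noncomm_ring
      _ = P * (P * Polynomial.aeval Z p) * Polynomial.aeval Z p := by rw [hcomm]
      _ = (P * P) * (Polynomial.aeval Z p * Polynomial.aeval Z p) := by noncomm_ring
      _ = P * Polynomial.aeval Z p := by rw [hP, hpp]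
  have h6 := s3_idem_trace _ h5
  rw [hp', h1] at h6
  rw [hp', Polynomial.eval_mul, Polynomial.eval_X, one_mul] at hp1
  rw [hp1] at h6
  norm_num at h6

theorem star_trace {Δ V : Type*} [Group Δ] [AddCommGroup V] [Module ℝ V] [FiniteDimensional ℝ V]
    (hV : Module.finrank ℝ V = 4) (ρ : Δ →* (V →ₗ[ℝ] V))
    (hdet : ∀ δ, LinearMap.det (ρ δ) = 1) (hfix : ∀ δ, ∃ v, v ≠ 0 ∧ ρ δ v = v)
    (x : MonoidAlgebra ℝ Δ) (hx : MonoidAlgebra.lift ℝ ℝ Δ (1 : Δ →* ℝ) x = 1)
    (hx0 : MonoidAlgebra.lift ℝ (V →ₗ[ℝ] V) Δ ρ x = 0) : False := by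
  classical
  let b := Module.finBasisOfFinrankEq ℝ V hV
  let A : Δ →* Matrix (Fin 4) (Fin 4) ℝ :=
    { toFun := fun g => LinearMap.toMatrix b b (ρ g)
      map_one' := by rw [map_one]; exact LinearMap.toMatrix_one b
      map_mul' := fun g h => by rw [map_mul]; exact LinearMap.toMatrix_mul b _ _ }
  have hA : ∀ g, A g = LinearMap.toMatrix b b (ρ g) := fun g => rfl
  let RV := MonoidAlgebra.lift ℝ (V →ₗ[ℝ] V) Δ ρ
  let RK := MonoidAlgebra.lift ℝ (Matrix S3I S3I ℝ) Δ (s3K A)
  let ε := MonoidAlgebra.lift ℝ ℝ Δ (1 : Δ →* ℝ)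
  have key : ∀ z : MonoidAlgebra ℝ Δ, LinearMap.trace ℝ V (RV z) + LinearMap.trace ℝ V (RV (s3s z))
      - (s3P * RK z).trace = 2 * ε z := by
    intro z
    induction z using MonoidAlgebra.induction_on with
    | of g =>
      rw [s3s_of]
      have e1 : RV (MonoidAlgebra.of ℝ Δ g) = ρ g := MonoidAlgebra.lift_of _ _
      have e2 : RV (MonoidAlgebra.of ℝ Δ g⁻¹) = ρ g⁻¹ := MonoidAlgebra.lift_of _ _
      have e3 : RK (MonoidAlgebra.of ℝ Δ g) = s3K A g := MonoidAlgebra.lift_of _ _
      have e4 : ε (MonoidAlgebra.of ℝ Δ g) = 1 := MonoidAlgebra.lift_of _ _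
      rw [e1, e2, e3, e4, s3K_trace, LinearMap.trace_eq_matrix_trace ℝ b,
        LinearMap.trace_eq_matrix_trace ℝ b, ← hA, ← hA, mul_one]
      refine s3_det _ _ ?_ ?_ ?_
      · rw [← map_mul, mul_inv_cancel, map_one]
      · rw [hA, LinearMap.det_toMatrix]
        exact hdet g
      · rw [hA, ← LinearMap.toMatrix_one b, ← map_sub, LinearMap.det_toMatrix]
        obtain ⟨v, hv, hTv⟩ := hfix g
        rw [LinearMap.det_eq_zero_iff_ker_ne_bot]
        intro hker
        refine hv ?_
        have h1 : v ∈ LinearMap.ker (1 - ρ g) := by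
          rw [LinearMap.mem_ker, LinearMap.sub_apply, hTv]
          exact sub_self v
        rwa [hker, Submodule.mem_bot] at h1
    | add y z hy hz =>
      rw [s3s_add, map_add, map_add, map_add, map_add, map_add, map_add, mul_add,
        Matrix.trace_add]
      linear_combination hy + hz
    | smul r z hz =>
      rw [s3s_smul, map_smul, map_smul, map_smul, map_smul, map_smul, map_smul, mul_smul_comm,
        Matrix.trace_smul]
      simp only [smul_eq_mul]
      linear_combination r * hz
  set z : MonoidAlgebra ℝ Δ := x * s3s x with hz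
  have hsz : s3s z = z := by
    rw [hz, s3s_mul, s3s_s3s]
  have hszk : ∀ k : ℕ, s3s (z ^ k) = z ^ k := by
    intro k
    induction k with
    | zero =>
      rw [pow_zero, s3s, map_one]
      rfl
    | succ k ih => rw [pow_succ, s3s_mul, ih, hsz, ← pow_succ', pow_succ]
  have hRz : RV z = 0 := by
    rw [hz, map_mul]
    have : RV x = 0 := hx0
    rw [this, zero_mul]
  have hεz : ε z = 1 := by
    rw [hz, map_mul]
    have e1 : ε x = 1 := hx
    have e2 : ε (s3s x) = ε x := s3s_eps x
    rw [e2, e1, one_mul]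
  refine s3_poly (RK z) s3P s3P_idem ?_ ?_
  · have hc : ∀ y : MonoidAlgebra ℝ Δ, s3P * RK y = RK y * s3P := by
      intro y
      induction y using MonoidAlgebra.induction_on with
      | of g =>
        have e3 : RK (MonoidAlgebra.of ℝ Δ g) = s3K A g := MonoidAlgebra.lift_of _ _
        rw [e3]
        exact s3K_comm A g
      | add y z hy hz => rw [map_add, mul_add, add_mul, hy, hz]
      | smul r z hz => rw [map_smul, mul_smul_comm, smul_mul_assoc, hz]
    exact hc z
  · intro k hk
    have e := key (z ^ k)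
    have e1 : RV (z ^ k) = 0 := by rw [map_pow, hRz, zero_pow (by omega)]
    have e2 : RK (z ^ k) = RK z ^ k := map_pow _ _ _
    have e3 : ε (z ^ k) = 1 := by rw [map_pow, hεz, one_pow]
    rw [hszk, e1, e2, e3, map_zero] at e
    linarith

end Pool.AF
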