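import Pool.Agent.Helper84.SV.Stmt

open Set

namespace Pool.AF

open Pool.SV

/-- `X` is not the whole space and, with `V` the space of all `v` such that `X` is invariant under
the translations by the multiples of `v`: `dim V ≤ 2`, or `m ≤ 5`, or `dim V ≤ 4` and
`dim X / V ≤ 2`, or `dim V ≤ 4` and some nontrivial element of `Γ` acts trivially on `X / V`. -/
def FewLines {m : ℕ} (Γ : Subgroup (Aff m)) (X : Set (EuclideanSpace ℝ (Fin m))) : Prop :=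
  X ≠ Set.univ ∧ ∃ V : Submodule ℝ (EuclideanSpace ℝ (Fin m)),
    (∀ v, v ∈ V ↔ ∀ x ∈ X, ∀ t : ℝ, x + t • v ∈ X) ∧
    (Module.finrank ℝ V ≤ 2 ∨ m ≤ 5 ∨
      (Module.finrank ℝ V ≤ 4 ∧ m ≤ Module.finrank ℝ V + 2) ∨
      (Module.finrank ℝ V ≤ 4 ∧ ∃ g ∈ Γ, g ≠ 1 ∧ ∀ x ∈ X, g x - x ∈ V))

end Pool.AF
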