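import Pool.Agent.Helper94.AM.Defs

open Set Finset

set_option linter.unusedSectionVars false

namespace Pool.AF

open Pool.SV

/-! ## AM-6 TYPEQ: from an invariant form on a three-dimensional subquotient to the type

The case `A = ⊥` is `type_of_form` in AL/Lorentz.lean (same proof with `V` replaced by `B` and
`v = 0` replaced by `v ∈ A`). -/

namespace TypeQ

/-- a subgroup is of finite index if a two-valued function separates its cosets -/
private theorem fin_index {G : Type*} [Group G] (H : Subgroup G) (s : G → Bool)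
    (hs : ∀ a b, s a = s b → a⁻¹ * b ∈ H) : H.index ≠ 0 := by
  have hf : Finite (G ⧸ H) := by
    refine Finite.of_injective (fun q : G ⧸ H => s q.out) ?_
    intro q q' h
    have h1 := hs _ _ h
    rw [← QuotientGroup.eq, QuotientGroup.out_eq', QuotientGroup.out_eq'] at h1
    exact h1
  exact Subgroup.index_ne_zero_of_finite

section

variable {E : Type*} [NormedAddCommGroup E] [NormedSpace ℝ E] [FiniteDimensional ℝ E]

/-- reversed Cauchy-Schwarz inequality -/
private theorem rcs {x1 x2 x3 y1 y2 y3 : ℝ} (hx : x1 ^ 2 + x2 ^ 2 < x3 ^ 2) (hx3 : 0 < x3)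
    (hy : y1 ^ 2 + y2 ^ 2 < y3 ^ 2) (hy3 : 0 < y3) : x1 * y1 + x2 * y2 < x3 * y3 := by
  have h1 : (x1 * y1 + x2 * y2) ^ 2 < (x3 * y3) ^ 2 := by
    have h2 : (x1 * y1 + x2 * y2) ^ 2 ≤ (x1 ^ 2 + x2 ^ 2) * (y1 ^ 2 + y2 ^ 2) := by
      nlinarith [sq_nonneg (x1 * y2 - x2 * y1)]
    have h3 : (x1 ^ 2 + x2 ^ 2) * (y1 ^ 2 + y2 ^ 2) < x3 ^ 2 * y3 ^ 2 := by
      have h4 : 0 ≤ x1 ^ 2 + x2 ^ 2 := by positivity
      have h5 : 0 < y3 ^ 2 := by positivity
      nlinarith
    nlinarith
  exact lt_of_pow_lt_pow_left₀ 2 (by positivity) h1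

variable (Γ : Subgroup (E ≃ᵃ[ℝ] E)) (A V : Submodule ℝ E)

/-- the light cone, coordinates `x1, x2, x3` -/
private theorem cone_type (hinv : ∀ g ∈ Γ, ∀ v ∈ V, g.linear v ∈ V)
    (x1 x2 x3 : V →ₗ[ℝ] ℝ)
    (h0 : ∀ v : V, x1 v = 0 → x2 v = 0 → x3 v = 0 → (v : E) ∈ A)
    (h0' : ∀ v : V, (v : E) ∈ A → x1 v = 0 ∧ x2 v = 0 ∧ x3 v = 0)
    (e : V) (he1 : x1 e = 0) (he2 : x2 e = 0) (he3 : 0 < x3 e)
    (hQ : ∀ g ∈ Γ, ∃ c : ℝ, 0 < c ∧ ∀ x y x' y' : V, (x' : E) = g.linear (x : E) →
      (y' : E) = g.linear (y : E) → x1 x' * x1 y' + x2 x' * x2 y' - x3 x' * x3 y' =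
        c * (x1 x * x1 y + x2 x * x2 y - x3 x * x3 y)) :
    ∃ Γ₁ : Subgroup (E ≃ᵃ[ℝ] E), Γ₁ ≤ Γ ∧ Γ₁.relIndex Γ ≠ 0 ∧ ConeType Γ₁ A V := by
  classical
  -- the cone in `V`
  set C : Set V := {v | x1 v ^ 2 + x2 v ^ 2 < x3 v ^ 2 ∧ 0 < x3 v} with hC
  have heC : e ∈ C := by
    refine ⟨?_, he3⟩
    rw [he1, he2]
    have := pow_pos he3 2
    linarith
  -- the action on `V`
  let act : (g : E ≃ᵃ[ℝ] E) → g ∈ Γ → V → V := fun g hg v => ⟨g.linear v, hinv g hg v v.2⟩
  -- time orientation
  have key : ∀ g ∈ Γ, (∀ v ∈ C, ∀ v' : V, (v' : E) = g.linear (v : E) → v' ∈ C) ∨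
      (∀ v ∈ C, ∀ v' : V, (v' : E) = g.linear (v : E) → -v' ∈ C) := by
    intro g hg
    obtain ⟨c, hc, hc'⟩ := hQ g hg
    have h1 : ∀ v ∈ C, ∀ v' : V, (v' : E) = g.linear (v : E) →
        x1 v' ^ 2 + x2 v' ^ 2 < x3 v' ^ 2 := by
      intro v hv v' hv'
      have h2 := hc' v v v' v' hv' hv'
      have h3 := hv.1
      nlinarith
    have h2 : ∀ v ∈ C, ∀ v' : V, (v' : E) = g.linear (v : E) → ∀ e' : V,
        (e' : E) = g.linear (e : E) →
        x1 v' * x1 e' + x2 v' * x2 e' - x3 v' * x3 e' < 0 := by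
      intro v hv v' hv' e' he'
      rw [hc' v e v' e' hv' he']
      have h3 := rcs hv.1 hv.2 heC.1 heC.2
      nlinarith
    set e' : V := act g hg e with he'
    have he'' : (e' : E) = g.linear (e : E) := rfl
    have h3 := h1 e heC e' he''
    have h4 : x3 e' ≠ 0 := by
      intro h5
      rw [h5] at h3
      nlinarith [sq_nonneg (x1 e'), sq_nonneg (x2 e')]
    rcases lt_or_gt_of_ne h4 with h5 | h5
    · right
      intro v hv v' hv'
      have h6 := h1 v hv v' hv'
      refine ⟨?_, ?_⟩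
      · simp only [map_neg, neg_sq]
        exact h6
      · rw [map_neg]
        by_contra h7
        have h8 : 0 ≤ x3 v' := by linarith
        rcases h8.eq_or_lt with h9 | h9
        · rw [← h9] at h6
          nlinarith [sq_nonneg (x1 v'), sq_nonneg (x2 v')]
        · have h10 : x1 (-e') ^ 2 + x2 (-e') ^ 2 < x3 (-e') ^ 2 := by
            simp only [map_neg, neg_sq]
            exact h3
          have h11 := rcs h6 h9 h10 (by rw [map_neg]; linarith)
          have h12 := h2 v hv v' hv' e' he''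
          simp only [map_neg] at h11
          nlinarith
    · left
      intro v hv v' hv'
      have h6 := h1 v hv v' hv'
      refine ⟨h6, ?_⟩
      by_contra h7
      have h8 : x3 v' ≤ 0 := by linarith
      rcases h8.eq_or_lt with h9 | h9
      · rw [h9] at h6
        nlinarith [sq_nonneg (x1 v'), sq_nonneg (x2 v')]
      · have h10 : x1 (-v') ^ 2 + x2 (-v') ^ 2 < x3 (-v') ^ 2 := by
          simp only [map_neg, neg_sq]
          exact h6
        have h11 := rcs h10 (by rw [map_neg]; linarith) h3 h5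
        have h12 := h2 v hv v' hv' e' he''
        simp only [map_neg] at h11
        nlinarith
  -- future preserving
  let Fut : (E ≃ᵃ[ℝ] E) → Prop := fun g => ∀ v ∈ C, ∀ v' : V, (v' : E) = g.linear (v : E) → v' ∈ C
  let Pst : (E ≃ᵃ[ℝ] E) → Prop := fun g => ∀ v ∈ C, ∀ v' : V, (v' : E) = g.linear (v : E) → -v' ∈ C
  have hneg : ∀ v ∈ C, -v ∉ C := by
    intro v hv hv'
    have h1 := hv.2
    have h2 := hv'.2
    rw [map_neg] at h2
    linarith
  have hinvl : ∀ g : E ≃ᵃ[ℝ] E, ∀ v : E, g.linear ((g⁻¹).linear v) = v := fun g v =>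
    g.linear.apply_symm_apply v
  have hinvl' : ∀ g : E ≃ᵃ[ℝ] E, ∀ v : E, (g⁻¹).linear (g.linear v) = v := fun g v =>
    g.linear.symm_apply_apply v
  -- inverses
  have hFinv : ∀ g ∈ Γ, Fut g → Fut g⁻¹ := by
    intro g hg hF
    rcases key g⁻¹ (Γ.inv_mem hg) with h | h
    · exact h
    · exfalso
      have h1 := h e heC (act g⁻¹ (Γ.inv_mem hg) e) rfl
      have h2 := hF _ h1 (-e) (by
        change (-(e : E)) = g.linear (-((g⁻¹).linear (e : E)))
        rw [map_neg, hinvl])
      exact hneg e heC h2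
  have hPinv : ∀ g ∈ Γ, Pst g → Pst g⁻¹ := by
    intro g hg hP
    rcases key g⁻¹ (Γ.inv_mem hg) with h | h
    · exfalso
      have h1 := h e heC (act g⁻¹ (Γ.inv_mem hg) e) rfl
      have h2 := hP _ h1 e (by
        change (e : E) = g.linear ((g⁻¹).linear (e : E))
        rw [hinvl])
      exact hneg e heC h2
    · exact h
  have hmul1 : ∀ g ∈ Γ, ∀ h ∈ Γ, Fut g → Fut h → Fut (g * h) := by
    intro g hg h hh hF hF' v hv v' hv'
    exact hF _ (hF' v hv (act h hh v) rfl) v' hv'
  have hmul2 : ∀ g ∈ Γ, ∀ h ∈ Γ, Pst g → Pst h → Fut (g * h) := by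
    intro g hg h hh hP hP' v hv v' hv'
    have h1 := hP' v hv (act h hh v) rfl
    have h2 := hP _ h1 (-v') (by
      change -(v' : E) = g.linear (-(h.linear (v : E)))
      rw [map_neg, hv']
      rfl)
    rwa [neg_neg] at h2
  -- the subgroup
  let Γ₁ : Subgroup (E ≃ᵃ[ℝ] E) :=
    { carrier := {g | g ∈ Γ ∧ Fut g}
      mul_mem' := fun {a b} ha hb => ⟨Γ.mul_mem ha.1 hb.1, hmul1 a ha.1 b hb.1 ha.2 hb.2⟩
      one_mem' := ⟨Γ.one_mem, fun v hv v' hv' => by
        have : v' = v := Subtype.ext hv'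
        rw [this]
        exact hv⟩
      inv_mem' := fun {a} ha => ⟨Γ.inv_mem ha.1, hFinv a ha.1 ha.2⟩ }
  refine ⟨Γ₁, fun g hg => hg.1, ?_, ?_⟩
  · refine fin_index (Γ₁.subgroupOf Γ) (fun g => decide (Fut g.1)) ?_
    intro a b hab
    rw [Subgroup.mem_subgroupOf]
    refine ⟨Γ.mul_mem (Γ.inv_mem a.2) b.2, ?_⟩
    by_cases ha : Fut a.1
    · have hb : Fut b.1 := by
        have : decide (Fut a.1) = true := decide_eq_true ha
        rw [this] at hab
        exact of_decide_eq_true hab.symm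
      exact hmul1 _ (Γ.inv_mem a.2) _ b.2 (hFinv _ a.2 ha) hb
    · have hb : ¬ Fut b.1 := by
        have : decide (Fut a.1) = false := decide_eq_false ha
        rw [this] at hab
        exact of_decide_eq_false hab.symm
      have ha' : Pst a.1 := (key a.1 a.2).resolve_left ha
      have hb' : Pst b.1 := (key b.1 b.2).resolve_left hb
      exact hmul2 _ (Γ.inv_mem a.2) _ b.2 (hPinv _ a.2 ha') hb'
  · -- the cone in `E`
    obtain ⟨π, hπ⟩ := V.subtype.exists_leftInverse_of_injective (Submodule.ker_subtype V)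
    have hπ' : ∀ v : V, π (v : E) = v := fun v => congrArg (fun f : V →ₗ[ℝ] V => f v) hπ
    set U : Set E := {y | x1 (π y) ^ 2 + x2 (π y) ^ 2 < x3 (π y) ^ 2 ∧ 0 < x3 (π y)} with hU
    have hc1 : Continuous fun y => x1 (π y) := (x1 ∘ₗ π).continuous_of_finiteDimensional
    have hc2 : Continuous fun y => x2 (π y) := (x2 ∘ₗ π).continuous_of_finiteDimensional
    have hc3 : Continuous fun y => x3 (π y) := (x3 ∘ₗ π).continuous_of_finiteDimensional
    have hUo : IsOpen U := by
      refine IsOpen.inter ?_ ?_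
      · exact isOpen_lt ((hc1.pow 2).add (hc2.pow 2)) (hc3.pow 2)
      · exact isOpen_lt continuous_const hc3
    have hmem : ∀ y : E, y ∈ U ∩ (V : Set E) ↔ ∃ h : y ∈ V, (⟨y, h⟩ : V) ∈ C := by
      intro y
      constructor
      · rintro ⟨h1, h2⟩
        refine ⟨h2, ?_⟩
        have h3 := hπ' ⟨y, h2⟩
        rw [← h3]
        exact h1
      · rintro ⟨h1, h2⟩
        refine ⟨?_, h1⟩
        have h3 : π y = ⟨y, h1⟩ := hπ' ⟨y, h1⟩
        change x1 (π y) ^ 2 + x2 (π y) ^ 2 < x3 (π y) ^ 2 ∧ 0 < x3 (π y)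
        rw [h3]
        exact h2
    refine ⟨U ∩ (V : Set E), U, hUo, rfl, ⟨e, (hmem e).2 ⟨e.2, heC⟩⟩, ?_, ?_, ?_, ?_⟩
    · -- convex
      intro y hy z hz s r hs hr hsr
      obtain ⟨hy1, hy2⟩ := (hmem y).1 hy
      obtain ⟨hz1, hz2⟩ := (hmem z).1 hz
      rw [hmem]
      refine ⟨V.add_mem (V.smul_mem s hy1) (V.smul_mem r hz1), ?_⟩
      have h1 : (⟨s • y + r • z, V.add_mem (V.smul_mem s hy1) (V.smul_mem r hz1)⟩ : V) =
          s • (⟨y, hy1⟩ : V) + r • (⟨z, hz1⟩ : V) := rfl
      rw [h1]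
      set a : V := ⟨y, hy1⟩ with ha
      set b : V := ⟨z, hz1⟩ with hb
      have h2 := rcs hy2.1 hy2.2 hz2.1 hz2.2
      have h3 := hy2.1
      have h4 := hz2.1
      have h5 := hy2.2
      have h6 := hz2.2
      rcases hs.eq_or_lt with h7 | h7
      · have h8 : r = 1 := by linarith
        rw [← h7, h8, zero_smul, one_smul, zero_add]
        exact hz2
      · refine ⟨?_, ?_⟩
        · simp only [map_add, map_smul, smul_eq_mul]
          have h8 : s ^ 2 * (x1 a ^ 2 + x2 a ^ 2) < s ^ 2 * x3 a ^ 2 :=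
            mul_lt_mul_of_pos_left h3 (by positivity)
          have h9 : r ^ 2 * (x1 b ^ 2 + x2 b ^ 2) ≤ r ^ 2 * x3 b ^ 2 :=
            mul_le_mul_of_nonneg_left h4.le (by positivity)
          have h10 : (s * r) * (x1 a * x1 b + x2 a * x2 b) ≤ (s * r) * (x3 a * x3 b) :=
            mul_le_mul_of_nonneg_left h2.le (by positivity)
          nlinarith
        · simp only [map_add, map_smul, smul_eq_mul]
          have h8 : 0 < s * x3 a := mul_pos h7 h5
          have h9 : 0 ≤ r * x3 b := mul_nonneg hr h6.le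
          linarith
    · -- scaling
      intro y hy r hr
      obtain ⟨hy1, hy2⟩ := (hmem y).1 hy
      rw [hmem]
      refine ⟨V.smul_mem r hy1, ?_⟩
      have h1 : (⟨r • y, V.smul_mem r hy1⟩ : V) = r • (⟨y, hy1⟩ : V) := rfl
      rw [h1]
      refine ⟨?_, ?_⟩
      · simp only [map_smul, smul_eq_mul]
        have h3 := hy2.1
        have h4 : 0 < r ^ 2 := by positivity
        nlinarith
      · simp only [map_smul, smul_eq_mul]
        exact mul_pos hr hy2.2
    · -- lineality
      intro v hv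
      constructor
      · intro h1 x hx t
        obtain ⟨hx1, hx2⟩ := (hmem x).1 hx
        rw [hmem]
        refine ⟨V.add_mem hx1 (V.smul_mem t hv), ?_⟩
        have h2 : (⟨x + t • v, V.add_mem hx1 (V.smul_mem t hv)⟩ : V) =
          (⟨x, hx1⟩ : V) + t • (⟨v, hv⟩ : V) := rfl
        rw [h2]
        obtain ⟨k1, k2, k3⟩ := h0' ⟨v, hv⟩ h1
        refine ⟨?_, ?_⟩
        · simp only [map_add, map_smul, k1, k2, k3, smul_zero, add_zero]
          exact hx2.1
        · simp only [map_add, map_smul, k3, smul_zero, add_zero]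
          exact hx2.2
      · intro h1
        have h2 : ∀ t : ℝ, e + t • (⟨v, hv⟩ : V) ∈ C := by
          intro t
          obtain ⟨h3, h4⟩ := (hmem _).1 (h1 e ((hmem e).2 ⟨e.2, heC⟩) t)
          exact h4
        set w : V := ⟨v, hv⟩ with hw
        have h3 : x3 w = 0 := by
          by_contra h4
          have h5 := (h2 (-(x3 e / x3 w))).2
          simp only [map_add, map_smul, smul_eq_mul] at h5
          have h6 : -(x3 e / x3 w) * x3 w = -x3 e := by field_simp
          rw [h6] at h5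
          linarith
        have h4 : x1 w = 0 ∧ x2 w = 0 := by
          by_contra h5
          have h6 : 0 < x1 w ^ 2 + x2 w ^ 2 := by
            rcases not_and_or.1 h5 with h7 | h7
            · have := sq_nonneg (x2 w)
              have : 0 < x1 w ^ 2 := by positivity
              linarith
            · have := sq_nonneg (x1 w)
              have : 0 < x2 w ^ 2 := by positivity
              linarith
          have h7 := (h2 (x3 e / Real.sqrt (x1 w ^ 2 + x2 w ^ 2))).1
          simp only [map_add, map_smul, smul_eq_mul, he1, he2, h3, mul_zero, zero_add,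
            add_zero] at h7
          have h8 : 0 < Real.sqrt (x1 w ^ 2 + x2 w ^ 2) := Real.sqrt_pos.2 h6
          have h9 : Real.sqrt (x1 w ^ 2 + x2 w ^ 2) ^ 2 = x1 w ^ 2 + x2 w ^ 2 :=
            Real.sq_sqrt h6.le
          have h10 : (x3 e / Real.sqrt (x1 w ^ 2 + x2 w ^ 2) * x1 w) ^ 2 +
              (x3 e / Real.sqrt (x1 w ^ 2 + x2 w ^ 2) * x2 w) ^ 2 = x3 e ^ 2 := by
            rw [mul_pow, mul_pow, ← mul_add, div_pow, h9]
            field_simp
          rw [h10] at h7
          exact lt_irrefl _ h7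
        exact h0 w h4.1 h4.2 h3
    · -- invariance
      intro g hg x hx
      obtain ⟨hx1, hx2⟩ := (hmem x).1 hx
      rw [hmem]
      exact ⟨hinv g hg.1 x hx1, hg.2 _ hx2 _ rfl⟩

end


/-- diagonal form of `β` -/
private theorem diag {E : Type*} [NormedAddCommGroup E] [NormedSpace ℝ E]
    [FiniteDimensional ℝ E] (A B : Submodule ℝ E) (hAB : A ≤ B)
    (hdim : Module.finrank ℝ B = Module.finrank ℝ A + 3)
    (β : B →ₗ[ℝ] B →ₗ[ℝ] ℝ) (hsym : ∀ x y, β x y = β y x)
    (hrad : ∀ x : B, (∀ y, β x y = 0) ↔ (x : E) ∈ A) :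
    ∃ (a : Fin 3 → ℝ) (b : Fin 3 → B) (x : Fin 3 → (B →ₗ[ℝ] ℝ)),
      (∀ i, a i ≠ 0) ∧ (∀ i, x i (b i) = 1) ∧ (∀ i j, i ≠ j → x i (b j) = 0) ∧
      (∀ v w, β v w = ∑ i, a i * x i v * x i w) ∧
      (∀ v : B, (∀ i, x i v = 0) ↔ (v : E) ∈ A) := by
  classical
  have hBs : LinearMap.IsSymm β := ⟨fun x y => hsym x y⟩
  obtain ⟨b, hb₀⟩ := LinearMap.BilinForm.exists_orthogonal_basis (B := β) hBs
  have horth : ∀ i j, i ≠ j → β (b i) (b j) = 0 := fun i j hij => hb₀ hij
  set a : Fin (Module.finrank ℝ B) → ℝ := fun i => β (b i) (b i) with ha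
  have hexp : ∀ v w : B, β v w = ∑ i, a i * (b.repr v i) * (b.repr w i) := by
    intro v w
    have h1 : β v = ∑ i, (b.repr v) i • β (b i) := by
      conv_lhs => rw [← b.sum_repr v]
      rw [map_sum]
      refine Finset.sum_congr rfl fun i _ => ?_
      rw [map_smul]
    rw [h1, LinearMap.sum_apply]
    refine Finset.sum_congr rfl fun i _ => ?_
    conv_lhs => rw [← b.sum_repr w]
    rw [LinearMap.smul_apply, map_sum, Finset.sum_eq_single i]
    · rw [map_smul, smul_eq_mul, smul_eq_mul]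
      ring
    · intro j _ hj
      rw [map_smul, horth i j hj.symm, smul_zero]
    · intro h
      exact absurd (Finset.mem_univ i) h
  set S : Finset (Fin (Module.finrank ℝ B)) := Finset.univ.filter fun i => a i ≠ 0 with hS
  have hmemS : ∀ i, i ∈ S ↔ a i ≠ 0 := fun i => by simp [hS]
  -- the radical
  have hker : ∀ v : B, (∀ i ∈ S, b.repr v i = 0) ↔ (v : E) ∈ A := by
    intro v
    rw [← hrad v]
    constructor
    · intro h y
      rw [hexp]
      refine Finset.sum_eq_zero fun i _ => ?_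
      by_cases hi : a i = 0
      · rw [hi]
        ring
      · rw [h i ((hmemS i).2 hi)]
        ring
    · intro h i hi
      have h1 := h (b i)
      rw [hexp, Finset.sum_eq_single i] at h1
      · rw [b.repr_self, Finsupp.single_eq_same, mul_one] at h1
        exact (mul_eq_zero.1 h1).resolve_left ((hmemS i).1 hi)
      · intro j _ hj
        rw [b.repr_self, Finsupp.single_eq_of_ne hj, mul_zero]
      · intro h2
        exact absurd (Finset.mem_univ i) h2
  -- the dimension count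
  have hcard : S.card = 3 := by
    let φ : B →ₗ[ℝ] (S → ℝ) := LinearMap.pi fun i : S => b.coord i.1
    have hφ : ∀ v i, φ v i = b.repr v i.1 := fun v i => rfl
    have hsurj : Function.Surjective φ := by
      intro f
      refine ⟨∑ i : S, f i • b i.1, ?_⟩
      ext j
      rw [hφ, map_sum, Finsupp.finsetSum_apply, Finset.sum_eq_single j]
      · rw [map_smul, b.repr_self, Finsupp.smul_apply, Finsupp.single_eq_same, smul_eq_mul,
          mul_one]
      · intro i _ hi
        have h1 : (i : Fin (Module.finrank ℝ B)) ≠ j := fun h => hi (Subtype.ext h)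
        rw [map_smul, b.repr_self, Finsupp.smul_apply, Finsupp.single_eq_of_ne h1.symm, smul_zero]
      · intro h
        exact absurd (Finset.mem_univ j) h
    have hk : LinearMap.ker φ = A.comap B.subtype := by
      ext v
      rw [LinearMap.mem_ker, Submodule.mem_comap, Submodule.subtype_apply, ← hker v]
      constructor
      · intro h i hi
        exact congrFun h ⟨i, hi⟩
      · intro h
        ext i
        exact h i.1 i.2
    have h1 := LinearMap.finrank_range_add_finrank_ker φ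
    rw [LinearMap.range_eq_top.2 hsurj, finrank_top, hk,
      (Submodule.comapSubtypeEquivOfLe hAB).finrank_eq, Module.finrank_fintype_fun_eq_card,
      Fintype.card_coe] at h1
    omega
  let e : Fin 3 ≃ S := (Fintype.equivFinOfCardEq (by rw [Fintype.card_coe, hcard])).symm
  refine ⟨fun i => a (e i).1, fun i => b (e i).1, fun i => b.coord (e i).1, ?_, ?_, ?_, ?_, ?_⟩
  · intro i
    exact (hmemS _).1 (e i).2
  · intro i
    change b.repr (b (e i).1) (e i).1 = 1
    rw [b.repr_self, Finsupp.single_eq_same]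
  · intro i j hij
    change b.repr (b (e j).1) (e i).1 = 0
    have h1 : (e i).1 ≠ (e j).1 := fun h => hij (e.injective (Subtype.ext h))
    rw [b.repr_self, Finsupp.single_eq_of_ne h1]
  · intro v w
    rw [hexp]
    have h1 : ∑ i, a i * (b.repr v i) * (b.repr w i) = ∑ i ∈ S, a i * (b.repr v i) *
        (b.repr w i) := by
      refine (Finset.sum_subset (Finset.subset_univ S) fun i _ hi => ?_).symm
      have h2 : a i = 0 := by
        by_contra h3
        exact hi ((hmemS i).2 h3)
      rw [h2]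
      ring
    rw [h1, ← Finset.sum_coe_sort S, ← Equiv.sum_comp e]
    rfl
  · intro v
    rw [← hker v]
    constructor
    · intro h i hi
      have h1 := h (e.symm ⟨i, hi⟩)
      change b.repr v (e (e.symm ⟨i, hi⟩)).1 = 0 at h1
      rw [e.apply_symm_apply] at h1
      exact h1
    · intro h i
      exact h _ (e i).2

end TypeQ

theorem type_of_form_quot {E : Type*} [NormedAddCommGroup E] [NormedSpace ℝ E]
    [FiniteDimensional ℝ E] (Γ : Subgroup (E ≃ᵃ[ℝ] E)) (A B : Submodule ℝ E) (hAB : A ≤ B)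
    (hdim : Module.finrank ℝ B = Module.finrank ℝ A + 3)
    (hA : ∀ g ∈ Γ, ∀ v ∈ A, g.linear v ∈ A) (hB : ∀ g ∈ Γ, ∀ v ∈ B, g.linear v ∈ B)
    (β : B →ₗ[ℝ] B →ₗ[ℝ] ℝ) (hsym : ∀ x y, β x y = β y x)
    (hrad : ∀ x : B, (∀ y, β x y = 0) ↔ (x : E) ∈ A)
    (hβ : ∀ g ∈ Γ, ∃ c : ℝ, 0 < c ∧ ∀ x y x' y' : B, (x' : E) = g.linear (x : E) →
      (y' : E) = g.linear (y : E) → β x' y' = c * β x y) :
    ∃ Γ₁ : Subgroup (E ≃ᵃ[ℝ] E), Γ₁ ≤ Γ ∧ Γ₁.relIndex Γ ≠ 0 ∧
      (QuadType Γ₁ A B 1 ∨ ConeType Γ₁ A B) := by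
  have _ := hA
  obtain ⟨a, b, x, ha0, hx1, hx0, hexp, hker⟩ := TypeQ.diag A B hAB hdim β hsym hrad
  -- the definite case
  have hdef : ∀ σ : ℝ, (∀ i, 0 < σ * a i) → ∃ Γ₁ : Subgroup (E ≃ᵃ[ℝ] E), Γ₁ ≤ Γ ∧
      Γ₁.relIndex Γ ≠ 0 ∧ (QuadType Γ₁ A B 1 ∨ ConeType Γ₁ A B) := by
    intro σ hσ
    refine ⟨Γ, le_rfl, by rw [Subgroup.relIndex_self]; exact one_ne_zero, Or.inl ?_⟩
    set q₀ : QuadraticForm ℝ B := LinearMap.BilinMap.toQuadraticMap (σ • β) with hq₀
    have hq : ∀ v, q₀ v = σ * β v v := fun v => rfl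
    refine ⟨Submodule.span ℝ {q₀}, ?_, ?_, ⟨q₀, Submodule.mem_span_singleton_self _, ?_⟩, ?_⟩
    · have h1 : Module.finrank ℝ (Submodule.span ℝ {q₀}) ≤ 1 := by
        refine (finrank_span_le_card ({q₀} : Set (QuadraticForm ℝ B))).trans ?_
        simp
      rw [hdim]
      omega
    · intro q hqm u v hu
      obtain ⟨r, rfl⟩ := Submodule.mem_span_singleton.1 hqm
      have h1 : ∀ y, β u y = 0 := (hrad u).2 hu
      change r * q₀ (v + u) = r * q₀ v
      have h2 : β (v + u) (v + u) = β v v := by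
        have h3 : β (v + u) = β v + β u := map_add β v u
        rw [h3, LinearMap.add_apply, h1, add_zero, map_add, hsym v u, h1, add_zero]
      rw [hq, hq, h2]
    · intro v hv
      rw [hq, hexp, Finset.mul_sum]
      have h2 : ∃ i, x i v ≠ 0 := by
        by_contra h3
        push Not at h3
        exact hv ((hker v).1 h3)
      obtain ⟨i, hi⟩ := h2
      refine Finset.sum_pos' (fun j _ => ?_) ⟨i, Finset.mem_univ i, ?_⟩
      · have h4 := hσ j
        have h5 : σ * (a j * x j v * x j v) = (σ * a j) * (x j v) ^ 2 := by ring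
        rw [h5]
        positivity
      · have h4 := hσ i
        have h5 : σ * (a i * x i v * x i v) = (σ * a i) * (x i v) ^ 2 := by ring
        rw [h5]
        positivity
    · intro g hg q hq'
      obtain ⟨r, rfl⟩ := Submodule.mem_span_singleton.1 hq'
      obtain ⟨c, hc, hc'⟩ := hβ g hg
      refine ⟨(c * r) • q₀, Submodule.smul_mem _ _ (Submodule.mem_span_singleton_self _), ?_⟩
      intro u u' hu'
      change (c * r) * q₀ u = r * q₀ u'
      rw [hq, hq, hc' u u u' u' hu' hu']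
      ring
  -- the indefinite case
  have hmix : ∀ (σ : ℝ) (i j k : Fin 3), i ≠ k → j ≠ k → i ≠ j →
      (∀ f : Fin 3 → ℝ, ∑ l, f l = f i + f j + f k) → 0 < σ * a i → 0 < σ * a j → σ * a k < 0 →
      ∃ Γ₁ : Subgroup (E ≃ᵃ[ℝ] E), Γ₁ ≤ Γ ∧ Γ₁.relIndex Γ ≠ 0 ∧
      (QuadType Γ₁ A B 1 ∨ ConeType Γ₁ A B) := by
    intro σ i j k hik hjk hij hsum hi hj hk
    have hσ : σ ≠ 0 := by
      rintro rfl
      rw [zero_mul] at hi
      exact lt_irrefl _ hi
    have hk' : 0 < -(σ * a k) := by linarith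
    have hform : ∀ v w : B, σ * β v w =
        (Real.sqrt (σ * a i) • x i) v * (Real.sqrt (σ * a i) • x i) w +
        (Real.sqrt (σ * a j) • x j) v * (Real.sqrt (σ * a j) • x j) w -
        (Real.sqrt (-(σ * a k)) • x k) v * (Real.sqrt (-(σ * a k)) • x k) w := by
      intro v w
      rw [hexp, hsum]
      simp only [LinearMap.smul_apply, smul_eq_mul]
      have h1 := Real.mul_self_sqrt hi.le
      have h2 := Real.mul_self_sqrt hj.le
      have h3 := Real.mul_self_sqrt hk'.le
      linear_combination (-(x i v * x i w)) * h1 - (x j v * x j w) * h2 +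
        (x k v * x k w) * h3
    have hzero : ∀ v : B, (Real.sqrt (σ * a i) • x i) v = 0 →
        (Real.sqrt (σ * a j) • x j) v = 0 →
        (Real.sqrt (-(σ * a k)) • x k) v = 0 → (v : E) ∈ A := by
      intro v hv1 hv2 hv3
      simp only [LinearMap.smul_apply, smul_eq_mul] at hv1 hv2 hv3
      have e1 : x i v = 0 :=
        (mul_eq_zero.1 hv1).resolve_left (Real.sqrt_pos.2 hi).ne'
      have e2 : x j v = 0 :=
        (mul_eq_zero.1 hv2).resolve_left (Real.sqrt_pos.2 hj).ne'
      have e3 : x k v = 0 :=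
        (mul_eq_zero.1 hv3).resolve_left (Real.sqrt_pos.2 hk').ne'
      have h4 : ∑ l, |x l v| = 0 := by
        rw [hsum, e1, e2, e3]
        simp
      refine (hker v).1 fun l => ?_
      have h5 := (Finset.sum_eq_zero_iff_of_nonneg (fun l _ => abs_nonneg _)).1 h4 l
        (Finset.mem_univ l)
      exact abs_eq_zero.1 h5
    have hzero' : ∀ v : B, (v : E) ∈ A → (Real.sqrt (σ * a i) • x i) v = 0 ∧
        (Real.sqrt (σ * a j) • x j) v = 0 ∧
        (Real.sqrt (-(σ * a k)) • x k) v = 0 := by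
      intro v hv
      have h1 := (hker v).2 hv
      simp only [LinearMap.smul_apply, h1, smul_zero, and_self]
    obtain ⟨Γ₁, h1, h2, h3⟩ := TypeQ.cone_type Γ A B hB (Real.sqrt (σ * a i) • x i)
      (Real.sqrt (σ * a j) • x j) (Real.sqrt (-(σ * a k)) • x k) hzero hzero' (b k)
      (by rw [LinearMap.smul_apply, hx0 i k hik, smul_zero])
      (by rw [LinearMap.smul_apply, hx0 j k hjk, smul_zero])
      (by
        rw [LinearMap.smul_apply, hx1 k, smul_eq_mul, mul_one]
        exact Real.sqrt_pos.2 hk')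
      (by
        intro g hg
        obtain ⟨c, hc, hc'⟩ := hβ g hg
        refine ⟨c, hc, fun x y x' y' hx' hy' => ?_⟩
        rw [← hform, ← hform, hc' x y x' y' hx' hy']
        ring)
    exact ⟨Γ₁, h1, h2, Or.inr h3⟩
  -- the signs
  have hs3 : ∀ f : Fin 3 → ℝ, ∑ l, f l = f 0 + f 1 + f 2 := Fin.sum_univ_three
  rcases lt_or_gt_of_ne (ha0 0) with h0 | h0 <;> rcases lt_or_gt_of_ne (ha0 1) with h1 | h1 <;>
    rcases lt_or_gt_of_ne (ha0 2) with h2 | h2
  · exact hdef (-1) (by
      intro i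
      fin_cases i
      · change 0 < -1 * a 0
        linarith
      · change 0 < -1 * a 1
        linarith
      · change 0 < -1 * a 2
        linarith)
  · exact hmix (-1) 0 1 2 (by decide) (by decide) (by decide) (fun f => by rw [hs3])
      (by linarith) (by linarith) (by linarith)
  · exact hmix (-1) 0 2 1 (by decide) (by decide) (by decide) (fun f => by rw [hs3]; ring)
      (by linarith) (by linarith) (by linarith)
  · exact hmix 1 1 2 0 (by decide) (by decide) (by decide) (fun f => by rw [hs3]; ring)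
      (by linarith) (by linarith) (by linarith)
  · exact hmix (-1) 1 2 0 (by decide) (by decide) (by decide) (fun f => by rw [hs3]; ring)
      (by linarith) (by linarith) (by linarith)
  · exact hmix 1 0 2 1 (by decide) (by decide) (by decide) (fun f => by rw [hs3]; ring)
      (by linarith) (by linarith) (by linarith)
  · exact hmix 1 0 1 2 (by decide) (by decide) (by decide) (fun f => by rw [hs3])
      (by linarith) (by linarith) (by linarith)
  · exact hdef 1 (by
      intro i
      fin_cases i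
      · change 0 < 1 * a 0
        linarith
      · change 0 < 1 * a 1
        linarith
      · change 0 < 1 * a 2
        linarith)

end Pool.AF
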