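import Pool.Agent.Helper94.AL.Low
import Pool.Agent.Helper94.AM.Star1
import Pool.Agent.Helper94.AM.Star2
import Pool.Agent.Helper94.AM.Star3
import Pool.Agent.Helper94.AM.Hyp
import Pool.Agent.Helper94.AM.Marg
import Pool.Agent.Helper94.AM.TypeQ
import Pool.Agent.Helper94.AM.Comm2

open Set Finset

set_option linter.unusedSectionVars false

namespace Pool.AF

open Pool.SV
open scoped commutatorElement

section Rep

variable {G V : Type*} [Group G] [AddCommGroup V] [Module ℝ V] [FiniteDimensional ℝ V]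

/-- A normal subgroup with determinant one and eigenvalue one acts trivially in an irreducible
representation of dimension four. -/
theorem star (hV : Module.finrank ℝ V = 4) (ρ : G →* (V →ₗ[ℝ] V))
    (hirr : ∀ U : Submodule ℝ V, (∀ g, ∀ u ∈ U, ρ g u ∈ U) → U = ⊥ ∨ U = ⊤)
    (Δ : Subgroup G) [hN : Δ.Normal] (hdet : ∀ δ ∈ Δ, LinearMap.det (ρ δ) = 1)
    (hfix : ∀ δ ∈ Δ, ∃ v, v ≠ 0 ∧ ρ δ v = v) : ∀ δ ∈ Δ, ρ δ = 1 := by
  classical
  -- the fixed vectors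
  let F : Submodule ℝ V :=
    { carrier := {v | ∀ δ ∈ Δ, ρ δ v = v}
      add_mem' := by
        intro a b ha hb δ hδ
        rw [map_add, ha δ hδ, hb δ hδ]
      zero_mem' := by
        intro δ _
        rw [map_zero]
      smul_mem' := by
        intro c a ha δ hδ
        rw [map_smul, ha δ hδ] }
  have hFinv : ∀ g, ∀ u ∈ F, ρ g u ∈ F := by
    intro g u hu δ hδ
    have h1 : g⁻¹ * δ * g ∈ Δ := by
      have := hN.conj_mem δ hδ g⁻¹
      rwa [inv_inv] at this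
    have h2 : ρ δ * ρ g = ρ g * ρ (g⁻¹ * δ * g) := by
      rw [← map_mul, ← map_mul]
      congr 1
      group
    have h3 : ρ δ (ρ g u) = ρ g (ρ (g⁻¹ * δ * g) u) := LinearMap.congr_fun h2 u
    rw [h3, hu _ h1]
  rcases hirr F hFinv with h | h
  · exfalso
    obtain ⟨x, hx, hx0⟩ := star_kill (ρ.comp Δ.subtype) (fun U hU => by
      obtain ⟨U', hU', hc⟩ := star_ss ρ hirr Δ U (fun δ hδ u hu => hU ⟨δ, hδ⟩ u hu)
      exact ⟨U', fun δ u hu => hU' δ.1 δ.2 u hu, hc⟩) (fun v hv => by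
      have h1 : v ∈ F := fun δ hδ => hv ⟨δ, hδ⟩
      rwa [h, Submodule.mem_bot] at h1)
    exact star_trace hV (ρ.comp Δ.subtype) (fun δ => hdet δ.1 δ.2) (fun δ => hfix δ.1 δ.2) x hx hx0
  · intro δ hδ
    apply LinearMap.ext
    intro v
    have h1 : v ∈ F := by rw [h]; exact Submodule.mem_top
    exact h1 δ hδ

/-- Commutators act trivially in one-dimensional representations. -/
theorem one_dim (hV : Module.finrank ℝ V = 1) (ρ : G →* (V →ₗ[ℝ] V)) (δ : G)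
    (hδ : δ ∈ commutator G) : ρ δ = 1 := by
  have h1 := det_commutator ρ δ hδ
  obtain ⟨v, hv, hv2⟩ := finrank_eq_one_iff'.mp hV
  obtain ⟨c, hc⟩ := hv2 (ρ δ v)
  have h2 : ρ δ = c • (LinearMap.id : V →ₗ[ℝ] V) := by
    apply LinearMap.ext
    intro w
    obtain ⟨a, ha⟩ := hv2 w
    rw [← ha, map_smul, ← hc, LinearMap.smul_apply, LinearMap.id_apply, smul_comm]
  rw [h2, LinearMap.det_smul, hV, pow_one, LinearMap.det_id, mul_one] at h1
  rw [h2, h1, one_smul]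
  rfl

theorem inv_one_of (ρ : G →* (V →ₗ[ℝ] V)) (δ : G) : ρ δ * ρ δ⁻¹ = 1 := by
  rw [← map_mul, mul_inv_cancel, map_one]

theorem one_inv_of (ρ : G →* (V →ₗ[ℝ] V)) (δ : G) : ρ δ⁻¹ * ρ δ = 1 := by
  rw [← map_mul, inv_mul_cancel, map_one]

/-- The invariant form of an irreducible normal action in dimension three. -/
theorem form_of_fix (hV : Module.finrank ℝ V = 3) (ρ : G →* (V →ₗ[ℝ] V)) (Δ : Subgroup G)
    [Δ.Normal] (hirr : ∀ U : Submodule ℝ V, (∀ δ ∈ Δ, ∀ u ∈ U, ρ δ u ∈ U) → U = ⊥ ∨ U = ⊤)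
    (hdet : ∀ δ ∈ Δ, LinearMap.det (ρ δ) = 1) (hfix : ∀ δ ∈ Δ, ∃ v, v ≠ 0 ∧ ρ δ v = v) :
    ∃ B : V →ₗ[ℝ] V →ₗ[ℝ] ℝ, (∀ x y, B x y = B y x) ∧ (∀ x, x ≠ 0 → ∃ y, B x y ≠ 0) ∧
      ∀ g, ∃ c : ℝ, 0 < c ∧ ∀ x y, B (ρ g x) (ρ g y) = c * B x y :=
  exists_form hV ρ Δ hirr (fun δ hδ => trace_eq hV _ _ (inv_one_of ρ δ) (hdet δ hδ) (hfix δ hδ))

end Rep

section

variable {E : Type*} [NormedAddCommGroup E] [NormedSpace ℝ E] [FiniteDimensional ℝ E]

/-- A normal subgroup acting irreducibly on the three-dimensional quotient `V / U` and trivially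
on `U` and on `X / V`, with determinant one, has eigenvalue one on `V / U`. -/
theorem fix_of_irr (D : Geo E) (U : Submodule ℝ (linSub D)) (hU : ∀ g, ∀ u ∈ U, linRep D g u ∈ U)
    (N : Subgroup D.Γ) (hN : N ≤ modSub D (linSub D))
    (hNU : ∀ δ ∈ N, ∀ u ∈ U, linRep D δ u = u)
    (hW : Module.finrank ℝ (linSub D ⧸ U) = 3)
    (hdet : ∀ δ ∈ N, LinearMap.det (quoRep (linRep D) U hU δ) = 1)
    (hirr : ∀ B : Submodule ℝ (linSub D ⧸ U),
      (∀ δ ∈ N, ∀ u ∈ B, quoRep (linRep D) U hU δ u ∈ B) → B = ⊥ ∨ B = ⊤) :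
    ∀ δ ∈ N, ∃ w, w ≠ 0 ∧ quoRep (linRep D) U hU δ w = w := by
  set ρ := quoRep (linRep D) U hU with hρ
  have key : ∀ δ ∈ N, (∀ w, ρ δ w = w → w = 0) → Module.finrank ℝ (bddOrb (ρ δ)) ≠ 2 := by
    intro δ hδ hfix h2
    have h3 : ∃ h ∈ N, ¬ ∀ b ∈ bddOrb (ρ δ), ρ h b ∈ bddOrb (ρ δ) := by
      by_contra hcon
      push Not at hcon
      rcases hirr (bddOrb (ρ δ)) (fun h hh b hb => hcon h hh b hb) with h4 | h4
      · rw [h4, finrank_bot] at h2
        omega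
      · rw [h4, finrank_top, hW] at h2
        omega
    obtain ⟨h, hh, h4⟩ := h3
    have h5 : bddOrb (ρ δ) < bddOrb (ρ δ) ⊔ (bddOrb (ρ δ)).map (ρ h) := by
      refine lt_of_le_of_ne le_sup_left ?_
      intro heq
      apply h4
      intro b hb
      rw [heq]
      exact Submodule.mem_sup_right ⟨b, hb, rfl⟩
    have h6 := Submodule.finrank_lt_finrank_of_lt h5
    have h7 : bddOrb (ρ δ) ⊔ (bddOrb (ρ δ)).map (ρ h) = ⊤ := by
      apply Submodule.eq_top_of_finrank_eq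
      have h8 := Submodule.finrank_le (bddOrb (ρ δ) ⊔ (bddOrb (ρ δ)).map (ρ h))
      omega
    have h8 := marg D U hU δ h (hN hδ) (hN hh) (hNU δ hδ) (hNU h hh) hfix h7
    have h9 : bddOrb (ρ δ) = ⊤ := h8
    rw [h9, finrank_top, hW] at h2
    omega
  intro δ hδ
  by_contra hcon
  push Not at hcon
  have hfix : ∀ w, ρ δ w = w → w = 0 := by
    intro w hw
    by_contra hw0
    exact hcon w hw0 hw
  rcases hyp hW (ρ δ) (ρ δ⁻¹) (inv_one_of ρ δ) (one_inv_of ρ δ) (hdet δ hδ) hfix with h | h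
  · exact key δ hδ hfix h
  · refine key δ⁻¹ (N.inv_mem hδ) (fun w hw => hfix w ?_) h
    have h1 : ρ δ (ρ δ⁻¹ w) = w := LinearMap.congr_fun (inv_one_of ρ δ) w
    rw [hw] at h1
    exact h1

/-! ### Flags -/

/-- Invariance of the image in `E`. -/
theorem inv_map (D : Geo E) (H : Subgroup D.Γ) (U : Submodule ℝ (linSub D))
    (hinv : ∀ h ∈ H, ∀ u ∈ U, linRep D h u ∈ U) :
    ∀ g ∈ H.map D.Γ.subtype, ∀ v ∈ U.map (linSub D).subtype,
      g.linear v ∈ U.map (linSub D).subtype := by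
  rintro _ ⟨g, hg, rfl⟩ _ ⟨u, hu, rfl⟩
  exact ⟨linRep D g u, hinv g hg u hu, rfl⟩

theorem finrank_map (D : Geo E) (U : Submodule ℝ (linSub D)) :
    Module.finrank ℝ (U.map (linSub D).subtype) = Module.finrank ℝ U :=
  (LinearEquiv.finrank_eq (Submodule.equivMapOfInjective _ (linSub D).injective_subtype U)).symm

theorem map_lt_map (D : Geo E) {U U' : Submodule ℝ (linSub D)} (h : U < U') :
    U.map (linSub D).subtype < U'.map (linSub D).subtype := by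
  refine lt_of_le_of_ne (Submodule.map_mono h.le) ?_
  intro heq
  exact h.ne (Submodule.map_injective_of_injective (linSub D).injective_subtype heq)

theorem map_lt (D : Geo E) {U : Submodule ℝ (linSub D)} (h : U ≠ ⊤) :
    U.map (linSub D).subtype < linSub D := by
  have h1 := map_lt_map D (lt_top_iff_ne_top.mpr h)
  rwa [Submodule.map_subtype_top] at h1

theorem bot_lt_map (D : Geo E) {U : Submodule ℝ (linSub D)} (h : U ≠ ⊥) :
    ⊥ < U.map (linSub D).subtype := by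
  have h1 := map_lt_map D (bot_lt_iff_ne_bot.mpr h)
  rwa [Submodule.map_bot] at h1

theorem inv_bot (Γ₁ : Subgroup (E ≃ᵃ[ℝ] E)) : ∀ g ∈ Γ₁, ∀ v ∈ (⊥ : Submodule ℝ E),
    g.linear v ∈ (⊥ : Submodule ℝ E) := by
  intro g _ v hv
  rw [Submodule.mem_bot] at hv ⊢
  rw [hv, map_zero]

/-- A flag of length two, general types. -/
theorem coneFlag_two' (D : Geo E) (Γ₁ : Subgroup (E ≃ᵃ[ℝ] E)) (hle : Γ₁ ≤ D.Γ)
    (hX : D.X ≠ Set.univ) (U : Submodule ℝ E) (hU : ⊥ < U) (hUV : U < linSub D)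
    (hinv : ∀ g ∈ Γ₁, ∀ v ∈ U, g.linear v ∈ U)
    (hT : QuadType Γ₁ ⊥ U 1 ∨ ConeType Γ₁ ⊥ U)
    (hT' : QuadType Γ₁ U (linSub D) 1 ∨ ConeType Γ₁ U (linSub D)) : ConeFlag Γ₁ D.X := by
  refine ⟨2, fun i => if i = 0 then ⊥ else if i = 1 then U else linSub D, by simp,
    fun v => by simpa using mem_linSub D v, ?_, fun h => absurd h hX⟩
  intro i hi
  have h0 : i = 0 ∨ i = 1 := by omega
  rcases h0 with rfl | rfl
  · simp only [↓reduceIte, zero_add, one_ne_zero]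
    exact ⟨hU, hinv, hT⟩
  · simp only [↓reduceIte, one_ne_zero, Nat.reduceAdd, OfNat.ofNat_ne_zero, OfNat.ofNat_ne_one]
    exact ⟨hUV, fun g hg v hv => lin_inv D g (hle hg) v hv, hT'⟩

/-- A flag of length three, general types. -/
theorem coneFlag_three (D : Geo E) (Γ₁ : Subgroup (E ≃ᵃ[ℝ] E)) (hle : Γ₁ ≤ D.Γ)
    (hX : D.X ≠ Set.univ) (U U' : Submodule ℝ E) (hU : ⊥ < U) (hUU : U < U') (hUV : U' < linSub D)
    (hinv : ∀ g ∈ Γ₁, ∀ v ∈ U, g.linear v ∈ U) (hinv' : ∀ g ∈ Γ₁, ∀ v ∈ U', g.linear v ∈ U')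
    (hT : QuadType Γ₁ ⊥ U 1 ∨ ConeType Γ₁ ⊥ U) (hT' : QuadType Γ₁ U U' 1 ∨ ConeType Γ₁ U U')
    (hT'' : QuadType Γ₁ U' (linSub D) 1 ∨ ConeType Γ₁ U' (linSub D)) : ConeFlag Γ₁ D.X := by
  refine ⟨3, fun i => if i = 0 then ⊥ else if i = 1 then U else if i = 2 then U' else linSub D,
    by simp, fun v => by simpa using mem_linSub D v, ?_, fun h => absurd h hX⟩
  intro i hi
  have h0 : i = 0 ∨ i = 1 ∨ i = 2 := by omega
  rcases h0 with rfl | rfl | rfl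
  · simp only [↓reduceIte, zero_add, one_ne_zero]
    exact ⟨hU, hinv, hT⟩
  · simp only [↓reduceIte, one_ne_zero, Nat.reduceAdd, OfNat.ofNat_ne_zero, OfNat.ofNat_ne_one]
    exact ⟨hUU, hinv', hT'⟩
  · simp only [↓reduceIte, Nat.reduceAdd, OfNat.ofNat_ne_zero, OfNat.ofNat_ne_one]
    exact ⟨hUV, fun g hg v hv => lin_inv D g (hle hg) v hv, hT''⟩

/-- Vanishing from a flag of a subgroup of finite index. -/
theorem vanish_of_flag (D : Geo E) (hpos : 0 < Module.finrank ℝ E)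
    (hcc : ∃ K ⊆ D.X, IsCompact K ∧ ∀ x ∈ D.X, ∃ g ∈ D.Γ, g x ∈ K) (H : Subgroup D.Γ)
    (hH : H.FiniteIndex) (h : ConeFlag (H.map D.Γ.subtype) D.X) : Vanish D := by
  refine vanish_of_virtual_coneFlag D hpos hcc _ (Subgroup.map_subtype_le _) ?_ h
  have h5 : (H.map D.Γ.subtype).relIndex D.Γ = H.index := relIndex_geoSub D H
  rw [h5]
  exact hH.index_ne_zero

theorem inv_lin (D : Geo E) (Γ₁ : Subgroup (E ≃ᵃ[ℝ] E)) (hle : Γ₁ ≤ D.Γ) :
    ∀ g ∈ Γ₁, ∀ v ∈ linSub D, g.linear v ∈ linSub D := fun g hg v hv => lin_inv D g (hle hg) v hv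

/-- Two steps of dimension at most two. -/
theorem vanish_flag2 (D : Geo E) (hpos : 0 < Module.finrank ℝ E)
    (hcc : ∃ K ⊆ D.X, IsCompact K ∧ ∀ x ∈ D.X, ∃ g ∈ D.Γ, g x ∈ K) (hX : D.X ≠ Set.univ)
    (H : Subgroup D.Γ) (hH : H.FiniteIndex) (U : Submodule ℝ (linSub D)) (hU0 : U ≠ ⊥)
    (hU1 : U ≠ ⊤) (hinv : ∀ h ∈ H, ∀ u ∈ U, linRep D h u ∈ U)
    (hd1 : Module.finrank ℝ U ≤ 2)
    (hd2 : Module.finrank ℝ (linSub D) ≤ Module.finrank ℝ U + 2) : Vanish D := by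
  have hle : H.map D.Γ.subtype ≤ D.Γ := Subgroup.map_subtype_le _
  have hi := inv_map D H U hinv
  refine vanish_of_flag D hpos hcc H hH (coneFlag_two' D _ hle hX _ (bot_lt_map D hU0)
    (map_lt D hU1) hi (Or.inl ?_) (Or.inl ?_))
  · refine quadType_small _ _ _ bot_le (inv_bot _) hi ?_
    rw [finrank_bot, finrank_map]
    omega
  · refine quadType_small _ _ _ (map_lt D hU1).le hi (inv_lin D _ hle) ?_
    rw [finrank_map]
    omega

/-- Three steps of dimension at most two. -/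
theorem vanish_flag3 (D : Geo E) (hpos : 0 < Module.finrank ℝ E)
    (hcc : ∃ K ⊆ D.X, IsCompact K ∧ ∀ x ∈ D.X, ∃ g ∈ D.Γ, g x ∈ K) (hX : D.X ≠ Set.univ)
    (H : Subgroup D.Γ) (hH : H.FiniteIndex) (U U' : Submodule ℝ (linSub D)) (hU0 : U ≠ ⊥)
    (hUU : U < U') (hU1 : U' ≠ ⊤) (hinv : ∀ h ∈ H, ∀ u ∈ U, linRep D h u ∈ U)
    (hinv' : ∀ h ∈ H, ∀ u ∈ U', linRep D h u ∈ U')
    (hd1 : Module.finrank ℝ U ≤ 2) (hd2 : Module.finrank ℝ U' ≤ Module.finrank ℝ U + 2)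
    (hd3 : Module.finrank ℝ (linSub D) ≤ Module.finrank ℝ U' + 2) : Vanish D := by
  have hle : H.map D.Γ.subtype ≤ D.Γ := Subgroup.map_subtype_le _
  have hi := inv_map D H U hinv
  have hi' := inv_map D H U' hinv'
  refine vanish_of_flag D hpos hcc H hH (coneFlag_three D _ hle hX _ _ (bot_lt_map D hU0)
    (map_lt_map D hUU) (map_lt D hU1) hi hi' (Or.inl ?_) (Or.inl ?_) (Or.inl ?_))
  · refine quadType_small _ _ _ bot_le (inv_bot _) hi ?_
    rw [finrank_bot, finrank_map]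
    omega
  · refine quadType_small _ _ _ (map_lt_map D hUU).le hi hi' ?_
    rw [finrank_map, finrank_map]
    omega
  · refine quadType_small _ _ _ (map_lt D hU1).le hi' (inv_lin D _ hle) ?_
    rw [finrank_map]
    omega

end

end Pool.AF
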